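import Pool.Agent.Helper84.AutC

/-!
Automorphisms of `ℂ` and embeddings of number fields: normal closures and abelian fields.
-/

set_option autoImplicit false
set_option linter.unusedSectionVars false

namespace Pool.Agent.Helper8.T1

open Module

/-- the action of the automorphisms of `ℂ` on the embeddings of a field -/
def aK (K : Type) [Field K] : (ℂ ≃+* ℂ) →* Equiv.Perm (K →+* ℂ) where
  toFun τ :=
    { toFun := fun s => (τ : ℂ →+* ℂ).comp s
      invFun := fun s => (τ.symm : ℂ →+* ℂ).comp s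
      left_inv := fun s => by ext x; simp
      right_inv := fun s => by ext x; simp }
  map_one' := by
    ext s x
    rfl
  map_mul' τ τ' := by
    ext s x
    rfl

lemma aK_apply (K : Type) [Field K] (τ : ℂ ≃+* ℂ) (s : K →+* ℂ) :
    aK K τ s = (τ : ℂ →+* ℂ).comp s := rfl

section closure

variable {K K' : Type} [Field K] [NumberField K] [Field K'] [NumberField K']

lemma closure_le (h : ∀ τ : ℂ ≃+* ℂ, (∀ s : K' →+* ℂ, (τ : ℂ →+* ℂ).comp s = s) →
    ∀ s : K →+* ℂ, (τ : ℂ →+* ℂ).comp s = s) :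
    IntermediateField.normalClosure ℚ K ℂ ≤ IntermediateField.normalClosure ℚ K' ℂ := by
  refine normalClosure_le_iff.mpr fun f => ?_
  rintro _ ⟨x, rfl⟩
  have halg0 : IsAlgebraic ℚ x := Algebra.IsAlgebraic.isAlgebraic x
  have halg : IsAlgebraic ℚ (f x) := halg0.algHom f
  obtain ⟨y, hy⟩ := Helper84.mem_range_of_fixed
    (IntermediateField.normalClosure ℚ K' ℂ).val.toRingHom (f x) halg (fun τ hτ => by
      have h1 := h τ (fun s => by
        ext u
        have h2 : s u ∈ IntermediateField.normalClosure ℚ K' ℂ := by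
          have h3 := AlgHom.fieldRange_le_normalClosure (F := ℚ) (L := ℂ) s.toRatAlgHom
          exact h3 ⟨u, rfl⟩
        exact RingHom.congr_fun hτ ⟨s u, h2⟩) (f : K →+* ℂ)
      exact RingHom.congr_fun h1 x)
  show f x ∈ IntermediateField.normalClosure ℚ K' ℂ
  rw [← hy]
  exact y.2

/-- normal closures in `ℂ` -/
theorem closure_eq (h : ∀ τ : ℂ ≃+* ℂ, (∀ s : K →+* ℂ, (τ : ℂ →+* ℂ).comp s = s) ↔
    ∀ s : K' →+* ℂ, (τ : ℂ →+* ℂ).comp s = s) :
    IntermediateField.normalClosure ℚ K ℂ = IntermediateField.normalClosure ℚ K' ℂ :=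
  le_antisymm (closure_le fun τ => (h τ).mpr) (closure_le fun τ => (h τ).mp)

/-- embeddings of a Galois extension of `ℚ` differ by an automorphism -/
lemma exists_gal [IsGalois ℚ K] (t0 t : K →+* ℂ) : ∃ g : K ≃ₐ[ℚ] K, ∀ x, t0 (g x) = t x := by
  obtain ⟨g, hg⟩ := NumberField.ComplexEmbedding.exists_comp_symm_eq_of_comp_eq (k := ℚ) t0 t
    (Subsingleton.elim _ _)
  exact ⟨g.symm, fun x => RingHom.congr_fun hg x⟩

/-- for abelian fields, the automorphisms commute on the embeddings -/
lemma comm_of_abelian (h : IsAbelianGalois ℚ K) (τ τ' : ℂ ≃+* ℂ) (s : K →+* ℂ) :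
    aK K τ (aK K τ' s) = aK K τ' (aK K τ s) := by
  have := h.toIsGalois
  obtain ⟨g, hg⟩ := exists_gal s (aK K τ s)
  obtain ⟨g', hg'⟩ := exists_gal s (aK K τ' s)
  ext x
  have h1 : ∀ y, τ (s y) = s (g y) := fun y => (hg y).symm
  have h2 : ∀ y, τ' (s y) = s (g' y) := fun y => (hg' y).symm
  show τ (τ' (s x)) = τ' (τ (s x))
  rw [h2, h1, h1, h2]
  have h3 : g * g' = g' * g := h.toIsMulCommutative.is_comm.comm g g'
  exact congrArg s (AlgEquiv.congr_fun h3 x)

/-- if the automorphisms commute on the embeddings, the field is abelian -/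
theorem abelian_of_comm (h : ∀ (τ τ' : ℂ ≃+* ℂ) (s : K →+* ℂ),
    aK K τ (aK K τ' s) = aK K τ' (aK K τ s)) : IsAbelianGalois ℚ K := by
  classical
  have s0 : K →+* ℂ := Classical.choice (inferInstance : Nonempty (K →+* ℂ))
  have h1 : ∀ (s : K →+* ℂ) (x : K), ∃ y, s0 y = s x := by
    intro s x
    obtain ⟨τ', hτ'⟩ := Helper84.exists_aut s0 s
    have halg : IsAlgebraic ℚ x := Algebra.IsAlgebraic.isAlgebraic x
    refine Helper84.mem_range_of_fixed s0 (s x) (halg.algHom s.toRatAlgHom) fun τ hτ => ?_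
    have h2 := h τ τ' s0
    have h3 : aK K τ' s0 = s := hτ'
    have h4 : aK K τ s0 = s0 := hτ
    rw [h3, h4, h3] at h2
    exact RingHom.congr_fun h2 x
  have h2 : ∀ s : K →+* ℂ, ∃ g : K ≃ₐ[ℚ] K, ∀ x, s0 (g x) = s x := by
    intro s
    choose g hg using h1 s
    let G : K →+* K :=
      { toFun := g
        map_one' := s0.injective (by rw [hg, map_one, map_one])
        map_mul' := fun x y => s0.injective (by rw [hg, map_mul, map_mul, hg, hg])
        map_zero' := s0.injective (by rw [hg, map_zero, map_zero])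
        map_add' := fun x y => s0.injective (by rw [hg, map_add, map_add, hg, hg]) }
    exact ⟨AlgEquiv.ofBijective G.toRatAlgHom (Algebra.IsAlgebraic.algHom_bijective _), hg⟩
  choose g hg using h2
  have hinj : Function.Injective g := by
    intro s s' h3
    ext x
    rw [← hg s, h3, hg s']
  have hcard : Nat.card (K ≃ₐ[ℚ] K) = finrank ℚ K := by
    apply le_antisymm
    · rw [Nat.card_eq_fintype_card]
      exact AlgEquiv.card_le
    · have h3 : Nat.card (K →+* ℂ) ≤ Nat.card (K ≃ₐ[ℚ] K) := Nat.card_le_card_of_injective g hinj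
      rw [Nat.card_eq_fintype_card, NumberField.Embeddings.card] at h3
      exact h3
  have hGal : IsGalois ℚ K := IsGalois.of_card_aut_eq_finrank ℚ K hcard
  refine { toIsGalois := hGal, toIsMulCommutative := ⟨⟨fun x y => ?_⟩⟩ }
  obtain ⟨τ, hτ⟩ := Helper84.exists_aut s0 (s0.comp (x : K →+* K))
  obtain ⟨τ', hτ'⟩ := Helper84.exists_aut s0 (s0.comp (y : K →+* K))
  have e1 : ∀ u, τ (s0 u) = s0 (x u) := fun u => RingHom.congr_fun hτ u
  have e2 : ∀ u, τ' (s0 u) = s0 (y u) := fun u => RingHom.congr_fun hτ' u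
  ext u
  apply s0.injective
  have h3 : τ (τ' (s0 u)) = τ' (τ (s0 u)) := RingHom.congr_fun (h τ τ' s0) u
  rw [e2, e1, e1, e2] at h3
  exact h3

end closure

end Pool.Agent.Helper8.T1
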