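import Pool.Agent.Helper8.T1.BalT

/-!
Galois closed relations between the exponents of CM types are balanced, for CM fields which are
abelian, of degree `2 p`, or almost irreducible, if the non-abelian fields
have different normal closures.
-/

set_option autoImplicit false
set_option linter.unusedSectionVars false

namespace Pool.Agent.Helper8.T1

open GAM Pool.Agent.GPC NumberField Module
open scoped ComplexConjugate

section main

variable {I : Type} [Fintype I] {K : I → Type}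
    [∀ i, Field (K i)] [∀ i, NumberField (K i)] {c : ∀ i, K i →+* K i} {S : I → Type}
    [∀ i, Fintype (S i)] [∀ i, DecidableEq (S i)] {φ : ∀ i, S i → K i →+* ℂ}
    {A : Derivation ℚ ℂ ℂ → ∀ i, S i → ℂ}

/-- restriction of functions to one field -/
def resI (K : I → Type) [∀ i, Field (K i)] (i : I) :
    ((Σ i, (K i →+* ℂ)) → ℚ) →ₗ[ℚ] ((K i →+* ℂ) → ℚ) where
  toFun z := fun s => z ⟨i, s⟩
  map_add' _ _ := rfl
  map_smul' _ _ := rfl

/-- the functions vanishing at one field -/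
def vanI (K : I → Type) [∀ i, Field (K i)] (i : I) : Submodule ℚ ((Σ i, (K i →+* ℂ)) → ℚ) :=
  LinearMap.ker (resI K i)

lemma mem_vanI (i : I) (w : (Σ i, (K i →+* ℂ)) → ℚ) : w ∈ vanI K i ↔ ∀ s, w ⟨i, s⟩ = 0 := by
  unfold vanI
  rw [LinearMap.mem_ker]
  exact ⟨fun h s => congrFun h s, fun h => funext h⟩

/-- a minimal stable space vanishes at a field or is determined by its values at this field -/
lemma van_or_inj {W : Submodule ℚ ((Σ i, (K i →+* ℂ)) → ℚ)} (hW : StabS (aE K) W)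
    (hmin : ∀ N, StabS (aE K) N → N ≤ W → N = ⊥ ∨ N = W) (i : I) :
    (∀ w ∈ W, ∀ s, w ⟨i, s⟩ = 0) ∨ (∀ w ∈ W, (∀ s, w ⟨i, s⟩ = 0) → w = 0) := by
  have h1 : StabS (aE K) (W ⊓ vanI K i) := by
    rintro g z ⟨hz1, hz2⟩
    refine ⟨hW g z hz1, ?_⟩
    rw [SetLike.mem_coe, mem_vanI] at hz2 ⊢
    exact fun s => hz2 (aK (K i) g s)
  rcases hmin _ h1 inf_le_left with h | h
  · right
    intro w hw hw0
    have h2 : w ∈ W ⊓ vanI K i := ⟨hw, (mem_vanI i w).mpr hw0⟩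
    rw [h] at h2
    exact h2
  · left
    intro w hw s
    have h2 : w ∈ W ⊓ vanI K i := by rw [h]; exact hw
    exact (mem_vanI i w).mp h2.2 s

lemma res_stab {W : Submodule ℚ ((Σ i, (K i →+* ℂ)) → ℚ)} (hW : StabS (aE K) W) (i : I) :
    StabS (aK (K i)) (W.map (resI K i)) := by
  rintro g _ ⟨w, hw, rfl⟩
  exact ⟨_, hW g w hw, rfl⟩

lemma res_odd {W : Submodule ℚ ((Σ i, (K i →+* ℂ)) → ℚ)}
    (hodd : ∀ w ∈ W, ∀ i (σ : K i →+* ℂ), w ⟨i, σ.comp (c i)⟩ = -w ⟨i, σ⟩) (i : I) :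
    ∀ z ∈ W.map (resI K i), ∀ s, z (cE (c i) s) = - z s := by
  rintro _ ⟨w, hw, rfl⟩ s
  exact hodd w hw i s

lemma res_oneD {W : Submodule ℚ ((Σ i, (K i →+* ℂ)) → ℚ)} (i : I)
    (hinj : ∀ w ∈ W, (∀ s, w ⟨i, s⟩ = 0) → w = 0) (h : OneD (W.map (resI K i))) : OneD W := by
  obtain ⟨_, ⟨w0, hw0, rfl⟩, hall⟩ := h
  refine ⟨w0, hw0, fun z hz => ?_⟩
  obtain ⟨q, hq⟩ := hall _ ⟨z, hz, rfl⟩
  refine ⟨q, ?_⟩
  have h1 : z - q • w0 = 0 := by
    refine hinj _ (W.sub_mem hz (W.smul_mem q hw0)) fun s => ?_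
    have h2 : z ⟨i, s⟩ = q * w0 ⟨i, s⟩ := congrFun hq s
    rw [Pi.sub_apply, Pi.smul_apply, h2, smul_eq_mul, sub_self]
  exact sub_eq_zero.mp h1

/-- an automorphism which is trivial at one field is trivial on the space -/
lemma triv_of {W : Submodule ℚ ((Σ i, (K i →+* ℂ)) → ℚ)} (hW : StabS (aE K) W) (i : I)
    (hinj : ∀ w ∈ W, (∀ s, w ⟨i, s⟩ = 0) → w = 0) (τ : ℂ ≃+* ℂ)
    (hτ : ∀ s : K i →+* ℂ, aK (K i) τ s = s) (w : (Σ i, (K i →+* ℂ)) → ℚ) (hw : w ∈ W)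
    (t : Σ i, (K i →+* ℂ)) : w (aE K τ t) = w t := by
  have h1 : (fun t => w (aE K τ t)) - w = 0 := by
    refine hinj _ (W.sub_mem (hW τ w hw) hw) fun s => ?_
    rw [Pi.sub_apply, sub_eq_zero]
    show w ⟨i, aK (K i) τ s⟩ = w ⟨i, s⟩
    rw [hτ]
  exact sub_eq_zero.mp (congrFun h1 t)

/-- a minimal space of relations which is not balanced lives at one field, if it does not vanish
at a non-abelian field -/
lemma one_field (hCM : ∀ i, CMF (K i) (c i)) (hgood : ∀ i, IsGoodCM (K i))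
    (hdist : ∀ i j, i ≠ j → ¬ IsAbelianGalois ℚ (K i) → ¬ IsAbelianGalois ℚ (K j) →
      IntermediateField.normalClosure ℚ (K i) ℂ ≠ IntermediateField.normalClosure ℚ (K j) ℂ)
    {W : Submodule ℚ ((Σ i, (K i →+* ℂ)) → ℚ)} (hW : StabS (aE K) W)
    (hodd : ∀ w ∈ W, ∀ i (σ : K i →+* ℂ), w ⟨i, σ.comp (c i)⟩ = -w ⟨i, σ⟩)
    (h1 : ¬ OneD W)
    (hmin : ∀ N, StabS (aE K) N → N ≤ W → N = ⊥ ∨ N = W) (i : I)
    (hi : ¬ IsAbelianGalois ℚ (K i)) (hi0 : ¬ ∀ w ∈ W, ∀ s, w ⟨i, s⟩ = 0) (j : I) (hij : i ≠ j) :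
    ∀ w ∈ W, ∀ s, w ⟨j, s⟩ = 0 := by
  classical
  have hinji := (van_or_inj hW hmin i).resolve_left hi0
  have hfaith : ∀ i, ¬ IsAbelianGalois ℚ (K i) → (∀ w ∈ W, (∀ s, w ⟨i, s⟩ = 0) → w = 0) →
      ∀ τ, (∀ z ∈ W.map (resI K i), ∀ t, z (aK (K i) τ t) = z t) → ∀ s, aK (K i) τ s = s := by
    intro i hi hinj τ hτ s
    obtain ⟨hsp, -⟩ := good_props (hCM i) ((hgood i).resolve_left hi)
    exact faith_gen (cE_cE (hCM i)) (aK (K i)) aK_tr hsp _ (res_stab hW i)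
      (res_odd hodd i) (fun h => h1 (res_oneD i hinj h)) τ hτ s
  by_contra hj0
  have hinjj := (van_or_inj hW hmin j).resolve_left hj0
  by_cases hj : IsAbelianGalois ℚ (K j)
  · -- commutators
    apply hi
    refine abelian_of_comm fun τ τ' s => ?_
    have h2 : ∀ w ∈ W, ∀ t, w (aE K τ (aE K τ' t)) = w (aE K τ' (aE K τ t)) := by
      intro w hw t
      have h3 : (fun t => w (aE K τ (aE K τ' t))) - (fun t => w (aE K τ' (aE K τ t))) = 0 := by
        refine hinjj _ (W.sub_mem (hW τ' _ (hW τ w hw)) (hW τ _ (hW τ' w hw))) fun s => ?_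
        rw [Pi.sub_apply, sub_eq_zero]
        show w ⟨j, aK (K j) τ (aK (K j) τ' s)⟩ = w ⟨j, aK (K j) τ' (aK (K j) τ s)⟩
        rw [comm_of_abelian hj]
      exact sub_eq_zero.mp (congrFun h3 t)
    have h4 := hfaith i hi hinji ((τ * τ') * (τ' * τ)⁻¹) (by
      rintro _ ⟨w, hw, rfl⟩ t
      have h5 := h2 w hw ⟨i, aK (K i) (τ' * τ)⁻¹ t⟩
      show w ⟨i, aK (K i) ((τ * τ') * (τ' * τ)⁻¹) t⟩ = w ⟨i, t⟩
      have e1 : aK (K i) ((τ * τ') * (τ' * τ)⁻¹) t =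
          aK (K i) τ (aK (K i) τ' (aK (K i) (τ' * τ)⁻¹ t)) := by
        rw [map_mul, map_mul]; rfl
      have e2 : aK (K i) τ' (aK (K i) τ (aK (K i) (τ' * τ)⁻¹ t)) = t := by
        rw [← Equiv.Perm.mul_apply, ← Equiv.Perm.mul_apply, ← map_mul, ← map_mul,
          mul_inv_cancel, map_one]
        rfl
      rw [e1]
      refine h5.trans ?_
      show w ⟨i, aK (K i) τ' (aK (K i) τ (aK (K i) (τ' * τ)⁻¹ t))⟩ = w ⟨i, t⟩
      rw [e2]) (aK (K i) (τ' * τ) s)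
    rw [← Equiv.Perm.mul_apply, ← map_mul, inv_mul_cancel_right, map_mul, map_mul] at h4
    exact h4
  · refine hdist i j hij hi hj (closure_eq fun τ => ⟨fun h => ?_, fun h => ?_⟩)
    · refine hfaith j hj hinjj τ ?_
      rintro _ ⟨w, hw, rfl⟩ t
      exact triv_of hW i hinji τ h w hw ⟨j, t⟩
    · refine hfaith i hi hinji τ ?_
      rintro _ ⟨w, hw, rfl⟩ t
      exact triv_of hW j hinjj τ h w hw ⟨i, t⟩

/-- relations between exponents of CM types are balanced -/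
theorem balT2 (hL : St_ExpL) (hP : St_PsiK) (hIso : St_Iso) (hBal : St_Bal)
    (z : (Σ i, (K i →+* ℂ)) → ℤ) (hgood : ∀ i, IsGoodCM (K i))
    (hdist : ∀ i j, i ≠ j → ¬ IsAbelianGalois ℚ (K i) → ¬ IsAbelianGalois ℚ (K j) →
      IntermediateField.normalClosure ℚ (K i) ℂ ≠ IntermediateField.normalClosure ℚ (K j) ℂ)
    (hCM : ∀ i, CMF (K i) (c i)) (hT : ∀ i, CMT (K i) (c i) (φ i))
    (hE : ∀ δ i, IsExp δ (K i) (φ i) (A δ i))
    (hz : ∀ i (σ : K i →+* ℂ), z ⟨i, σ.comp (c i)⟩ = -z ⟨i, σ⟩)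
    (hrel : ∀ (τ : ℂ ≃+* ℂ) (δ : Derivation ℚ ℂ ℂ),
      ∑ i, ∑ s, (z ⟨i, (τ : ℂ →+* ℂ).comp (φ i s)⟩ : ℂ) *
        (2 * A δ i s - δ Real.pi / Real.pi) = 0) :
    ∑ i, ∑ s, z ⟨i, φ i s⟩ = 0 := by
  classical
  have hzR : (fun t => (z t : ℚ)) ∈ RelR K c φ A := by
    refine ⟨fun i σ => ?_, fun τ δ => ?_⟩
    · show ((z ⟨i, σ.comp (c i)⟩ : ℤ) : ℚ) = -((z ⟨i, σ⟩ : ℤ) : ℚ)
      rw [hz, Int.cast_neg]
    · rw [← hrel τ δ]
      refine Finset.sum_congr rfl fun i _ => Finset.sum_congr rfl fun s _ => ?_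
      rw [Rat.cast_intCast]
  have hle : RelR K c φ A ≤ RelZ K c φ A := by
    by_contra hcon
    obtain ⟨W, hW, hWR, hW0, hWZ, hmin⟩ := exists_min (aE_inv K) (RelR K c φ A)
      (RelZ K c φ A) (RelR_stab K c φ A) (RelZ_stab K c φ A) (fun z hz => hz.1) hcon
    have h1 := not_oneD hL hP hIso hCM hT hE hW hWR hW0 hWZ
    have hodd : ∀ w ∈ W, ∀ i (σ : K i →+* ℂ), w ⟨i, σ.comp (c i)⟩ = -w ⟨i, σ⟩ :=
      fun w hw => (hWR hw).1
    by_cases hab : ∃ i, ¬ IsAbelianGalois ℚ (K i) ∧ ¬ ∀ w ∈ W, ∀ s, w ⟨i, s⟩ = 0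
    · obtain ⟨i, hi, hi0⟩ := hab
      have hinj := (van_or_inj hW hmin i).resolve_left hi0
      have hone := one_field hCM hgood hdist hW hodd h1 hmin i hi hi0
      obtain ⟨-, hsm⟩ := good_props (hCM i) ((hgood i).resolve_left hi)
      rcases hsm _ (res_stab hW i) (res_odd hodd i) with h2 | ⟨s, t, ε, hε, ⟨w, hw, hwe⟩, hne⟩
      · exact h1 (res_oneD i hinj h2)
      · have hval : ∀ τ, ellT K φ τ w = -2 ∨ ellT K φ τ w = 0 ∨ ellT K φ τ w = 2 := by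
          intro τ
          have h3 : ellT K φ τ w = ∑ s', w ⟨i, aK (K i) τ (φ i s')⟩ := by
            unfold ellT
            rw [Finset.sum_eq_single i]
            · rfl
            · intro j _ hj
              exact Finset.sum_eq_zero fun s' _ => hone j (Ne.symm hj) w hw _
            · intro h; exact absurd (Finset.mem_univ _) h
          have h4 : ∀ u, w ⟨i, u⟩ = eV (cE (c i)) s u + ε * eV (cE (c i)) t u := fun u =>
            congrFun hwe u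
          have h5 : ellT K φ τ w = ∑ s', eV (cE (c i)) (aK (K i) τ⁻¹ s) (φ i s') +
              ε * ∑ s', eV (cE (c i)) (aK (K i) τ⁻¹ t) (φ i s') := by
            rw [h3, Finset.mul_sum, ← Finset.sum_add_distrib]
            refine Finset.sum_congr rfl fun s' _ => ?_
            rw [h4, eV_aK, eV_aK]
          rcases sum_eV (hCM i) (hT i) (aK (K i) τ⁻¹ s) with h6 | h6 <;>
            rcases sum_eV (hCM i) (hT i) (aK (K i) τ⁻¹ t) with h7 | h7 <;>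
            rcases hε with h8 | h8 <;> rw [h5, h6, h7, h8] <;> norm_num
        have h3 := relZ_of hL hP hIso hCM hT hE (hWR hw) 2 two_ne_zero hval
        have h4 : w ∈ W ⊓ RelZ K c φ A := ⟨hw, h3⟩
        rw [hWZ, Submodule.mem_bot] at h4
        apply hne
        rw [← hwe, h4, map_zero]
    · push Not at hab
      apply hW0
      rw [eq_bot_iff]
      intro w hw
      rw [← hWZ]
      refine ⟨hw, hWR hw, fun τ => ?_⟩
      exact ab_bal hBal hCM hT hE (hWR (hW τ w hw)) fun i hi s => hab i hi _ (hW τ w hw) s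
  have h1 := (hle hzR).2 1
  have h2 : ((∑ i, ∑ s, z ⟨i, φ i s⟩ : ℤ) : ℚ) = 0 := by
    rw [← h1]
    push_cast
    rfl
  exact_mod_cast h2

end main

end Pool.Agent.Helper8.T1
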