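import Pool.Agent.Helper8.T1.Fam
import Pool.Agent.Helper8.T1.BalT2

/-!
Grothendieck classes are Hodge classes, for products of factors of `GL_2`-type, of real type of
relative dimension two, and of CM type, if the CM fields are abelian, of degree `2 p`, or almost
irreducible, and if the non-abelian ones have different normal closures.
-/

open scoped ComplexConjugate

set_option linter.unusedSectionVars false

namespace Pool.Agent.Helper8.T1

open Module NumberField LieAlgebra Pool.Agent.Helper7 Pool.Agent.Helper7.HU Pool.Agent.Helper24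
open Pool.Agent.GPC Matrix
open Pool.Agent.Helper8.E Pool.Agent.Helper8.E.CP
open Pool.Agent.Helper8.D (hG hG_sym hG_idem)

attribute [local instance 100] LieRing.ofAssociativeRing

section fam

variable {I : Type} [Fintype I] [DecidableEq I] (A : I → AbVar) (n : I → ℕ) (K : I → Type)
  [∀ i, Field (K i)] [∀ i, NumberField (K i)]
  (S U T : Finset I)
  (hST : ∀ i, i ∈ S ∨ i ∈ U ∨ i ∈ T) (hS : ∀ i ∈ S, IsRMType (A i) (K i))
  (hU : ∀ i ∈ U, IsRelTwoType (A i) (K i)) (hC : ∀ i ∈ T, IsCMType (A i) (K i))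
  (hc : U = ∅ ∨ RelTwoCond A n K S U)
  (k : ℕ) (α : Form A n (2 * k)) (hα : IsGrothendieck A n k α)

include hST hS hU hC hc hα in
/-- the case of abelian CM fields, and of non-abelian CM fields which are of degree `2 p` or almost
irreducible and which have different normal closures -/
theorem hodge_T2 (hBal : GAM.St_Bal) (hExp : GAM.St_ExpAV) (hL : GAM.St_ExpL) (hP : GAM.St_PsiK)
    (hIso : GAM.St_Iso) (hgood : ∀ i ∈ T, IsGoodCM (K i))
    (hdist : ∀ i ∈ T, ∀ j ∈ T, i ≠ j → ¬ IsAbelianGalois ℚ (K i) → ¬ IsAbelianGalois ℚ (K j) →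
      IntermediateField.normalClosure ℚ (K i) ℂ ≠ IntermediateField.normalClosure ℚ (K j) ℂ) :
    IsHodge A n k α := by
  classical
  obtain ⟨F, hF⟩ := exists_sys A K S U T hST hS hU hC
  obtain ⟨N, hNT, ⟨C⟩⟩ := exists_CMSys A K F S U T hST hS hU hC hF
  have hper := fun i : {i // i ∈ N} => exists_per (C.G i)
  choose p ε hp using hper
  let fi : ∀ i : {i // i ∈ N}, Fintype (CType (C.G i)) := fun i => Fintype.ofFinite _
  refine hodge_of_rel A n K S U T hST hS hU hC hc F hF k α hα fun z hz1 hz2 hzX => ?_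
  have hz : OddV N z := ⟨hz1, fun t ht => hz2 t (by
    by_contra h
    exact ht ((C.nl t.1).mpr h))⟩
  rw [C.sum_hod hz]
  have hbal := balT2 (I := {i // i ∈ N}) (K := fun i => K i.1) (c := fun i => ccH (C.G i))
    (S := fun i => CType (C.G i)) (φ := fun i s => s.1)
    (A := fun δ i s => δ (p i s.1) / p i s.1) hL hP hIso hBal (fun t => z ⟨t.1.1, t.2⟩)
    (fun i => hgood i.1 (hNT i.2))
    (fun i j hij hi hj => hdist i.1 (hNT i.2) j.1 (hNT j.2) (fun h => hij (Subtype.ext h)) hi hj)
    (fun i => cmf_ccH (C.G i) (C.cx i.1 i.2))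
    (fun i => cmt (C.G i)) (fun δ i => isExp_per (C.G i) (hp i) hExp δ)
    (fun i σ => by
      show z ⟨i.1, σ.comp (ccH (C.G i))⟩ = - z ⟨i.1, σ⟩
      rw [comp_ccH]
      exact hz.odd ⟨i.1, σ⟩)
    (fun τ δ => C.sum_exp n k α hα p ε hp hz hzX τ δ)
  exact_mod_cast hbal

end fam

end Pool.Agent.Helper8.T1
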