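import Pool.Agent.Helper8.T1.GoodDefs

/-!
Abelian varieties all of whose simple factors of CM type have good CM fields.
-/

namespace Pool.Agent.GPC

/-- For every simple factor `B` of `X` with complex multiplication by a field `K` with
`[K : ℚ] = 2 g`, `g = dim B`: `K` is abelian over `ℚ`, or `g` is a prime number, or the
`Aut(ℂ)`-stable spaces of odd functions `Hom(K, ℂ) → ℚ` have dimension at most `1` or at least
`g - 1`; and for two such factors without non-zero homomorphisms `B → B'`, with non-abelian fields,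
the fields have different normal closures in `ℂ`. -/
structure AbVar.IsGoodCMVar (X : AbVar) : Prop where
  good : ∀ B : AbVar, B.IsSimpleFactor X → ∀ (K : Type) [Field K] [NumberField K]
    (ρ : K → B.H1 → B.H1), B.HasCM K ρ → IsGoodCM K
  closure : ∀ B B' : AbVar, B.IsSimpleFactor X → B'.IsSimpleFactor X →
    (∀ f, B.IsMor B' f → ∀ v, f v = 0) → ∀ (K K' : Type) [Field K] [NumberField K] [Field K']
    [NumberField K'] (ρ : K → B.H1 → B.H1) (ρ' : K' → B'.H1 → B'.H1), B.HasCM K ρ →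
    B'.HasCM K' ρ' → ¬ IsAbelianGalois ℚ K → ¬ IsAbelianGalois ℚ K' →
    IntermediateField.normalClosure ℚ K ℂ ≠ IntermediateField.normalClosure ℚ K' ℂ

end Pool.Agent.GPC

namespace Pool.Agent.Helper8.T1

open Pool.Agent.GPC

lemma hasCM_of_isCMType {B : AbVar} {K : Type} [Field K] [NumberField K] (h : IsCMType B K) :
    ∃ ρ, B.HasCM K ρ := by
  obtain ⟨_, ⟨C⟩⟩ := h
  exact ⟨C.ρ, C.degree, C.one, C.mul, C.add, C.endo⟩

/-- the conditions for the family of the simple factors -/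
theorem good_family {X : AbVar} (hX : X.IsGoodCMVar) {I : Type} (A : I → AbVar) (K : I → Type)
    [∀ i, Field (K i)] [∀ i, NumberField (K i)] (T : Finset I)
    (hfac : ∀ i ∈ T, (A i).IsSimpleFactor X)
    (hA : ∀ i j, i ≠ j → ∀ f, (A i).IsMor (A j) f → ∀ v, f v = 0)
    (hC : ∀ i ∈ T, IsCMType (A i) (K i)) :
    (∀ i ∈ T, IsGoodCM (K i)) ∧ ∀ i ∈ T, ∀ j ∈ T, i ≠ j → ¬ IsAbelianGalois ℚ (K i) →
      ¬ IsAbelianGalois ℚ (K j) →
      IntermediateField.normalClosure ℚ (K i) ℂ ≠ IntermediateField.normalClosure ℚ (K j) ℂ := by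
  refine ⟨fun i hi => ?_, fun i hi j hj hij h1 h2 => ?_⟩
  · obtain ⟨ρ, hρ⟩ := hasCM_of_isCMType (hC i hi)
    exact hX.good (A i) (hfac i hi) (K i) ρ hρ
  · obtain ⟨ρ, hρ⟩ := hasCM_of_isCMType (hC i hi)
    obtain ⟨ρ', hρ'⟩ := hasCM_of_isCMType (hC j hj)
    exact hX.closure (A i) (A j) (hfac i hi) (hfac j hj) (hA i j hij) (K i) (K j) ρ ρ' hρ hρ' h1 h2

end Pool.Agent.Helper8.T1
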