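import Pool.Agent.Helper8.T1.Simple
import Pool.Agent.Helper39.AF.Transfer

/-!
Transfer of the steps of the Hodge filtration along an isogeny.
-/

namespace Pool.Agent.Helper8.T1

open Module Pool.Agent.GPC Pool.Agent.Helper39.AF Pool.Agent.Helper71.AF

variable {X : AbVar} {I : Type} {A : I → AbVar} {n : I → ℕ} {Φ : X.H1 ≃ₗ[ℂ] H1 A n}
  (hΦ : IsIsogeny X A n Φ)

include hΦ in
/-- a class in `F^{k-1}` on `X` gives a class in `F^{k-1}` on the product -/
theorem filPred_transfer {k : ℕ} (α : X.Class (2 * k)) (hα : X.IsInFilPred k α)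
    (v : Fin (2 * k) → H1 A n)
    (hv : ∃ s : Finset (Fin (2 * k)), k + 1 < s.card ∧ ∀ r ∈ s, ∀ i m, (A i).IsFil (v r i m)) :
    (α.compLinearMap Φ.symm.toLinearMap) v = 0 := by
  obtain ⟨s, hs1, hs2⟩ := hv
  exact hα (fun r => Φ.symm (v r)) ⟨s, hs1, fun r hr => (fil_symm hΦ _).mpr (hs2 r hr)⟩

include hΦ in
/-- a class on `X` is a Hodge class if its transfer to the product is a Hodge class -/
theorem inFil_of_hodge {k : ℕ} (α : X.Class (2 * k))
    (h : IsHodge A n k (α.compLinearMap Φ.symm.toLinearMap)) : X.IsInFil k α := by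
  rintro v ⟨s, hs1, hs2⟩
  have h1 := h.2 (fun r => Φ (v r)) s hs1 (fun r hr => (hΦ.fil _).mp (hs2 r hr))
  have h2 : (α.compLinearMap Φ.symm.toLinearMap) (fun r => Φ (v r)) = α v := by
    rw [AlternatingMap.compLinearMap_apply]
    congr 1
    funext r
    exact Φ.symm_apply_apply (v r)
  rw [h2] at h1
  exact h1

end Pool.Agent.Helper8.T1
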