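import Pool.Agent.Helper8.T1.Types

/-!
CM fields with controlled Galois action on the embeddings.
-/

namespace Pool.Agent.GPC

open NumberField

/-- With `[K : ℚ] = 2 g`: every subspace of the space of the odd functions `Hom(K, ℂ) → ℚ` which is
stable under the automorphisms of `ℂ` has dimension at most `1` or at least `g - 1`. -/
def IsAlmostIrreducible (K : Type) [Field K] [NumberField K] : Prop :=
  ∀ N : Submodule ℚ ((K →+* ℂ) → ℚ),
    (∀ z ∈ N, ∀ s, z (ComplexEmbedding.conjugate s) = - z s) →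
    (∀ (τ : ℂ ≃+* ℂ), ∀ z ∈ N, (fun s : K →+* ℂ => z ((τ : ℂ →+* ℂ).comp s)) ∈ N) →
    Module.finrank ℚ N ≤ 1 ∨ Module.finrank ℚ K ≤ 2 * Module.finrank ℚ N + 2

/-- `K` is an abelian extension of `ℚ`, or `[K : ℚ] = 2 p` with a prime number `p`, or the stable
spaces of odd functions on the embeddings of `K` have dimension at most `1` or at least `g - 1`,
where `[K : ℚ] = 2 g`. -/
def IsGoodCM (K : Type) [Field K] [NumberField K] : Prop :=
  IsAbelianGalois ℚ K ∨ (∃ p : ℕ, p.Prime ∧ Module.finrank ℚ K = 2 * p) ∨ IsAlmostIrreducible K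

end Pool.Agent.GPC
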