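import Pool.Agent.Helper8.T1.Faith

/-!
Stable subspaces of the space of odd functions, if all of them have dimension at most one or at
least `g - 1`.
-/

set_option autoImplicit false
set_option linter.unusedSectionVars false

namespace Pool.Agent.Helper8.T1

open Module

section gen

variable {E : Type} [Fintype E] [DecidableEq E] {c : E → E}
  (hcc : ∀ s, c (c s) = s) (hne : ∀ s, c s ≠ s) {Γ : Type*} (a : Γ → Equiv.Perm E)
  (ha : ∀ g, ∃ g', ∀ t, a g' (a g t) = t) (hac : ∀ g s, a g (c s) = c (a g s))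
  (htr : ∀ s t, ∃ g, a g s = t)

/-- the odd functions -/
def oddS (c : E → E) : Submodule ℚ (E → ℚ) where
  carrier := {z | ∀ s, z (c s) = - z s}
  zero_mem' := fun s => by simp
  add_mem' := fun {x y} h1 h2 s => by rw [Pi.add_apply, Pi.add_apply, h1, h2]; ring
  smul_mem' := fun q x h1 s => by rw [Pi.smul_apply, Pi.smul_apply, h1, smul_neg]

include hcc hne in
lemma eV_odd (s : E) : eV c s ∈ oddS c := by
  intro t
  have h1 : c t = s ↔ t = c s := ⟨fun h => by rw [← h, hcc], fun h => by rw [h, hcc]⟩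
  have h2 : c t = c s ↔ t = s := ⟨fun h => by rw [← hcc t, h, hcc], fun h => by rw [h]⟩
  have e1 : (if c t = s then (1 : ℚ) else 0) = if t = c s then 1 else 0 := if_congr h1 rfl rfl
  have e2 : (if c t = c s then (1 : ℚ) else 0) = if t = s then 1 else 0 := if_congr h2 rfl rfl
  unfold eV
  rw [e1, e2]
  ring

include hcc hne in
lemma finrank_oddS : 2 * finrank ℚ (oddS c) ≤ Fintype.card E := by
  classical
  let e := Fintype.equivFin E
  let f : E → ℚ := fun s => if e s < e (c s) then 1 else -1
  have hf : ∀ s, f (c s) = - f s := by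
    intro s
    have h1 : e s ≠ e (c s) := fun h => hne s (e.injective h).symm
    by_cases h : e s < e (c s)
    · have h2 : ¬ e (c s) < e (c (c s)) := by rw [hcc]; exact not_lt.mpr h.le
      simp only [f]
      rw [if_pos h, if_neg h2]
    · have h2 : e (c s) < e (c (c s)) := by
        rw [hcc]; exact lt_of_le_of_ne (not_lt.mp h) (Ne.symm h1)
      simp only [f]
      rw [if_neg h, if_pos h2, neg_neg]
  have hf2 : ∀ s, f s * f s = 1 := by
    intro s
    simp only [f]
    split_ifs <;> norm_num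
  let T : (oddS c × oddS c) →ₗ[ℚ] (E → ℚ) :=
    { toFun := fun x => fun s => (x.1 : E → ℚ) s + f s * (x.2 : E → ℚ) s
      map_add' := fun x y => by
        funext s
        simp only [Prod.fst_add, Prod.snd_add, Submodule.coe_add, Pi.add_apply]
        ring
      map_smul' := fun q x => by
        funext s
        simp only [Prod.smul_fst, Prod.smul_snd, Submodule.coe_smul, Pi.smul_apply, smul_eq_mul,
          RingHom.id_apply]
        ring }
  have hT : Function.Injective T := by
    rw [← LinearMap.ker_eq_bot, LinearMap.ker_eq_bot']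
    rintro ⟨⟨z, hz⟩, ⟨w, hw⟩⟩ h
    have h1 : ∀ s, z s + f s * w s = 0 := fun s => congrFun h s
    have h2 : ∀ s, z s = 0 := by
      intro s
      have h3 := h1 (c s)
      rw [hz, hf, hw] at h3
      have h4 := h1 s
      linarith
    have h3 : ∀ s, w s = 0 := by
      intro s
      have h4 := h1 s
      rw [h2, zero_add] at h4
      have h5 : f s * (f s * w s) = 0 := by rw [h4, mul_zero]
      rwa [← mul_assoc, hf2, one_mul] at h5
    have e1 : z = 0 := funext h2
    have e2 : w = 0 := funext h3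
    subst e1 e2
    rfl
  have h1 := LinearMap.finrank_le_finrank_of_injective hT
  rw [finrank_prod, finrank_fintype_fun_eq_card] at h1
  omega

/-- the odd functions which are orthogonal to a subspace -/
def orthS (c : E → E) (N : Submodule ℚ (E → ℚ)) : Submodule ℚ (E → ℚ) where
  carrier := {z | (∀ s, z (c s) = - z s) ∧ ∀ w ∈ N, ∑ t, z t * w t = 0}
  zero_mem' := ⟨fun s => by simp, fun w _ => by simp⟩
  add_mem' := by
    rintro x y ⟨h1, h2⟩ ⟨h3, h4⟩
    refine ⟨fun s => by rw [Pi.add_apply, Pi.add_apply, h1, h3]; ring, fun w hw => ?_⟩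
    simp only [Pi.add_apply, add_mul, Finset.sum_add_distrib]
    rw [h2 w hw, h4 w hw, add_zero]
  smul_mem' := by
    rintro q x ⟨h1, h2⟩
    refine ⟨fun s => by rw [Pi.smul_apply, Pi.smul_apply, h1, smul_neg], fun w hw => ?_⟩
    simp only [Pi.smul_apply, smul_eq_mul, mul_assoc]
    rw [← Finset.mul_sum, h2 w hw, mul_zero]

include hcc hne in
lemma finrank_orthS (N : Submodule ℚ (E → ℚ)) (hodd : ∀ z ∈ N, ∀ s, z (c s) = - z s) :
    2 * (finrank ℚ N + finrank ℚ (orthS c N)) ≤ Fintype.card E := by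
  have h1 : N ⊓ orthS c N = ⊥ := by
    rw [eq_bot_iff]
    rintro z ⟨hz1, hz2⟩
    have h2 := (Finset.sum_eq_zero_iff_of_nonneg (fun t _ => mul_self_nonneg _)).mp (hz2.2 z hz1)
    rw [Submodule.mem_bot]
    funext t
    exact mul_self_eq_zero.mp (h2 t (Finset.mem_univ _))
  have h2 := Submodule.finrank_sup_add_finrank_inf_eq N (orthS c N)
  rw [h1, finrank_bot, add_zero] at h2
  rw [← h2]
  have h3 : N ⊔ orthS c N ≤ oddS c := sup_le (fun z hz => hodd z hz) (fun z hz => hz.1)
  have h4 := Submodule.finrank_mono h3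
  have h5 := finrank_oddS hcc hne
  omega

include ha hac in
lemma orthS_stab (N : Submodule ℚ (E → ℚ)) (hN : StabS a N) : StabS a (orthS c N) := by
  intro g z hz
  refine ⟨fun s => ?_, fun w hw => ?_⟩
  · show z (a g (c s)) = - z (a g s)
    rw [hac, hz.1]
  · obtain ⟨g', hg'⟩ := ha g
    have h1 := hz.2 _ (hN g' w hw)
    rw [← h1, ← Equiv.sum_comp (a g) (fun t => z t * w (a g' t))]
    refine Finset.sum_congr rfl fun t _ => ?_
    rw [hg']

lemma oneD_of_finrank (N : Submodule ℚ (E → ℚ)) (h : finrank ℚ N ≤ 1) : OneD N := by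
  obtain ⟨v, hv⟩ := finrank_le_one_iff.mp h
  refine ⟨v, v.2, fun z hz => ?_⟩
  obtain ⟨q, hq⟩ := hv ⟨z, hz⟩
  exact ⟨q, (congrArg Subtype.val hq).symm⟩

lemma finrank_le_of_oneD (N : Submodule ℚ (E → ℚ)) (h : OneD N) : finrank ℚ N ≤ 1 := by
  obtain ⟨w, hw, hall⟩ := h
  refine finrank_le_one (⟨w, hw⟩ : N) fun z => ?_
  obtain ⟨q, hq⟩ := hall z z.2
  exact ⟨q, Subtype.ext hq.symm⟩

include hcc hne in
lemma sum_eV_mul (s : E) (z : E → ℚ) (hz : ∀ s, z (c s) = - z s) :
    ∑ t, eV c s t * z t = 2 * z s := by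
  unfold eV
  simp only [sub_mul, Finset.sum_sub_distrib, ite_mul, one_mul, zero_mul]
  rw [Finset.sum_ite_eq', Finset.sum_ite_eq', if_pos (Finset.mem_univ _),
    if_pos (Finset.mem_univ _), hz]
  ring

include htr in
/-- the values of the generator of a stable line -/
lemma line_sq {f : E → ℚ} (hf : ∀ g, ∃ q : ℚ, (fun t => f (a g t)) = q • f) (s t : E) :
    f s ^ 2 = f t ^ 2 := by
  by_cases h0 : f = 0
  · rw [h0]; rfl
  have hpos : ∑ t, f t * f t ≠ 0 := by
    intro h1
    have h2 := (Finset.sum_eq_zero_iff_of_nonneg (fun t _ => mul_self_nonneg _)).mp h1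
    exact h0 (funext fun t => mul_self_eq_zero.mp (h2 t (Finset.mem_univ _)))
  obtain ⟨g, hg⟩ := htr s t
  obtain ⟨q, hq⟩ := hf g
  have h2 : ∀ t, f (a g t) = q * f t := fun t => congrFun hq t
  have h3 : q * q * ∑ t, f t * f t = ∑ t, f t * f t := by
    refine Eq.trans ?_ (Equiv.sum_comp (a g) (fun t => f t * f t))
    rw [Finset.mul_sum]
    refine Finset.sum_congr rfl fun t _ => ?_
    rw [h2]; ring
  have h4 : q * q = 1 := by
    apply mul_right_cancel₀ hpos
    rw [h3, one_mul]
  rw [← hg, h2, mul_pow, pow_two q, h4, one_mul]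

/-- every stable space of odd functions has dimension at most one or at least `g - 1` -/
def AlmI (c : E → E) {Γ : Type*} (a : Γ → Equiv.Perm E) : Prop :=
  ∀ N : Submodule ℚ (E → ℚ), StabS a N → (∀ z ∈ N, ∀ s, z (c s) = - z s) →
    finrank ℚ N ≤ 1 ∨ Fintype.card E ≤ 2 * finrank ℚ N + 2

include hcc hne ha hac htr in
/-- the orthogonal complement of a stable space of dimension at least two -/
lemma orth_line (hAI : AlmI c a) (N : Submodule ℚ (E → ℚ)) (hN : StabS a N)
    (hodd : ∀ z ∈ N, ∀ s, z (c s) = - z s) (h1 : ¬ OneD N) :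
    ∃ f ∈ orthS c N, (∀ z ∈ orthS c N, ∃ q : ℚ, z = q • f) ∧ ∀ s t, f s ^ 2 = f t ^ 2 := by
  have h2 := (hAI N hN hodd).resolve_left (fun h => h1 (oneD_of_finrank N h))
  have h3 := finrank_orthS hcc hne N hodd
  obtain ⟨f, hf, hall⟩ := oneD_of_finrank (orthS c N) (by omega)
  exact ⟨f, hf, hall, line_sq a htr fun g => hall _ (orthS_stab a ha hac N hN g f hf)⟩

include hcc hne ha hac htr in
theorem almI_spread (hAI : AlmI c a) : Spread c a := by
  classical
  intro N hN hodd s t hst hrel
  by_contra h1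
  obtain ⟨f, hf, hall, hsq⟩ := orth_line hcc hne a ha hac htr hAI N hN hodd h1
  have hts := hst.symm' c hcc
  have h2 : eV c s - eV c t ∈ orthS c N := by
    refine ⟨fun u => ?_, fun w hw => ?_⟩
    · rw [Pi.sub_apply, Pi.sub_apply, eV_odd hcc hne s, eV_odd hcc hne t]; ring
    · simp only [Pi.sub_apply, sub_mul, Finset.sum_sub_distrib]
      rw [sum_eV_mul hcc hne s w (hodd w hw), sum_eV_mul hcc hne t w (hodd w hw), hrel w hw,
        sub_self]
  obtain ⟨q, hq⟩ := hall _ h2
  have h3 : q * f s = 1 := by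
    have := congrFun hq s
    rw [Pi.sub_apply, Pi.smul_apply, eV_self c hne, eV_dp c hcc hts, smul_eq_mul] at this
    rw [← this, sub_zero]
  have h4 : ∀ u, u = s ∨ u = c s ∨ u = t ∨ u = c t := by
    intro u
    rcases dp_cases c hcc s u with h | h | h
    · exact Or.inl h
    · exact Or.inr (Or.inl h)
    · rcases dp_cases c hcc t u with h' | h' | h'
      · exact Or.inr (Or.inr (Or.inl h'))
      · exact Or.inr (Or.inr (Or.inr h'))
      · exfalso
        have := congrFun hq u
        rw [Pi.sub_apply, Pi.smul_apply, eV_dp c hcc h, eV_dp c hcc h', smul_eq_mul, sub_zero]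
          at this
        have h5 : f u ^ 2 = f s ^ 2 := hsq u s
        have h6 : q ≠ 0 := fun h => by rw [h, zero_mul] at h3; exact zero_ne_one h3
        have h7 : f u = 0 := (mul_eq_zero.mp this.symm).resolve_left h6
        rw [h7] at h5
        have h8 : f s = 0 := by
          have : f s ^ 2 = 0 := by rw [← h5]; ring
          exact pow_eq_zero_iff two_ne_zero |>.mp this
        rw [h8, mul_zero] at h3
        exact zero_ne_one h3
  have h5 : Fintype.card E ≤ 4 := by
    have h6 : (Finset.univ : Finset E) ⊆ {s, c s, t, c t} := by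
      intro u _
      simpa using h4 u
    exact (Finset.card_le_card h6).trans Finset.card_le_four
  have h6 := finrank_orthS hcc hne N hodd
  have h7 : finrank ℚ (orthS c N) ≠ 0 := by
    intro h0
    rw [Submodule.finrank_eq_zero] at h0
    rw [h0, Submodule.mem_bot] at hf
    rw [hf] at h3
    simp at h3
  exact h1 (oneD_of_finrank N (by omega))

include hcc hne ha hac htr in
theorem almI_small (hAI : AlmI c a) (N : Submodule ℚ (E → ℚ)) (hN : StabS a N)
    (hodd : ∀ z ∈ N, ∀ s, z (c s) = - z s) : SmallOr c N := by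
  classical
  by_cases h1 : OneD N
  · exact Or.inl h1
  right
  obtain ⟨f, hf, hall, hsq⟩ := orth_line hcc hne a ha hac htr hAI N hN hodd h1
  -- odd vectors orthogonal to `f` are in `N`
  have hmem : ∀ v : E → ℚ, (∀ s, v (c s) = - v s) → ∑ t, v t * f t = 0 → v ∈ N := by
    intro v hv hvf
    let l : (E → ℚ) →ₗ[ℚ] ℚ := ∑ t, v t • LinearMap.proj t
    have hl : ∀ w, l w = ∑ t, v t * w t := by
      intro w
      simp only [l, LinearMap.sum_apply, LinearMap.smul_apply, LinearMap.proj_apply, smul_eq_mul]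
    obtain ⟨k, hk, hk2⟩ := rep_exists N l
    have h2 : v - k ∈ orthS c N := by
      refine ⟨fun s => ?_, fun w hw => ?_⟩
      · rw [Pi.sub_apply, Pi.sub_apply, hv, hodd k hk]; ring
      · simp only [Pi.sub_apply, sub_mul, Finset.sum_sub_distrib]
        rw [hk2 w hw, hl, sub_self]
    obtain ⟨q, hq⟩ := hall _ h2
    have h3 : ∑ t, (v - k) t * f t = 0 := by
      have h4 : ∑ t, k t * f t = 0 := by
        have h5 := hf.2 k hk
        rw [← h5]
        exact Finset.sum_congr rfl fun t _ => mul_comm _ _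
      simp only [Pi.sub_apply, sub_mul, Finset.sum_sub_distrib]
      rw [hvf, h4, sub_zero]
    have h4 : q * ∑ t, f t * f t = 0 := by
      rw [← h3, hq, Finset.mul_sum]
      refine Finset.sum_congr rfl fun t _ => ?_
      rw [Pi.smul_apply, smul_eq_mul]; ring
    have h5 : v - k = 0 := by
      rcases mul_eq_zero.mp h4 with h | h
      · rw [hq, h, zero_smul]
      · have h6 := (Finset.sum_eq_zero_iff_of_nonneg (fun t _ => mul_self_nonneg _)).mp h
        have h7 : f = 0 := funext fun t => mul_self_eq_zero.mp (h6 t (Finset.mem_univ _))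
        rw [hq, h7, smul_zero]
    rw [sub_eq_zero.mp h5]
    exact hk
  -- there are two pairs
  obtain ⟨s, t, hst⟩ : ∃ s t, DP c s t := by
    by_contra hcon
    push Not at hcon
    apply h1
    by_cases hE : Nonempty E
    · obtain ⟨s⟩ := hE
      refine oneD_of N s fun t => ?_
      rcases dp_cases c hcc s t with h | h | h
      · exact ⟨1, fun z hz => by rw [h, one_mul]⟩
      · exact ⟨-1, fun z hz => by rw [h, hodd z hz, neg_one_mul]⟩
      · exact absurd h (hcon s t)
    · exact ⟨0, N.zero_mem, fun z _ => ⟨0, funext fun t => absurd ⟨t⟩ hE⟩⟩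
  have hts := hst.symm' c hcc
  have key : ∀ ε : ℚ, f s + ε * f t = 0 → eV c s + ε • eV c t ∈ N := by
    intro ε hε
    refine hmem _ (fun u => ?_) ?_
    · rw [Pi.add_apply, Pi.add_apply, Pi.smul_apply, Pi.smul_apply, eV_odd hcc hne s,
        eV_odd hcc hne t, smul_neg]
      ring
    · simp only [Pi.add_apply, Pi.smul_apply, smul_eq_mul, add_mul, mul_assoc,
        Finset.sum_add_distrib]
      rw [← Finset.mul_sum, sum_eV_mul hcc hne s f hf.1, sum_eV_mul hcc hne t f hf.1]
      linear_combination 2 * hε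
  have hne0 : ∀ ε : ℚ, eV c s + ε • eV c t ≠ 0 := by
    intro ε h
    have h3 := congrFun h s
    rw [Pi.add_apply, Pi.smul_apply, eV_self c hne, eV_dp c hcc hts] at h3
    simp at h3
  rcases sq_eq_sq_iff_eq_or_eq_neg.mp (hsq s t) with h | h
  · exact ⟨s, t, -1, Or.inr rfl, key (-1) (by rw [h]; ring), hne0 _⟩
  · exact ⟨s, t, 1, Or.inl rfl, key 1 (by rw [h]; ring), hne0 _⟩

end gen

end Pool.Agent.Helper8.T1
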