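import Pool.Agent.Helper8.T1.AlmIrr

/-!
Three times transitive actions: every stable space of odd functions has dimension at most one or at
least `g - 1`.
-/

set_option autoImplicit false
set_option linter.unusedSectionVars false

namespace Pool.Agent.Helper8.T1

open Module

section gen

variable {E : Type} [Fintype E] [DecidableEq E] {c : E → E}
  (hcc : ∀ s, c (c s) = s) (hne : ∀ s, c s ≠ s) {Γ : Type*} (a : Γ → Equiv.Perm E)
  (ha : ∀ g, ∃ g', ∀ t, a g' (a g t) = t) (hac : ∀ g s, a g (c s) = c (a g s))
  (htr : ∀ s t, ∃ g, a g s = t)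

include hcc hne in
lemma card_le_oddS : Fintype.card E ≤ 2 * finrank ℚ (oddS c) := by
  classical
  let e := Fintype.equivFin E
  let f : E → ℚ := fun s => if e s < e (c s) then 1 else -1
  have hf : ∀ s, f (c s) = - f s := by
    intro s
    have h1 : e s ≠ e (c s) := fun h => hne s (e.injective h).symm
    by_cases h : e s < e (c s)
    · have h2 : ¬ e (c s) < e (c (c s)) := by rw [hcc]; exact not_lt.mpr h.le
      simp only [f]
      rw [if_pos h, if_neg h2]
    · have h2 : e (c s) < e (c (c s)) := by
        rw [hcc]; exact lt_of_le_of_ne (not_lt.mp h) (Ne.symm h1)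
      simp only [f]
      rw [if_neg h, if_pos h2, neg_neg]
  have hf2 : ∀ s, f s * f s = 1 := by
    intro s
    simp only [f]
    split_ifs <;> norm_num
  let T : (E → ℚ) →ₗ[ℚ] (oddS c × oddS c) :=
    { toFun := fun z => (⟨fun s => z s - z (c s), fun s => by
          show z (c s) - z (c (c s)) = -(z s - z (c s))
          rw [hcc]; ring⟩,
        ⟨fun s => f s * (z s + z (c s)), fun s => by
          show f (c s) * (z (c s) + z (c (c s))) = -(f s * (z s + z (c s)))
          rw [hcc, hf]; ring⟩)
      map_add' := fun x y => by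
        refine Prod.ext (Subtype.ext (funext fun s => ?_)) (Subtype.ext (funext fun s => ?_))
        · show (x s + y s) - (x (c s) + y (c s)) = (x s - x (c s)) + (y s - y (c s))
          ring
        · show f s * ((x s + y s) + (x (c s) + y (c s))) =
            f s * (x s + x (c s)) + f s * (y s + y (c s))
          ring
      map_smul' := fun q x => by
        refine Prod.ext (Subtype.ext (funext fun s => ?_)) (Subtype.ext (funext fun s => ?_))
        · show q * x s - q * x (c s) = q * (x s - x (c s))
          ring
        · show f s * (q * x s + q * x (c s)) = q * (f s * (x s + x (c s)))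
          ring }
  have hT : Function.Injective T := by
    rw [← LinearMap.ker_eq_bot, LinearMap.ker_eq_bot']
    intro z h
    funext s
    have h1 : z s - z (c s) = 0 := congrFun (congrArg Subtype.val (congrArg Prod.fst h)) s
    have h2 : f s * (z s + z (c s)) = 0 := congrFun (congrArg Subtype.val (congrArg Prod.snd h)) s
    have h3 : z s + z (c s) = 0 := by
      have h5 : f s * (f s * (z s + z (c s))) = 0 := by rw [h2, mul_zero]
      rwa [← mul_assoc, hf2, one_mul] at h5
    show z s = 0
    linarith
  have h1 := LinearMap.finrank_le_finrank_of_injective hT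
  rw [finrank_prod, finrank_fintype_fun_eq_card] at h1
  omega

include hcc hne in
/-- if the orthogonal complement is a line, the dimension is at least `g - 1` -/
lemma le_finrank_of_orth (N : Submodule ℚ (E → ℚ)) (hodd : ∀ z ∈ N, ∀ s, z (c s) = - z s)
    (h : OneD (orthS c N)) : Fintype.card E ≤ 2 * finrank ℚ N + 2 := by
  have h1 : oddS c ≤ N ⊔ orthS c N := by
    intro v hv
    let l : (E → ℚ) →ₗ[ℚ] ℚ := ∑ t, v t • LinearMap.proj t
    have hl : ∀ w, l w = ∑ t, v t * w t := by
      intro w
      simp only [l, LinearMap.sum_apply, LinearMap.smul_apply, LinearMap.proj_apply, smul_eq_mul]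
    obtain ⟨k, hk, hk2⟩ := rep_exists N l
    have h2 : v - k ∈ orthS c N := by
      refine ⟨fun s => ?_, fun w hw => ?_⟩
      · rw [Pi.sub_apply, Pi.sub_apply, hv, hodd k hk]; ring
      · simp only [Pi.sub_apply, sub_mul, Finset.sum_sub_distrib]
        rw [hk2 w hw, hl, sub_self]
    have h3 : v = k + (v - k) := by abel
    rw [h3]
    exact Submodule.add_mem_sup hk h2
  have h2 := Submodule.finrank_mono h1
  have h3 := Submodule.finrank_add_le_finrank_add_finrank N (orthS c N)
  have h4 := finrank_le_of_oneD _ h
  have h5 := card_le_oddS hcc hne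
  omega

include hcc hne ha hac htr in
/-- three times transitive actions -/
theorem almI_three (h3 : ∀ s1 s2 s3 t1 t2 t3 : E, DP c s1 s2 → DP c s1 s3 → DP c s2 s3 →
      DP c t1 t2 → DP c t1 t3 → DP c t2 t3 → ∃ g, (a g s1 = t1 ∨ a g s1 = c t1) ∧
        (a g s2 = t2 ∨ a g s2 = c t2) ∧ (a g s3 = t3 ∨ a g s3 = c t3))
    (hthree : ∀ s t : E, DP c s t → ∃ u, DP c s u ∧ DP c t u) (htwo : ∀ s : E, ∃ t, DP c s t) :
    AlmI c a := by
  classical
  intro N hN hodd
  rcases tri3 c hcc hne a ha hac h3 hthree htwo N hN hodd with h | ⟨s, t, ε, hε, hmem, hne0⟩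
  · exact Or.inl (finrank_le_of_oneD N h)
  right
  refine le_finrank_of_orth hcc hne N hodd ?_
  have hst' := orthS_stab a ha hac N hN
  have horth : ∀ f ∈ orthS c N, f s = - ε * f t := by
    intro f hf
    have h1 := hf.2 _ hmem
    have h2 : ∑ u, f u * (eV c s + ε • eV c t) u = 2 * f s + ε * (2 * f t) := by
      rw [← sum_eV_mul hcc hne s f hf.1, ← sum_eV_mul hcc hne t f hf.1, Finset.mul_sum,
        ← Finset.sum_add_distrib]
      refine Finset.sum_congr rfl fun u _ => ?_
      rw [Pi.add_apply, Pi.smul_apply, smul_eq_mul]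
      ring
    rw [h2] at h1
    linarith
  have hzero : (∀ f ∈ orthS c N, f s = 0) → OneD (orthS c N) := by
    intro h0
    refine ⟨0, Submodule.zero_mem _, fun f hf => ⟨0, ?_⟩⟩
    rw [smul_zero]
    funext u
    obtain ⟨g, hg⟩ := htr s u
    have h1 := h0 _ (hst' g f hf)
    beta_reduce at h1
    rw [hg] at h1
    exact h1
  rcases dp_cases c hcc s t with h | h | h
  · apply hzero
    intro f hf
    have h1 := horth f hf
    rw [h] at h1
    rcases hε with h2 | h2
    · rw [h2] at h1; linarith
    · exfalso
      apply hne0
      rw [h, h2, neg_one_smul, add_neg_cancel]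
  · apply hzero
    intro f hf
    have h1 := horth f hf
    rw [h, hf.1] at h1
    rcases hε with h2 | h2
    · exfalso
      apply hne0
      have h3 : eV c (c s) = - eV c s := by
        funext u
        unfold eV
        rw [Pi.neg_apply, hcc]
        show _ = -((if u = s then (1 : ℚ) else 0) - if u = c s then 1 else 0)
        ring
      rw [h, h2, one_smul, h3, add_neg_cancel]
    · rw [h2] at h1; linarith
  · refine oneD_of _ s fun u => ?_
    rcases dp_cases c hcc s u with h' | h' | h'
    · exact ⟨1, fun z hz => by rw [h', one_mul]⟩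
    · exact ⟨-1, fun z hz => by rw [h', hz.1, neg_one_mul]⟩
    · obtain ⟨v, hsv, htv⟩ := hthree s t h
      obtain ⟨v', hsv', huv'⟩ := hthree s u h'
      obtain ⟨g, hg1, hg2, -⟩ := h3 s t v s u v' h hsv htv h' hsv' huv'
      have h4 : ∀ z ∈ orthS c N, z (a g s) = - ε * z (a g t) := fun z hz => horth _ (hst' g z hz)
      have hε2 : ε * ε = 1 := mul_self_eq_one_iff.mpr hε
      rcases hg1 with h1 | h1 <;> rcases hg2 with h2 | h2 <;> rw [h1, h2] at h4
      · refine ⟨-ε, fun z hz => ?_⟩
        have := h4 z hz
        rw [this]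
        linear_combination (-(z u)) * hε2
      · refine ⟨ε, fun z hz => ?_⟩
        have := h4 z hz
        rw [hz.1] at this
        rw [this]
        linear_combination (-(z u)) * hε2
      · refine ⟨ε, fun z hz => ?_⟩
        have := h4 z hz
        rw [hz.1] at this
        have h5 : z s = ε * z u := by linarith
        rw [h5]
        linear_combination (-(z u)) * hε2
      · refine ⟨-ε, fun z hz => ?_⟩
        have := h4 z hz
        rw [hz.1, hz.1] at this
        have h5 : z s = -(ε * z u) := by linarith
        rw [h5]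
        linear_combination (-(z u)) * hε2

end gen

end Pool.Agent.Helper8.T1
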