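import Pool.Agent.Helper8.T1.MMF
import Pool.Agent.Helper84.AutC

/-!
Galois closed relations between the exponents of CM types of arbitrary CM fields are balanced,
provided the sums of the conjugate relations are in `{-b, 0, b}`. Version with rational coefficients.
-/

set_option autoImplicit false
set_option linter.unusedSectionVars false
set_option linter.unusedVariables false

namespace Pool.Agent.Helper8.T1

open GAM
open scoped ComplexConjugate

section one

variable {K : Type} [Field K] [NumberField K] {c : K →+* K}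

private lemma BalQ_comp_apply {K L : Type} [Field K] [Field L] (σ : L →+* ℂ) (g : K →+* L) (x : K) :
    σ.comp g x = σ (g x) := rfl

private lemma BalQ_cc (hc : CMF K c) (σ : K →+* ℂ) : (σ.comp c).comp c = σ := by
  ext x
  rw [BalQ_comp_apply, BalQ_comp_apply, ← hc.cc, ← hc.cc, Complex.conj_conj]

private lemma BalQ_c_inj (hc : CMF K c) {σ σ' : K →+* ℂ} (h : σ.comp c = σ'.comp c) : σ = σ' := by
  rw [← BalQ_cc hc σ, h, BalQ_cc hc]

/-- complex conjugation commutes with isomorphisms -/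
private lemma BalQ_comm (hc : CMF K c) (σ : K →+* ℂ) (g : K →+* K) :
    (σ.comp c).comp g = (σ.comp g).comp c := by
  ext x
  rw [BalQ_comp_apply, BalQ_comp_apply, BalQ_comp_apply, BalQ_comp_apply, ← hc.cc σ (g x)]
  have h := hc.cc (σ.comp g) x
  rw [BalQ_comp_apply, BalQ_comp_apply] at h
  exact h

variable {S : Type} [Fintype S] {φ : S → K →+* ℂ}

private lemma BalQ_inj (hT : CMT K c φ) {s s' : S} (h : φ s = φ s') : s = s' := by
  have h1 : (Sum.inl s : S ⊕ S) = Sum.inl s' := hT.1 h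
  exact Sum.inl_injective h1

private lemma BalQ_ne (hT : CMT K c φ) {s s' : S} (h : φ s = (φ s').comp c) : False := by
  have h1 : (Sum.inl s : S ⊕ S) = Sum.inr s' := hT.1 h
  exact absurd h1 (by simp)

private lemma BalQ_surj (hT : CMT K c φ) (σ : K →+* ℂ) :
    (∃ s, σ = φ s) ∨ ∃ s, σ = (φ s).comp c := by
  obtain ⟨x, hx⟩ := hT.2 σ
  rcases x with s | s
  · exact Or.inl ⟨s, hx.symm⟩
  · exact Or.inr ⟨s, hx.symm⟩

private lemma BalQ_sum (hT : CMT K c φ) {M : Type} [AddCommMonoid M] (F : (K →+* ℂ) → M) :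
    ∑ ρ, F ρ = ∑ s, F (φ s) + ∑ s, F ((φ s).comp c) := by
  rw [← (Equiv.ofBijective _ hT).sum_comp F, Fintype.sum_sum_type]
  rfl

end one

section two

variable {K L : Type} [Field K] [NumberField K] [Field L] [NumberField L] [Algebra K L]
  {c : K →+* K} {c' : L →+* L}

private lemma BalQ_res_c (hc : CMF K c) (hc' : CMF L c') (σ : L →+* ℂ) :
    (σ.comp c').comp (algebraMap K L) = (σ.comp (algebraMap K L)).comp c := by
  ext x
  rw [BalQ_comp_apply, BalQ_comp_apply, ← hc'.cc]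
  exact hc.cc (σ.comp (algebraMap K L)) x

/-- all fibres of the restriction of embeddings have the same size -/
private lemma BalQ_fib (K L : Type) [Field K] [NumberField K] [Field L] [NumberField L]
    [Algebra K L] : ∃ m : ℕ, m ≠ 0 ∧ ∀ (M : Type) [AddCommMonoid M] (F : (K →+* ℂ) → M),
    ∑ t : L →+* ℂ, F (t.comp (algebraMap K L)) = m • ∑ ρ, F ρ := by
  classical
  obtain ⟨t0⟩ : Nonempty (L →+* ℂ) := inferInstance
  set ρ0 : K →+* ℂ := t0.comp (algebraMap K L) with hρ0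
  set fib : (K →+* ℂ) → Finset (L →+* ℂ) := fun ρ =>
    Finset.univ.filter fun t => t.comp (algebraMap K L) = ρ with hfib
  have hcard : ∀ ρ, (fib ρ).card = (fib ρ0).card := by
    intro ρ
    obtain ⟨τ, hτ⟩ := Pool.Agent.Helper84.exists_aut ρ ρ0
    refine Finset.card_bij' (fun t _ => (τ : ℂ →+* ℂ).comp t)
      (fun t _ => ((τ.symm : ℂ ≃+* ℂ) : ℂ →+* ℂ).comp t) ?_ ?_ ?_ ?_
    · intro t ht
      simp only [hfib, Finset.mem_filter, Finset.mem_univ, true_and] at ht ⊢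
      rw [RingHom.comp_assoc, ht, hτ]
    · intro t ht
      simp only [hfib, Finset.mem_filter, Finset.mem_univ, true_and] at ht ⊢
      rw [RingHom.comp_assoc, ht, ← hτ]
      ext x
      simp
    · intro t _
      ext x
      simp
    · intro t _
      ext x
      simp
  refine ⟨(fib ρ0).card, ?_, ?_⟩
  · have h1 : t0 ∈ fib ρ0 := by simp [hfib, hρ0]
    exact (Finset.card_pos.2 ⟨t0, h1⟩).ne'
  · intro M _ F
    rw [← Finset.sum_fiberwise (s := Finset.univ) (g := fun t : L →+* ℂ => t.comp (algebraMap K L))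
      (f := fun t => F (t.comp (algebraMap K L)))]
    rw [Finset.smul_sum]
    refine Finset.sum_congr rfl fun ρ _ => ?_
    rw [← hcard ρ, ← Finset.sum_const]
    refine Finset.sum_congr rfl fun t ht => ?_
    rw [(Finset.mem_filter.1 ht).2]

variable {S : Type} [Fintype S] {φ : S → K →+* ℂ}

/-- the embeddings of `L` above the CM type `φ` -/
private abbrev BalQ_S (K L : Type) [Field K] [Field L] [Algebra K L] {S : Type}
    (φ : S → K →+* ℂ) : Type :=
  {σ : L →+* ℂ // ∃ s, σ.comp (algebraMap K L) = φ s}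

private lemma BalQ_CMT (hc : CMF K c) (hc' : CMF L c') (hT : CMT K c φ) :
    CMT L c' (fun s' : BalQ_S K L φ => s'.1) := by
  constructor
  · rintro (⟨σ, s, hs⟩ | ⟨σ, s, hs⟩) (⟨σ', s', hs'⟩ | ⟨σ', s', hs'⟩) h
    · have h1 : σ = σ' := h
      subst h1; rfl
    · have h1 : σ = σ'.comp c' := h
      rw [h1, BalQ_res_c hc hc', hs'] at hs
      exact (BalQ_ne hT hs.symm).elim
    · have h1 : σ.comp c' = σ' := h
      rw [← h1, BalQ_res_c hc hc', hs] at hs'
      exact (BalQ_ne hT hs'.symm).elim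
    · have h1 : σ.comp c' = σ'.comp c' := h
      have h2 := BalQ_c_inj hc' h1
      subst h2; rfl
  · intro σ
    rcases BalQ_surj hT (σ.comp (algebraMap K L)) with ⟨s, hs⟩ | ⟨s, hs⟩
    · exact ⟨Sum.inl ⟨σ, s, hs⟩, rfl⟩
    · refine ⟨Sum.inr ⟨σ.comp c', s, ?_⟩, BalQ_cc hc' σ⟩
      rw [BalQ_res_c hc hc', hs, BalQ_cc hc]

private noncomputable def BalQ_H (L : Type) [Field L] [Algebra K L] (φ : S → K →+* ℂ) :
    (L →+* ℂ) → ℚ :=
  hfun (fun s' : BalQ_S K L φ => s'.1)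

private lemma BalQ_H_pos {t : L →+* ℂ} {s : S} (h : t.comp (algebraMap K L) = φ s) :
    BalQ_H L φ t = 1 / 2 := by
  unfold BalQ_H hfun
  rw [if_pos]
  exact ⟨⟨t, s, h⟩, rfl⟩

private lemma BalQ_H_neg (hT : CMT K c φ) {t : L →+* ℂ} {s : S}
    (h : t.comp (algebraMap K L) = (φ s).comp c) : BalQ_H L φ t = -1 / 2 := by
  unfold BalQ_H hfun
  rw [if_neg]
  rintro ⟨⟨t', s', h'⟩, ht⟩
  have h1 : t' = t := ht
  rw [h1, h] at h'
  exact BalQ_ne hT h'.symm

private lemma BalQ_H_odd (hc : CMF K c) (hc' : CMF L c') (hT : CMT K c φ) :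
    OddF c' (BalQ_H L φ) := by
  intro σ
  rcases BalQ_surj hT (σ.comp (algebraMap K L)) with ⟨s, hs⟩ | ⟨s, hs⟩
  · rw [BalQ_H_pos hs, BalQ_H_neg hT (s := s) (by rw [BalQ_res_c hc hc', hs])]
    norm_num
  · rw [BalQ_H_neg hT hs, BalQ_H_pos (s := s) (by rw [BalQ_res_c hc hc', hs, BalQ_cc hc])]
    norm_num

/-- `Ψ_t` of `H` -/
private lemma BalQ_psi [DecidableEq S] (hL : St_ExpL) (hc : CMF K c) (hc' : CMF L c')
    (hT : CMT K c φ) {δ : Derivation ℚ ℂ ℂ} {A : S → ℂ} (hE : IsExp δ K φ A)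
    {Ψ : (L →+* ℂ) → ((L →+* ℂ) → ℚ) →ₗ[ℚ] ℂ} (hΨ : IsPsiK δ L c' Ψ) (t : L →+* ℂ) (s : S) :
    (t.comp (algebraMap K L) = φ s → Ψ t (BalQ_H L φ) = A s - δ Real.pi / (2 * Real.pi)) ∧
    (t.comp (algebraMap K L) = (φ s).comp c →
      Ψ t (BalQ_H L φ) = -(A s - δ Real.pi / (2 * Real.pi))) := by
  classical
  have hT' := BalQ_CMT hc hc' hT
  have key : ∀ t : L →+* ℂ, t.comp (algebraMap K L) = φ s →
      Ψ t (BalQ_H L φ) = A s - δ Real.pi / (2 * Real.pi) := by
    intro t ht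
    have hr : ∀ s' : BalQ_S K L φ, ∃ s, s'.1.comp (algebraMap K L) = φ s := fun s' => s'.2
    choose r hr using hr
    have h1 := hL K L c c' S (BalQ_S K L φ) φ (fun s' => s'.1) r δ A hc hc' hT hT' hr hE
    have h2 := hΨ.val (BalQ_S K L φ) (fun s' => s'.1) (fun s' => A (r s')) ⟨t, s, ht⟩ hT' h1
    have h3 : r ⟨t, s, ht⟩ = s := by
      have h4 := hr ⟨t, s, ht⟩
      exact BalQ_inj hT (h4.symm.trans ht)
    rw [h3] at h2
    exact h2.symm
  refine ⟨key t, fun ht => ?_⟩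
  have h1 : (t.comp c').comp (algebraMap K L) = φ s := by
    rw [BalQ_res_c hc hc', ht, BalQ_cc hc]
  have h2 := key (t.comp c') h1
  have h3 := hΨ.cj t (BalQ_H L φ) (BalQ_H_odd hc hc' hT)
  rw [h3] at h2
  rw [← h2, neg_neg]

private lemma BalQ_gal [IsGalois ℚ L] (t0 t : L →+* ℂ) :
    ∃ g : L ≃+* L, t0.comp (g : L →+* L) = t := by
  obtain ⟨g, hg⟩ := NumberField.ComplexEmbedding.exists_comp_symm_eq_of_comp_eq (k := ℚ) t0 t
    (Subsingleton.elim _ _)
  exact ⟨g.symm.toRingEquiv, hg⟩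

end two

/-- relations between exponents of CM types are balanced if the sums of all conjugate relations
are in `{-b, 0, b}` -/
theorem balQ (hL : St_ExpL) (hP : St_PsiK) (hIso : St_Iso) (I : Type) [Fintype I] (K : I → Type)
    [∀ i, Field (K i)] [∀ i, NumberField (K i)] (c : ∀ i, K i →+* K i) (S : I → Type)
    [∀ i, Fintype (S i)] [∀ i, DecidableEq (S i)] (φ : ∀ i, S i → K i →+* ℂ)
    (A : Derivation ℚ ℂ ℂ → ∀ i, S i → ℂ) (z : (Σ i, (K i →+* ℂ)) → ℚ) (b : ℚ) (hb : b ≠ 0)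
    (hCM : ∀ i, CMF (K i) (c i)) (hT : ∀ i, CMT (K i) (c i) (φ i))
    (hE : ∀ δ i, IsExp δ (K i) (φ i) (A δ i))
    (hz : ∀ i (σ : K i →+* ℂ), z ⟨i, σ.comp (c i)⟩ = -z ⟨i, σ⟩)
    (hrel : ∀ (τ : ℂ ≃+* ℂ) (δ : Derivation ℚ ℂ ℂ),
      ∑ i, ∑ s, (z ⟨i, (τ : ℂ →+* ℂ).comp (φ i s)⟩ : ℂ) *
        (2 * A δ i s - δ Real.pi / Real.pi) = 0)
    (hz2 : ∀ τ : ℂ ≃+* ℂ, ∑ i, ∑ s, z ⟨i, (τ : ℂ →+* ℂ).comp (φ i s)⟩ = -b ∨
      ∑ i, ∑ s, z ⟨i, (τ : ℂ →+* ℂ).comp (φ i s)⟩ = 0 ∨
      ∑ i, ∑ s, z ⟨i, (τ : ℂ →+* ℂ).comp (φ i s)⟩ = b) :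
    ∑ i, ∑ s, z ⟨i, φ i s⟩ = 0 := by
  classical
  rcases isEmpty_or_nonempty I with hI | hI
  · simp
  obtain ⟨L, iF, iN, iA, c', hc', hGal⟩ := compF I K (fun i => ⟨c i, hCM i⟩)
  -- the functions
  have hΨ : ∀ δ, ∃ Ψ, IsPsiK δ L c' Ψ := fun δ => hP L c' δ hc'
  choose Ψ hΨ using hΨ
  obtain ⟨t0⟩ : Nonempty (L →+* ℂ) := inferInstance
  have hg : ∀ t : L →+* ℂ, ∃ g : L ≃+* L, t0.comp (g : L →+* L) = t := fun t => BalQ_gal t0 t
  choose g hg using hg
  have hm : ∀ i, ∃ m : ℕ, m ≠ 0 ∧ ∀ (M : Type) [AddCommMonoid M] (F : (K i →+* ℂ) → M),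
    ∑ t : L →+* ℂ, F (t.comp (algebraMap (K i) L)) = m • ∑ ρ, F ρ := fun i => BalQ_fib (K i) L
  choose m hm0 hm using hm
  set f : (L →+* ℂ) → ℚ := fun σ => ∑ i, (1 / (m i : ℚ)) * ∑ t : L →+* ℂ,
    z ⟨i, t.comp (algebraMap (K i) L)⟩ * BalQ_H L (φ i) (σ.comp (g t : L →+* L)) with hf
  -- `f` is odd
  have hodd : OddF c' f := by
    intro σ
    rw [hf]
    simp only
    rw [← Finset.sum_neg_distrib]
    refine Finset.sum_congr rfl fun i _ => ?_
    rw [← mul_neg, ← Finset.sum_neg_distrib]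
    congr 1
    refine Finset.sum_congr rfl fun t _ => ?_
    rw [BalQ_comm hc', BalQ_H_odd (hCM i) hc' (hT i)]
    ring
  -- `Ψ_t f = 0`
  have hzero : ∀ δ t1, Ψ δ t1 f = 0 := by
    intro δ t1
    have h1 : f = ∑ i, (1 / (m i : ℚ)) • ∑ t : L →+* ℂ,
        z ⟨i, t.comp (algebraMap (K i) L)⟩ •
          (fun σ : L →+* ℂ => BalQ_H L (φ i) (σ.comp (g t : L →+* L))) := by
      funext σ
      rw [hf]
      simp only [Finset.sum_apply, Pi.smul_apply, smul_eq_mul]
    rw [h1, map_sum]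
    obtain ⟨τ, hτ⟩ := Pool.Agent.Helper84.exists_aut t1 t0
    have h2 : ∀ i, Ψ δ t1 ((1 / (m i : ℚ)) • ∑ t : L →+* ℂ,
        z ⟨i, t.comp (algebraMap (K i) L)⟩ •
          (fun σ : L →+* ℂ => BalQ_H L (φ i) (σ.comp (g t : L →+* L)))) =
        ∑ s, (z ⟨i, (τ : ℂ →+* ℂ).comp (φ i s)⟩ : ℂ) *
          (2 * A δ i s - δ Real.pi / Real.pi) := by
      intro i
      rw [map_smul, map_sum]
      have h3 : ∀ t : L →+* ℂ, Ψ δ t1 (z ⟨i, t.comp (algebraMap (K i) L)⟩ •
          (fun σ : L →+* ℂ => BalQ_H L (φ i) (σ.comp (g t : L →+* L)))) =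
          (z ⟨i, t.comp (algebraMap (K i) L)⟩ : ℂ) *
            Ψ δ (t1.comp (g t : L →+* L)) (BalQ_H L (φ i)) := by
        intro t
        rw [map_smul, ← (hΨ δ).gal (g t) t1 _ (BalQ_H_odd (hCM i) hc' (hT i)), Algebra.smul_def]
        congr 1
      rw [Finset.sum_congr rfl fun t _ => h3 t]
      -- substitution
      have hbij : Function.Bijective (fun t' : L →+* ℂ => (τ : ℂ →+* ℂ).comp t') := by
        constructor
        · intro a b hab'
          ext x
          have := RingHom.congr_fun hab' x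
          exact τ.injective this
        · intro b
          refine ⟨((τ.symm : ℂ ≃+* ℂ) : ℂ →+* ℂ).comp b, ?_⟩
          ext x
          simp
      rw [← hbij.sum_comp (fun t : L →+* ℂ => (z ⟨i, t.comp (algebraMap (K i) L)⟩ : ℂ) *
            Ψ δ (t1.comp (g t : L →+* L)) (BalQ_H L (φ i)))]
      have h4 : ∀ t' : L →+* ℂ, t1.comp (g ((τ : ℂ →+* ℂ).comp t') : L →+* L) = t' := by
        intro t'
        apply hbij.1
        simp only
        rw [← RingHom.comp_assoc, hτ, hg]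
      set G : (K i →+* ℂ) → ℂ := fun ρ : K i →+* ℂ => (z ⟨i, (τ : ℂ →+* ℂ).comp ρ⟩ : ℂ) *
            (if h : ∃ s, ρ = φ i s then A δ i h.choose - δ Real.pi / (2 * Real.pi) else
              if h : ∃ s, ρ = (φ i s).comp (c i) then
                -(A δ i h.choose - δ Real.pi / (2 * Real.pi)) else 0) with hG'
      have h5 : ∀ t' : L →+* ℂ, (z ⟨i, ((τ : ℂ →+* ℂ).comp t').comp (algebraMap (K i) L)⟩ : ℂ) *
            Ψ δ (t1.comp (g ((τ : ℂ →+* ℂ).comp t') : L →+* L)) (BalQ_H L (φ i)) =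
          G (t'.comp (algebraMap (K i) L)) := by
        intro t'
        rw [hG']
        simp only
        rw [h4, RingHom.comp_assoc]
        congr 1
        split_ifs with h6 h7
        · exact (BalQ_psi hL (hCM i) hc' (hT i) (hE δ i) (hΨ δ) t' _).1 h6.choose_spec
        · exact (BalQ_psi hL (hCM i) hc' (hT i) (hE δ i) (hΨ δ) t' _).2 h7.choose_spec
        · rcases BalQ_surj (hT i) (t'.comp (algebraMap (K i) L)) with h8 | h8
          · exact absurd h8 h6
          · exact absurd h8 h7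
      rw [Finset.sum_congr rfl fun t' _ => h5 t', hm i ℂ G, BalQ_sum (hT i), hG']
      have h9 : ∀ s, (if h : ∃ s', φ i s = φ i s' then
          A δ i h.choose - δ Real.pi / (2 * Real.pi) else
              if h : ∃ s', φ i s = (φ i s').comp (c i) then
                -(A δ i h.choose - δ Real.pi / (2 * Real.pi)) else 0) =
          A δ i s - δ Real.pi / (2 * Real.pi) := by
        intro s
        have h10 : ∃ s', φ i s = φ i s' := ⟨s, rfl⟩
        rw [dif_pos h10, ← BalQ_inj (hT i) h10.choose_spec]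
      have h11 : ∀ s, (if h : ∃ s', (φ i s).comp (c i) = φ i s' then
          A δ i h.choose - δ Real.pi / (2 * Real.pi) else
              if h : ∃ s', (φ i s).comp (c i) = (φ i s').comp (c i) then
                -(A δ i h.choose - δ Real.pi / (2 * Real.pi)) else 0) =
          -(A δ i s - δ Real.pi / (2 * Real.pi)) := by
        intro s
        have h12 : ¬ ∃ s', (φ i s).comp (c i) = φ i s' := by
          rintro ⟨s', hs'⟩
          exact BalQ_ne (hT i) hs'.symm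
        have h13 : ∃ s', (φ i s).comp (c i) = (φ i s').comp (c i) := ⟨s, rfl⟩
        rw [dif_neg h12, dif_pos h13,
          ← BalQ_inj (hT i) (BalQ_c_inj (hCM i) h13.choose_spec)]
      simp only [h9, h11]
      have h14 : ∀ s, (z ⟨i, (τ : ℂ →+* ℂ).comp ((φ i s).comp (c i))⟩ : ℂ) =
          -(z ⟨i, (τ : ℂ →+* ℂ).comp (φ i s)⟩ : ℂ) := by
        intro s
        rw [← RingHom.comp_assoc, hz]
        push_cast
        rfl
      simp only [h14]
      have hm1 : (m i : ℂ) ≠ 0 := Nat.cast_ne_zero.2 (hm0 i)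
      rw [← Finset.sum_add_distrib, Algebra.smul_def, nsmul_eq_mul, ← mul_assoc]
      have h15 : (algebraMap ℚ ℂ (1 / (m i : ℚ))) * (m i : ℂ) = 1 := by
        rw [map_div₀, map_one, map_natCast]
        field_simp
      rw [h15, one_mul]
      refine Finset.sum_congr rfl fun s _ => ?_
      have hpi : (Real.pi : ℂ) ≠ 0 := by exact_mod_cast Real.pi_ne_zero
      field_simp
      ring
    rw [Finset.sum_congr rfl fun i _ => h2 i]
    exact hrel τ δ
  -- the values of `f`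
  have hval : ∀ (σ : L →+* ℂ) (τ : ℂ ≃+* ℂ), (τ : ℂ →+* ℂ).comp σ = t0 →
      f σ = ∑ i, ∑ s, z ⟨i, (τ : ℂ →+* ℂ).comp (φ i s)⟩ := by
    intro σ τ hτ
    rw [hf]
    simp only
    refine Finset.sum_congr rfl fun i _ => ?_
    -- substitution
    have hbij : Function.Bijective (fun t' : L →+* ℂ => (τ : ℂ →+* ℂ).comp t') := by
      constructor
      · intro a b hab'
        ext x
        have := RingHom.congr_fun hab' x
        exact τ.injective this
      · intro b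
        refine ⟨((τ.symm : ℂ ≃+* ℂ) : ℂ →+* ℂ).comp b, ?_⟩
        ext x
        simp
    rw [← hbij.sum_comp (fun t : L →+* ℂ => z ⟨i, t.comp (algebraMap (K i) L)⟩ *
      BalQ_H L (φ i) (σ.comp (g t : L →+* L)))]
    have h4 : ∀ t' : L →+* ℂ, σ.comp (g ((τ : ℂ →+* ℂ).comp t') : L →+* L) = t' := by
      intro t'
      apply hbij.1
      simp only
      rw [← RingHom.comp_assoc, hτ, hg]
    set G : (K i →+* ℂ) → ℚ := fun ρ =>
      z ⟨i, (τ : ℂ →+* ℂ).comp ρ⟩ * (if ∃ s, ρ = φ i s then 1 / 2 else -1 / 2) with hG'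
    have h3 : ∀ t' : L →+* ℂ, z ⟨i, ((τ : ℂ →+* ℂ).comp t').comp (algebraMap (K i) L)⟩ *
        BalQ_H L (φ i) (σ.comp (g ((τ : ℂ →+* ℂ).comp t') : L →+* L)) =
        G (t'.comp (algebraMap (K i) L)) := by
      intro t'
      rw [hG']
      simp only
      rw [h4, RingHom.comp_assoc]
      congr 1
      split_ifs with h4
      · exact BalQ_H_pos h4.choose_spec
      · rcases BalQ_surj (hT i) (t'.comp (algebraMap (K i) L)) with h8 | h8
        · exact absurd h8 h4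
        · exact BalQ_H_neg (hT i) h8.choose_spec
    rw [Finset.sum_congr rfl fun t' _ => h3 t', hm i ℚ G, BalQ_sum (hT i), hG']
    have h9 : ∀ s, (if ∃ s', φ i s = φ i s' then (1 / 2 : ℚ) else -1 / 2) = 1 / 2 := fun s =>
      if_pos ⟨s, rfl⟩
    have h11 : ∀ s, (if ∃ s', (φ i s).comp (c i) = φ i s' then (1 / 2 : ℚ) else -1 / 2) =
        -1 / 2 := by
      intro s
      rw [if_neg]
      rintro ⟨s', hs'⟩
      exact BalQ_ne (hT i) hs'.symm
    have h14 : ∀ s, z ⟨i, (τ : ℂ →+* ℂ).comp ((φ i s).comp (c i))⟩ =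
        - z ⟨i, (τ : ℂ →+* ℂ).comp (φ i s)⟩ := fun s => by
      rw [← RingHom.comp_assoc, hz]
    simp only [h9, h11, h14]
    have hm1 : (m i : ℚ) ≠ 0 := Nat.cast_ne_zero.2 (hm0 i)
    rw [← Finset.sum_add_distrib, nsmul_eq_mul, ← mul_assoc, one_div, inv_mul_cancel₀ hm1,
      one_mul]
    refine Finset.sum_congr rfl fun s _ => ?_
    ring
  have hf0 := mmF hIso L c' Ψ ((1 / b : ℚ) • f) hc' hΨ (fun σ => by
      rw [Pi.smul_apply, Pi.smul_apply, hodd σ, smul_neg]) (fun δ t => by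
      rw [map_smul, hzero, smul_zero]) (fun σ => by
      obtain ⟨τ, hτ⟩ := Pool.Agent.Helper84.exists_aut σ t0
      rw [Pi.smul_apply, hval σ τ hτ]
      rcases hz2 τ with h | h | h
      · left; rw [h, smul_eq_mul]; field_simp
      · right; left; rw [h, smul_zero]
      · right; right; rw [h, smul_eq_mul]; field_simp)
  have h1 := congrFun hf0 t0
  have h2 := hval t0 (RingEquiv.refl ℂ) (by ext x; rfl)
  rw [Pi.smul_apply, h2, Pi.zero_apply, smul_eq_mul] at h1
  have h4 := (mul_eq_zero.mp h1).resolve_left (one_div_ne_zero hb)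
  rw [← h4]
  refine Finset.sum_congr rfl fun i _ => Finset.sum_congr rfl fun s _ => ?_
  congr 2

end Pool.Agent.Helper8.T1
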