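import Pool.Agent.Helper8.T1.Good

/-!
Galois closed relations between the exponents of CM types are balanced, for CM fields which are
abelian, of degree `2 p`, or almost irreducible.
-/

set_option autoImplicit false
set_option linter.unusedSectionVars false

namespace Pool.Agent.Helper8.T1

open GAM Pool.Agent.GPC NumberField Module
open scoped ComplexConjugate

section prelim

lemma sum_sub {ι M : Type*} [Fintype ι] [AddCommMonoid M] (p : ι → Prop) [DecidablePred p]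
    (f : ι → M) (hf : ∀ i, ¬ p i → f i = 0) : ∑ i, f i = ∑ j : {i // p i}, f j := by
  classical
  rw [← Finset.sum_subtype (Finset.univ.filter p) (by simp) f]
  refine (Finset.sum_subset (Finset.subset_univ _) fun i _ hi => hf i fun h => hi ?_).symm
  rw [Finset.mem_filter]
  exact ⟨Finset.mem_univ _, h⟩

lemma exists_int {E : Type*} [Finite E] (w : E → ℚ) :
    ∃ d : ℚ, d ≠ 0 ∧ ∃ z : E → ℤ, ∀ t, (z t : ℚ) = d * w t := by
  obtain ⟨b, hb⟩ := IsLocalization.exist_integer_multiples_of_finite (nonZeroDivisors ℤ) w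
  choose z hz using hb
  refine ⟨((b : ℤ) : ℚ), ?_, z, fun t => ?_⟩
  · exact_mod_cast nonZeroDivisors.ne_zero b.2
  · have h1 := hz t
    rw [Algebra.smul_def] at h1
    exact h1

end prelim

section main

variable {I : Type} [Fintype I] (K : I → Type)
    [∀ i, Field (K i)] [∀ i, NumberField (K i)] (c : ∀ i, K i →+* K i) {S : I → Type}
    [∀ i, Fintype (S i)] [∀ i, DecidableEq (S i)] (φ : ∀ i, S i → K i →+* ℂ)
    (A : Derivation ℚ ℂ ℂ → ∀ i, S i → ℂ)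

/-- the action of the automorphisms of `ℂ` on the embeddings of all fields -/
def aE (τ : ℂ ≃+* ℂ) : (Σ i, (K i →+* ℂ)) ≃ (Σ i, (K i →+* ℂ)) :=
  Equiv.sigmaCongrRight (fun i => aK (K i) τ)

lemma aE_inv (τ : ℂ ≃+* ℂ) : ∃ τ', ∀ t, aE K τ' (aE K τ t) = t := by
  refine ⟨τ⁻¹, ?_⟩
  rintro ⟨i, s⟩
  show (⟨i, aK (K i) τ⁻¹ (aK (K i) τ s)⟩ : Σ i, (K i →+* ℂ)) = ⟨i, s⟩
  rw [← Equiv.Perm.mul_apply, ← map_mul, inv_mul_cancel, map_one]
  rfl

/-- the sum over the CM types, after an automorphism -/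
def ellT (τ : ℂ ≃+* ℂ) (w : (Σ i, (K i →+* ℂ)) → ℚ) : ℚ :=
  ∑ i, ∑ s, w ⟨i, (τ : ℂ →+* ℂ).comp (φ i s)⟩

/-- the space of the relations -/
def RelR : Submodule ℚ ((Σ i, (K i →+* ℂ)) → ℚ) where
  carrier := {z | (∀ i (σ : K i →+* ℂ), z ⟨i, σ.comp (c i)⟩ = -z ⟨i, σ⟩) ∧
    ∀ (τ : ℂ ≃+* ℂ) (δ : Derivation ℚ ℂ ℂ),
      ∑ i, ∑ s, (z ⟨i, (τ : ℂ →+* ℂ).comp (φ i s)⟩ : ℂ) *
        (2 * A δ i s - δ Real.pi / Real.pi) = 0}
  zero_mem' := ⟨fun i σ => by simp, fun τ δ => by simp⟩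
  add_mem' := by
    rintro x y ⟨h1, h2⟩ ⟨h3, h4⟩
    refine ⟨fun i σ => by rw [Pi.add_apply, Pi.add_apply, h1, h3]; ring, fun τ δ => ?_⟩
    simp only [Pi.add_apply, Rat.cast_add, add_mul, Finset.sum_add_distrib]
    rw [h2 τ δ, h4 τ δ, add_zero]
  smul_mem' := by
    rintro q x ⟨h1, h2⟩
    refine ⟨fun i σ => by rw [Pi.smul_apply, Pi.smul_apply, h1, smul_neg], fun τ δ => ?_⟩
    simp only [Pi.smul_apply, smul_eq_mul, Rat.cast_mul, mul_assoc]
    rw [show (∑ i, ∑ s, (q : ℂ) * ((x ⟨i, (τ : ℂ →+* ℂ).comp (φ i s)⟩ : ℂ) *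
        (2 * A δ i s - δ Real.pi / Real.pi))) = (q : ℂ) * ∑ i, ∑ s,
        ((x ⟨i, (τ : ℂ →+* ℂ).comp (φ i s)⟩ : ℂ) * (2 * A δ i s - δ Real.pi / Real.pi)) by
      rw [Finset.mul_sum]
      exact Finset.sum_congr rfl fun i _ => by rw [Finset.mul_sum]]
    rw [h2 τ δ, mul_zero]

lemma RelR_stab : StabS (aE K) (RelR K c φ A) := by
  rintro g z ⟨h1, h2⟩
  exact ⟨fun i σ => h1 i ((g : ℂ →+* ℂ).comp σ), fun τ δ => h2 (g * τ) δ⟩

lemma ellT_add (τ : ℂ ≃+* ℂ) (x y : (Σ i, (K i →+* ℂ)) → ℚ) :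
    ellT K φ τ (x + y) = ellT K φ τ x + ellT K φ τ y := by
  simp only [ellT, Pi.add_apply, Finset.sum_add_distrib]

lemma ellT_smul (τ : ℂ ≃+* ℂ) (q : ℚ) (x : (Σ i, (K i →+* ℂ)) → ℚ) :
    ellT K φ τ (q • x) = q * ellT K φ τ x := by
  simp only [ellT, Pi.smul_apply, smul_eq_mul, Finset.mul_sum]

/-- the space of the balanced relations -/
def RelZ : Submodule ℚ ((Σ i, (K i →+* ℂ)) → ℚ) where
  carrier := {z | z ∈ RelR K c φ A ∧ ∀ τ, ellT K φ τ z = 0}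
  zero_mem' := ⟨Submodule.zero_mem _, fun τ => by simp [ellT]⟩
  add_mem' := by
    rintro x y ⟨h1, h2⟩ ⟨h3, h4⟩
    exact ⟨Submodule.add_mem _ h1 h3, fun τ => by rw [ellT_add, h2, h4, add_zero]⟩
  smul_mem' := by
    rintro q x ⟨h1, h2⟩
    exact ⟨Submodule.smul_mem _ q h1, fun τ => by rw [ellT_smul, h2, mul_zero]⟩

lemma RelZ_stab : StabS (aE K) (RelZ K c φ A) := by
  rintro g z ⟨h1, h2⟩
  exact ⟨RelR_stab K c φ A g z h1, fun τ => h2 (g * τ)⟩

variable {K c φ A}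

/-- relations with few values are balanced -/
lemma relZ_of (hL : St_ExpL) (hP : St_PsiK) (hIso : St_Iso)
    (hCM : ∀ i, CMF (K i) (c i)) (hT : ∀ i, CMT (K i) (c i) (φ i))
    (hE : ∀ δ i, IsExp δ (K i) (φ i) (A δ i)) {w : (Σ i, (K i →+* ℂ)) → ℚ}
    (hw : w ∈ RelR K c φ A) (b : ℚ) (hb : b ≠ 0)
    (h : ∀ τ, ellT K φ τ w = -b ∨ ellT K φ τ w = 0 ∨ ellT K φ τ w = b) :
    w ∈ RelZ K c φ A := by
  refine ⟨hw, fun τ => ?_⟩
  have hw' := RelR_stab K c φ A τ w hw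
  exact balQ hL hP hIso I K c S φ A (fun t => w (aE K τ t)) b hb hCM hT hE hw'.1 hw'.2
    (fun τ' => h (τ * τ'))

/-- minimal stable spaces of relations which are not balanced have dimension at least two -/
lemma not_oneD (hL : St_ExpL) (hP : St_PsiK) (hIso : St_Iso)
    (hCM : ∀ i, CMF (K i) (c i)) (hT : ∀ i, CMT (K i) (c i) (φ i))
    (hE : ∀ δ i, IsExp δ (K i) (φ i) (A δ i)) {W : Submodule ℚ ((Σ i, (K i →+* ℂ)) → ℚ)}
    (hW : StabS (aE K) W) (hWR : W ≤ RelR K c φ A) (hW0 : W ≠ ⊥)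
    (hWZ : W ⊓ RelZ K c φ A = ⊥) : ¬ OneD W := by
  classical
  rintro ⟨w, hw, hall⟩
  have hw0 : w ≠ 0 := by
    rintro rfl
    apply hW0
    rw [eq_bot_iff]
    intro z hz
    obtain ⟨q, hq⟩ := hall z hz
    rw [hq, smul_zero]
    exact Submodule.zero_mem _
  have hpos : ∑ t, w t * w t ≠ 0 := by
    intro h1
    have h2 := (Finset.sum_eq_zero_iff_of_nonneg (fun t _ => mul_self_nonneg _)).mp h1
    exact hw0 (funext fun t => mul_self_eq_zero.mp (h2 t (Finset.mem_univ _)))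
  have hq : ∀ τ, ellT K φ τ w = ellT K φ 1 w ∨ ellT K φ τ w = - ellT K φ 1 w := by
    intro τ
    obtain ⟨q, hq⟩ := hall _ (hW τ w hw)
    have h1 : ∑ t, w (aE K τ t) * w (aE K τ t) = ∑ t, w t * w t :=
      (aE K τ).sum_comp (fun t => w t * w t)
    have h2 : ∀ t, w (aE K τ t) = q * w t := fun t => congrFun hq t
    have h3 : q * q * ∑ t, w t * w t = ∑ t, w t * w t := by
      refine Eq.trans ?_ h1
      rw [Finset.mul_sum]
      refine Finset.sum_congr rfl fun t _ => ?_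
      rw [h2]; ring
    have h4 : q * q = 1 := by
      apply mul_right_cancel₀ hpos
      rw [h3, one_mul]
    have h5 : ellT K φ τ w = q * ellT K φ 1 w := by
      rw [← ellT_smul, ← hq]
      rfl
    rcases mul_self_eq_one_iff.mp h4 with h6 | h6
    · left; rw [h5, h6, one_mul]
    · right; rw [h5, h6, neg_one_mul]
  have hmem : w ∈ RelZ K c φ A := by
    by_cases h0 : ellT K φ 1 w = 0
    · refine ⟨hWR hw, fun τ => ?_⟩
      rcases hq τ with h | h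
      · rw [h, h0]
      · rw [h, h0, neg_zero]
    · refine relZ_of hL hP hIso hCM hT hE (hWR hw) (ellT K φ 1 w) h0 fun τ => ?_
      rcases hq τ with h | h
      · right; right; exact h
      · left; exact h
  have h7 : w ∈ W ⊓ RelZ K c φ A := ⟨hw, hmem⟩
  rw [hWZ] at h7
  exact hw0 h7

/-- relations which are supported on the abelian fields are balanced -/
lemma ab_bal (hBal : St_Bal) (hCM : ∀ i, CMF (K i) (c i)) (hT : ∀ i, CMT (K i) (c i) (φ i))
    (hE : ∀ δ i, IsExp δ (K i) (φ i) (A δ i)) {w : (Σ i, (K i →+* ℂ)) → ℚ}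
    (hw : w ∈ RelR K c φ A) (hab : ∀ i, ¬ IsAbelianGalois ℚ (K i) → ∀ s, w ⟨i, s⟩ = 0) :
    ∑ i, ∑ s, w ⟨i, φ i s⟩ = 0 := by
  classical
  obtain ⟨d, hd, z, hz⟩ := exists_int w
  have h1 : ∑ j : {i // IsAbelianGalois ℚ (K i)}, ∑ s, z ⟨j.1, φ j.1 s⟩ = 0 := by
    refine hBal {i // IsAbelianGalois ℚ (K i)} (fun j => K j.1) (fun j => c j.1)
      (fun j => S j.1) (fun j => φ j.1) (fun δ j => A δ j.1) (fun t => z ⟨t.1.1, t.2⟩)
      (fun j => j.2.toIsGalois) (fun j g g' => j.2.toIsMulCommutative.is_comm.comm g g')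
      (fun j => hCM j.1) (fun j => hT j.1) (fun δ j => hE δ j.1) (fun j σ => ?_)
      (fun τ δ => ?_)
    · have h2 : ((z ⟨j.1, σ.comp (c j.1)⟩ : ℤ) : ℚ) = ((-z ⟨j.1, σ⟩ : ℤ) : ℚ) := by
        push_cast
        rw [hz, hz, hw.1]
        ring
      exact_mod_cast h2
    · have h2 := hw.2 τ δ
      rw [sum_sub (fun i => IsAbelianGalois ℚ (K i)) _ (fun i hi => by
        refine Finset.sum_eq_zero fun s _ => ?_
        rw [hab i hi]; simp)] at h2
      have h3 : ∀ t, ((z t : ℤ) : ℂ) = (d : ℂ) * (w t : ℂ) := by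
        intro t
        have := congrArg (fun x : ℚ => (x : ℂ)) (hz t)
        push_cast at this
        exact this
      have h4 : ∑ j : {i // IsAbelianGalois ℚ (K i)}, ∑ s,
          ((z ⟨j.1, (τ : ℂ →+* ℂ).comp (φ j.1 s)⟩ : ℤ) : ℂ) *
            (2 * A δ j.1 s - δ Real.pi / Real.pi) = (d : ℂ) *
          ∑ j : {i // IsAbelianGalois ℚ (K i)}, ∑ s,
          (w ⟨j.1, (τ : ℂ →+* ℂ).comp (φ j.1 s)⟩ : ℂ) *
            (2 * A δ j.1 s - δ Real.pi / Real.pi) := by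
        rw [Finset.mul_sum]
        refine Finset.sum_congr rfl fun j _ => ?_
        rw [Finset.mul_sum]
        refine Finset.sum_congr rfl fun s _ => ?_
        rw [h3]; ring
      rw [h2, mul_zero] at h4
      exact h4
  rw [sum_sub (fun i => IsAbelianGalois ℚ (K i)) _ (fun i hi =>
    Finset.sum_eq_zero fun s _ => hab i hi _)]
  have h2 : ((∑ j : {i // IsAbelianGalois ℚ (K i)}, ∑ s, z ⟨j.1, φ j.1 s⟩ : ℤ) : ℚ) =
      d * ∑ j : {i // IsAbelianGalois ℚ (K i)}, ∑ s, w ⟨j.1, φ j.1 s⟩ := by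
    push_cast
    rw [Finset.mul_sum]
    refine Finset.sum_congr rfl fun j _ => ?_
    rw [Finset.mul_sum]
    exact Finset.sum_congr rfl fun s _ => hz _
  rw [h1, Int.cast_zero] at h2
  exact (mul_eq_zero.mp h2.symm).resolve_left hd

end main

end Pool.Agent.Helper8.T1
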