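import Pool.Agent.GAM.StC

/-!
Finitely many CM fields are contained in one CM field which is a Galois extension of `ℚ`.
-/

set_option autoImplicit false

namespace Pool.Agent.Helper8.T1

open GAM
open scoped ComplexConjugate

/-- the compositum of the normal closures of finitely many finite extensions in a normal
extension `Ω` -/
theorem compF_gen (k Ω : Type) [Field k] [Field Ω] [Algebra k Ω] [Normal k Ω] (I : Type)
    [Finite I] (K : I → Type) [∀ i, Field (K i)] [∀ i, Algebra k (K i)]
    [∀ i, FiniteDimensional k (K i)] :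
    ∃ L : IntermediateField k Ω, FiniteDimensional k L ∧ Normal k L ∧
      (∀ i, Nonempty (K i →ₐ[k] Ω) → Nonempty (K i →ₐ[k] L)) ∧
      ∀ σ τ : L →+* L, (∀ a : k, σ (algebraMap k L a) = τ (algebraMap k L a)) →
        (∀ i (f : K i →ₐ[k] L) x, σ (f x) = τ (f x)) → σ = τ := by
  classical
  set F : I → IntermediateField k Ω := fun i => IntermediateField.normalClosure k (K i) Ω with hF
  have hfd : ∀ i, FiniteDimensional k (F i) := fun i => inferInstance
  have hno : ∀ i, Normal k (F i) := fun i => inferInstance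
  have hle : ∀ i, F i ≤ ⨆ i, F i := fun i => le_iSup F i
  have hmem : ∀ i (f : K i →ₐ[k] Ω) (x : K i), f x ∈ ⨆ i, F i := fun i f x =>
    hle i (f.fieldRange_le_normalClosure ⟨x, rfl⟩)
  have hlift : ∀ i (f : K i →ₐ[k] Ω), ∃ g : K i →ₐ[k] (⨆ i, F i : IntermediateField k Ω),
      ∀ x, ((g x : (⨆ i, F i : IntermediateField k Ω)) : Ω) = f x := fun i f =>
    ⟨f.codRestrict (⨆ i, F i).toSubalgebra (hmem i f), fun x => rfl⟩
  refine ⟨⨆ i, F i, IntermediateField.finiteDimensional_iSup_of_finite,
    IntermediateField.normal_iSup k Ω F, ?_, ?_⟩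
  · rintro i ⟨f⟩
    obtain ⟨g, -⟩ := hlift i f
    exact ⟨g⟩
  intro σ τ h0 h
  -- the equalizer
  let E' : IntermediateField k (⨆ i, F i : IntermediateField k Ω) :=
    { carrier := {x | σ x = τ x}
      mul_mem' := fun {a b} ha hb => by
        change σ a = τ a at ha
        change σ b = τ b at hb
        change σ (a * b) = τ (a * b)
        rw [map_mul, map_mul, ha, hb]
      add_mem' := fun {a b} ha hb => by
        change σ a = τ a at ha
        change σ b = τ b at hb
        change σ (a + b) = τ (a + b)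
        rw [map_add, map_add, ha, hb]
      algebraMap_mem' := fun q => h0 q
      inv_mem' := fun x hx => by
        change σ x = τ x at hx
        change σ x⁻¹ = τ x⁻¹
        rw [map_inv₀, map_inv₀, hx] }
  have h1 : (⨆ i, F i) ≤ IntermediateField.lift E' := by
    refine iSup_le fun i => ?_
    have hFi : F i = ⨆ f : K i →ₐ[k] Ω, f.fieldRange := rfl
    refine hFi.le.trans (iSup_le fun f z hz => ?_)
    obtain ⟨x, hx⟩ := hz
    obtain ⟨g, hg⟩ := hlift i f
    have h2 : g x ∈ E' := h i g x
    have h3 : ((g x : (⨆ i, F i : IntermediateField k Ω)) : Ω) = z := by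
      rw [hg]
      exact hx
    rw [← h3]
    exact (IntermediateField.mem_lift _).2 h2
  ext x
  have h4 := h1 x.2
  have h5 : x ∈ E' := (IntermediateField.mem_lift x).1 h4
  have h6 : σ x = τ x := h5
  rw [h6]

/-- the compositum of the normal closures of finitely many finite extensions -/
theorem compF_alg (k : Type) [Field k] (I : Type) [Finite I] (K : I → Type) [∀ i, Field (K i)]
    [∀ i, Algebra k (K i)] [∀ i, FiniteDimensional k (K i)] :
    ∃ (L : Type) (_ : Field L) (_ : Algebra k L), FiniteDimensional k L ∧ Normal k L ∧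
      (∀ i, Nonempty (K i →ₐ[k] L)) ∧
      ∀ σ τ : L →+* L, (∀ a : k, σ (algebraMap k L a) = τ (algebraMap k L a)) →
        (∀ i (f : K i →ₐ[k] L) x, σ (f x) = τ (f x)) → σ = τ := by
  have hN : Normal k (AlgebraicClosure k) := IsAlgClosure.normal k (AlgebraicClosure k)
  obtain ⟨L, hfd, hno, hne, hf⟩ := compF_gen k (AlgebraicClosure k) I K
  exact ⟨L, inferInstance, inferInstance, hfd, hno, fun i => hne i ⟨IsAlgClosed.lift⟩, hf⟩

/-- the compositum of the Galois closures of finitely many number fields -/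
theorem compF_exists (I : Type) [Fintype I] (K : I → Type) [∀ i, Field (K i)]
    [∀ i, NumberField (K i)] :
    ∃ (L : Type) (_ : Field L) (_ : NumberField L) (_ : ∀ i, K i →+* L),
      Normal ℚ L ∧ ∀ σ τ : L →+* L, (∀ i (f : K i →+* L) x, σ (f x) = τ (f x)) → σ = τ := by
  classical
  obtain ⟨L, fL, aL, hfd, hno, hne, hf⟩ := compF_alg ℚ I K
  have hch : CharZero L := charZero_of_injective_algebraMap (algebraMap ℚ L).injective
  have e : aL = DivisionRing.toRatAlgebra := Subsingleton.elim _ _
  subst e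
  have hNF : NumberField L := @NumberField.mk L _ hch hfd
  refine ⟨L, fL, hNF, fun i => ((hne i).some : K i →+* L), hno, ?_⟩
  intro σ τ h
  refine hf σ τ (fun q => ?_) (fun i f x => h i (f : K i →+* L) x)
  rw [eq_ratCast, map_ratCast, map_ratCast]

/-- finitely many CM fields are contained in a CM field which is Galois over `ℚ` -/
theorem compF (I : Type) [Fintype I] [Nonempty I] (K : I → Type) [∀ i, Field (K i)]
    [∀ i, NumberField (K i)] (hcm : ∀ i, ∃ c, CMF (K i) c) :
    ∃ (L : Type) (_ : Field L) (_ : NumberField L) (_ : ∀ i, Algebra (K i) L) (c : L →+* L),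
      CMF L c ∧ IsGalois ℚ L := by
  classical
  obtain ⟨L, fL, nL, f, hn, hext⟩ := compF_exists I K
  let alg : ∀ i, Algebra (K i) L := fun i => (f i).toAlgebra
  have hGal : IsGalois ℚ L := ⟨⟩
  obtain ⟨j⟩ : Nonempty (L →+* ℂ) := inferInstance
  -- complex conjugation
  let aL : Algebra L ℂ := j.toAlgebra
  have hj : ∀ x : L, algebraMap L ℂ x = j x := fun x => rfl
  set cj : ℂ ≃ₐ[ℚ] ℂ := Complex.conjAe.restrictScalars ℚ with hcj
  set c0 : L ≃ₐ[ℚ] L := cj.restrictNormal L with hc0
  have hc : ∀ x : L, j (c0 x) = conj (j x) := fun x =>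
    AlgEquiv.restrictNormal_commutes cj L x
  choose c hcc using hcm
  have hcK : ∀ i (g : K i →+* L) (x : K i), c0 (g x) = g (c i x) := by
    intro i g x
    apply j.injective
    rw [hc]
    exact (hcc i).cc (j.comp g) x
  have hcomm : ∀ g : L ≃ₐ[ℚ] L, ∀ x, c0 (g x) = g (c0 x) := by
    intro g
    have h1 : ((c0 : L →+* L).comp (g : L →+* L)) = (g : L →+* L).comp (c0 : L →+* L) := by
      apply hext
      intro i h x
      show c0 (g (h x)) = g (c0 (h x))
      rw [hcK i h x]
      exact hcK i ((g : L →+* L).comp h) x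
    exact fun x => congrArg (fun k : L →+* L => k x) h1
  refine ⟨L, fL, nL, alg, (c0 : L →+* L), ⟨?_, ?_⟩, hGal⟩
  · intro σ x
    set σ' : L →ₐ[ℚ] ℂ := σ.toRatAlgHom with hσ'
    set g : L ≃ₐ[ℚ] L := σ'.restrictNormal' L with hg
    have hgx : ∀ x : L, j (g x) = σ x := fun x =>
      AlgHom.restrictNormal_commutes σ' L x
    have h2 := congrArg j (hcomm g x)
    rw [hc, hgx, hgx] at h2
    exact h2
  · intro hid
    obtain ⟨i⟩ := ‹Nonempty I›
    apply (hcc i).ne
    ext x
    have h1 : ∀ y : L, c0 y = y := fun y => congrArg (fun k : L →+* L => k y) hid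
    have h2 := hcK i (f i) x
    rw [h1] at h2
    exact ((f i).injective h2).symm

end Pool.Agent.Helper8.T1
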