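import Pool.Agent.Helper8.T1.TriP

/-!
Faithfulness of the stable subspaces of dimension at least two of the space of odd functions.
-/

set_option autoImplicit false
set_option linter.unusedSectionVars false

namespace Pool.Agent.Helper8.T1

section gen

variable {E : Type} [Fintype E] [DecidableEq E] {c : E → E}
  (hcc : ∀ s, c (c s) = s) (hne : ∀ s, c s ≠ s) {Γ : Type*} (a : Γ → Equiv.Perm E)
  (hac : ∀ g s, a g (c s) = c (a g s))

/-- a relation between two values spreads to a relation between all values -/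
def Spread (c : E → E) {Γ : Type*} (a : Γ → Equiv.Perm E) : Prop :=
  ∀ N : Submodule ℚ (E → ℚ), StabS a N → (∀ z ∈ N, ∀ s, z (c s) = - z s) → ∀ s t, DP c s t →
    (∀ z ∈ N, z t = z s) → OneD N

include hcc in
lemma faith_gen (htr : ∀ s t, ∃ g, a g s = t) (hsp : Spread c a) (N : Submodule ℚ (E → ℚ))
    (hN : StabS a N) (hodd : ∀ z ∈ N, ∀ s, z (c s) = - z s) (h1 : ¬ OneD N) (g : Γ)
    (hg : ∀ z ∈ N, ∀ t, z (a g t) = z t) (s : E) : a g s = s := by
  rcases dp_cases c hcc s (a g s) with h | h | h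
  · exact h
  · exfalso
    apply h1
    refine ⟨0, N.zero_mem, fun z hz => ⟨0, ?_⟩⟩
    rw [smul_zero]
    funext t
    obtain ⟨x, hx⟩ := htr s t
    have h2 := hg _ (hN x z hz) s
    rw [h] at h2
    have h3 := hodd _ (hN x z hz) s
    rw [h2] at h3
    rw [hx] at h3
    have h4 : z t = 0 := by linarith
    exact h4
  · exact absurd (hsp N hN hodd s (a g s) h fun z hz => hg z hz s) h1

include hcc hac in
lemma spread3 (h3 : ∀ s1 s2 s3 t1 t2 t3 : E, DP c s1 s2 → DP c s1 s3 → DP c s2 s3 →
      DP c t1 t2 → DP c t1 t3 → DP c t2 t3 → ∃ g, (a g s1 = t1 ∨ a g s1 = c t1) ∧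
        (a g s2 = t2 ∨ a g s2 = c t2) ∧ (a g s3 = t3 ∨ a g s3 = c t3))
    (hthree : ∀ s t : E, DP c s t → ∃ u, DP c s u ∧ DP c t u) : Spread c a := by
  intro N hN hodd s t hst hrel
  refine oneD_of N s fun u => ?_
  rcases dp_cases c hcc s u with h | h | h
  · exact ⟨1, fun z hz => by rw [h, one_mul]⟩
  · exact ⟨-1, fun z hz => by rw [h, hodd z hz, neg_one_mul]⟩
  · obtain ⟨v, hsv, htv⟩ := hthree s t hst
    obtain ⟨v', hsv', huv'⟩ := hthree s u h
    obtain ⟨g, hg1, hg2, -⟩ := h3 s t v s u v' hst hsv htv h hsv' huv'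
    have h4 : ∀ z ∈ N, z (a g t) = z (a g s) := fun z hz => hrel _ (hN g z hz)
    rcases hg1 with h1 | h1 <;> rcases hg2 with h2 | h2 <;> rw [h1, h2] at h4
    · exact ⟨1, fun z hz => by rw [h4 z hz, one_mul]⟩
    · refine ⟨-1, fun z hz => ?_⟩
      have := h4 z hz
      rw [hodd z hz] at this
      linarith
    · refine ⟨-1, fun z hz => ?_⟩
      have := h4 z hz
      rw [hodd z hz] at this
      linarith
    · refine ⟨1, fun z hz => ?_⟩
      have := h4 z hz
      rw [hodd z hz, hodd z hz] at this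
      linarith

include hcc hne in
lemma cover4 (hcard : Fintype.card E = 4) {s t : E} (h : DP c s t) (u : E) :
    u = s ∨ u = c s ∨ u = t ∨ u = c t := by
  classical
  have h1 : ({s, c s, t, c t} : Finset E) = Finset.univ := by
    rw [← Finset.card_eq_iff_eq_univ, hcard]
    have e1 : s ≠ c s := fun h' => hne s h'.symm
    have e2 : s ≠ t := h.1
    have e3 : s ≠ c t := h.2
    have e4 : c s ≠ t := fun h' => h.2 (by rw [← h', hcc])
    have e5 : c s ≠ c t := fun h' => h.1 (by rw [← hcc s, h', hcc])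
    have e6 : t ≠ c t := fun h' => hne t h'.symm
    rw [Finset.card_insert_of_notMem (by simp [e1, e2, e3]),
      Finset.card_insert_of_notMem (by simp [e4, e5]),
      Finset.card_insert_of_notMem (by simp [e6]), Finset.card_singleton]
  have h2 : u ∈ ({s, c s, t, c t} : Finset E) := by rw [h1]; exact Finset.mem_univ _
  simpa using h2

include hcc hne in
lemma spread2 (hcard : Fintype.card E = 4) : Spread c a := by
  intro N hN hodd s t hst hrel
  refine oneD_of N s fun u => ?_
  rcases cover4 hcc hne hcard hst u with h | h | h | h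
  · exact ⟨1, fun z hz => by rw [h, one_mul]⟩
  · exact ⟨-1, fun z hz => by rw [h, hodd z hz, neg_one_mul]⟩
  · exact ⟨1, fun z hz => by rw [h, hrel z hz, one_mul]⟩
  · exact ⟨-1, fun z hz => by rw [h, hodd z hz, hrel z hz, neg_one_mul]⟩

include hcc hne hac in
/-- four places -/
theorem tri2 (hcard : Fintype.card E = 4) (htr : ∀ s t, ∃ g, a g s = t) (s : E)
    (N : Submodule ℚ (E → ℚ)) (hN : StabS a N) (hodd : ∀ z ∈ N, ∀ s, z (c s) = - z s) :
    SmallOr c N := by
  classical
  obtain ⟨t, hst⟩ : ∃ t, DP c s t := by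
    by_contra hcon
    push Not at hcon
    have h1 : (Finset.univ : Finset E) ⊆ {s, c s} := by
      intro t _
      rcases dp_cases c hcc s t with h | h | h
      · simp [h]
      · simp [h]
      · exact absurd h (hcon t)
    have h2 := Finset.card_le_card h1
    have h3 := Finset.card_le_two (a := s) (b := c s)
    rw [Finset.card_univ, hcard] at h2
    omega
  have hz : ∀ z ∈ N, z = z s • eV c s + z t • eV c t := by
    intro z hz
    funext u
    rw [Pi.add_apply, Pi.smul_apply, Pi.smul_apply, smul_eq_mul, smul_eq_mul]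
    have hts := hst.symm' c hcc
    have hsct : DP c s (c t) := ⟨hst.2, by rw [hcc]; exact hst.1⟩
    have htcs : DP c t (c s) := ⟨hts.2, by rw [hcc]; exact hts.1⟩
    rcases cover4 hcc hne hcard hst u with h | h | h | h <;> rw [h]
    · rw [eV_self c hne, eV_dp c hcc hts]; ring
    · rw [eV_c c hne, eV_dp c hcc htcs, hodd z hz]; ring
    · rw [eV_self c hne, eV_dp c hcc hst]; ring
    · rw [eV_c c hne, eV_dp c hcc hsct, hodd z hz]; ring
  by_cases hall : ∀ z ∈ N, z t ^ 2 = z s ^ 2
  · by_cases h0 : ∀ z ∈ N, z s = 0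
    · left
      refine ⟨0, N.zero_mem, fun z hz' => ⟨0, ?_⟩⟩
      rw [smul_zero, hz z hz', h0 z hz']
      have h1 := hall z hz'
      rw [h0 z hz'] at h1
      have h2 : z t = 0 := by
        have : z t ^ 2 = 0 := by rw [h1]; ring
        exact pow_eq_zero_iff two_ne_zero |>.mp this
      rw [h2, zero_smul, zero_smul, add_zero]
    · push Not at h0
      obtain ⟨z, hz1, hz2⟩ := h0
      right
      have h1 : z t = z s ∨ z t = - z s := sq_eq_sq_iff_eq_or_eq_neg.mp (hall z hz1)
      have key : ∀ ε : ℚ, z t = ε * z s → eV c s + ε • eV c t ∈ N := by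
        intro ε hε
        have h2 : eV c s + ε • eV c t = (z s)⁻¹ • z := by
          rw [hz z hz1, hε, mul_comm, mul_smul, ← smul_add, smul_smul]
          have h3 : (z s • (eV c s + ε • eV c t)) s = z s := by
            rw [Pi.smul_apply, Pi.add_apply, Pi.smul_apply, eV_self c hne,
              eV_dp c hcc (hst.symm' c hcc)]
            simp
          rw [h3, inv_mul_cancel₀ hz2, one_smul]
        rw [h2]
        exact N.smul_mem _ hz1
      have hne0 : ∀ ε : ℚ, eV c s + ε • eV c t ≠ 0 := by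
        intro ε h2
        have h3 := congrFun h2 s
        rw [Pi.add_apply, Pi.smul_apply, eV_self c hne, eV_dp c hcc (hst.symm' c hcc)] at h3
        simp at h3
      rcases h1 with h1 | h1
      · exact ⟨s, t, 1, Or.inl rfl, key 1 (by rw [h1, one_mul]), hne0 1⟩
      · exact ⟨s, t, -1, Or.inr rfl, key (-1) (by rw [h1, neg_one_mul]), hne0 (-1)⟩
  · push Not at hall
    obtain ⟨z, hz1, hz2⟩ := hall
    right
    obtain ⟨g, hg⟩ := htr s t
    have hgt : a g t = s ∨ a g t = c s := by
      rcases cover4 hcc hne hcard hst (a g t) with h | h | h | h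
      · exact Or.inl h
      · exact Or.inr h
      · exact absurd ((a g).injective (hg.trans h.symm)) hst.1
      · refine absurd ((a g).injective (?_ : a g s = a g (c t))) hst.2
        rw [hac, h, hcc, hg]
    have h1 := hz _ (hN g z hz1)
    beta_reduce at h1
    rw [hg] at h1
    have hmem := hN g z hz1
    have key : ∀ δ : ℚ, (δ = 1 ∨ δ = -1) → z (a g t) = δ * z s → eV c s ∈ N := by
      intro δ hδ hgδ
      rw [hgδ] at h1
      have h2 : δ * z s ^ 2 - z t ^ 2 ≠ 0 := by
        rcases hδ with h | h <;> rw [h]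
        · intro h3
          apply hz2
          linarith
        · intro h3
          apply hz2
          have h4 : z s ^ 2 = 0 := by nlinarith [sq_nonneg (z s), sq_nonneg (z t)]
          have h5 : z t ^ 2 = 0 := by nlinarith [sq_nonneg (z s), sq_nonneg (z t)]
          rw [h4, h5]
      have h3 : eV c s = (δ * z s ^ 2 - z t ^ 2)⁻¹ • ((δ * z s) • z - z t • fun u => z (a g u)) := by
        rw [h1]
        conv_rhs => rw [hz z hz1]
        have e1 : (z s • eV c s + z t • eV c t) s = z s := by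
          rw [Pi.add_apply, Pi.smul_apply, Pi.smul_apply, eV_self c hne,
            eV_dp c hcc (hst.symm' c hcc)]
          simp
        have e2 : (z s • eV c s + z t • eV c t) t = z t := by
          rw [Pi.add_apply, Pi.smul_apply, Pi.smul_apply, eV_self c hne, eV_dp c hcc hst]
          simp
        rw [e1, e2]
        funext u
        simp only [Pi.smul_apply, Pi.sub_apply, Pi.add_apply, smul_eq_mul]
        field_simp
        ring
      rw [h3]
      exact N.smul_mem _ (N.sub_mem (N.smul_mem _ hz1) (N.smul_mem _ hmem))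
    have hs : eV c s ∈ N := by
      rcases hgt with h | h
      · exact key 1 (Or.inl rfl) (by rw [h, one_mul])
      · exact key (-1) (Or.inr rfl) (by rw [h, hodd z hz1, neg_one_mul])
    refine ⟨s, s, 1, Or.inl rfl, N.add_mem hs (N.smul_mem _ hs), fun h => ?_⟩
    have h3 := congrFun h s
    rw [Pi.add_apply, Pi.smul_apply, eV_self c hne] at h3
    norm_num at h3

end gen

section prime

variable {E : Type} [Fintype E] [DecidableEq E] {c : E → E}
  (hcc : ∀ s, c (c s) = s) (hne : ∀ s, c s ≠ s) {Γ : Type*} [Group Γ] (a : Γ →* Equiv.Perm E)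
  (hac : ∀ g s, a g (c s) = c (a g s)) (htr : ∀ s t, ∃ g, a g s = t)
  {p : ℕ} (hp : p.Prime) (hp2 : p ≠ 2)

include hcc hne hac htr hp hp2 in
lemma spreadP (hcard : Fintype.card E = 2 * p) : Spread c a := by
  intro N hN hodd s t hst hrel
  obtain ⟨g, hσ⟩ := exists_order a htr p hp hcard s
  obtain ⟨σ, hσg⟩ : ∃ σ, σ = a g := ⟨_, rfl⟩
  rw [← hσg] at hσ
  have hσc : ∀ s, σ (c s) = c (σ s) := fun s => by rw [hσg]; exact hac g s
  have hpow : ∀ k : ℕ, ∀ z ∈ N, (fun u => z ((σ ^ k) u)) ∈ N := by
    intro k z hz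
    rw [hσg, ← map_pow]
    exact hN (g ^ k) z hz
  have hσ1 : σ ≠ 1 := by
    intro h
    rw [h, orderOf_one] at hσ
    exact hp.one_lt.ne hσ
  obtain ⟨s0, hs0⟩ : ∃ s, σ s ≠ s := by
    by_contra hcon
    push Not at hcon
    exact hσ1 (Equiv.ext hcon)
  have hs : σ s ≠ s := by
    have hcinj : Function.Injective c := fun x y h => by rw [← hcc x, h, hcc]
    obtain ⟨k, -, hk | hk⟩ := orbit_cover hcc hne hp hp2 hσ hσc hcard s0 hs0 s
    · rw [hk]
      intro h
      apply hs0
      apply (σ ^ k).injective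
      rw [← Equiv.Perm.mul_apply, ← pow_succ, pow_succ', Equiv.Perm.mul_apply, h]
    · rw [hk, hσc]
      intro h
      apply hs0
      apply (σ ^ k).injective
      rw [← Equiv.Perm.mul_apply, ← pow_succ, pow_succ', Equiv.Perm.mul_apply, hcinj h]
  obtain ⟨j, hj, hjt⟩ := orbit_cover hcc hne hp hp2 hσ hσc hcard s hs t
  have hj0 : j ≠ 0 := by
    rintro rfl
    rcases hjt with h | h
    · exact hst.1 (by rw [h]; rfl)
    · exact hst.2 (by rw [h, hcc]; rfl)
  obtain ⟨η, hη⟩ : ∃ η : ℚ, ∀ z ∈ N, z ((σ ^ j) s) = η * z s := by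
    rcases hjt with h | h
    · exact ⟨1, fun z hz => by rw [← h, hrel z hz, one_mul]⟩
    · refine ⟨-1, fun z hz => ?_⟩
      have h1 := hrel z hz
      rw [h, hodd z hz] at h1
      rw [← h1]
      ring
  have hm : ∀ m : ℕ, ∀ z ∈ N, z ((σ ^ (m * j)) s) = η ^ m * z s := by
    intro m
    induction m with
    | zero => intro z hz; simp
    | succ m ih =>
      intro z hz
      have h1 := hη _ (hpow (m * j) z hz)
      beta_reduce at h1
      rw [← Equiv.Perm.mul_apply, ← pow_add, ih z hz] at h1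
      rw [Nat.succ_mul, h1, pow_succ]
      ring
  have : Fact p.Prime := ⟨hp⟩
  have hmod : ∀ k < p, ∃ m : ℕ, (σ ^ (m * j)) s = (σ ^ k) s := by
    intro k hk
    have hj1 : (j : ZMod p) ≠ 0 := by
      intro h0
      rw [ZMod.natCast_eq_zero_iff] at h0
      exact hj0 (Nat.eq_zero_of_dvd_of_lt h0 hj)
    refine ⟨((k : ZMod p) * (j : ZMod p)⁻¹).val, ?_⟩
    have h1 : (((((k : ZMod p) * (j : ZMod p)⁻¹).val * j : ℕ)) : ZMod p) = ((k : ℕ) : ZMod p) := by
      rw [Nat.cast_mul, ZMod.natCast_val, ZMod.cast_id, mul_assoc, inv_mul_cancel₀ hj1, mul_one]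
    rw [ZMod.natCast_eq_natCast_iff] at h1
    have h2 : ∀ k : ℕ, (σ ^ (k % p)) s = (σ ^ k) s := by
      intro k
      rw [← hσ, pow_mod_orderOf]
    rw [← h2, ← h2 k, h1]
  refine oneD_of N s fun u => ?_
  obtain ⟨k, hk, hku⟩ := orbit_cover hcc hne hp hp2 hσ hσc hcard s hs u
  obtain ⟨m, hmk⟩ := hmod k hk
  rcases hku with h | h
  · exact ⟨η ^ m, fun z hz => by rw [h, ← hmk, hm m z hz]⟩
  · exact ⟨-η ^ m, fun z hz => by rw [h, hodd z hz, ← hmk, hm m z hz]; ring⟩

include hcc hne hac htr hp in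
/-- prime degree: the two properties -/
theorem triP (hcard : Fintype.card E = 2 * p) (s : E) : Spread c a ∧
    ∀ N : Submodule ℚ (E → ℚ), StabS a N → (∀ z ∈ N, ∀ s, z (c s) = - z s) → SmallOr c N := by
  by_cases hp2 : p = 2
  · rw [hp2] at hcard
    exact ⟨spread2 hcc hne a hcard, fun N hN hodd => tri2 hcc hne a hac hcard htr s N hN hodd⟩
  · refine ⟨spreadP hcc hne a hac htr hp hp2 hcard, fun N hN hodd => ?_⟩
    obtain ⟨g, hσ⟩ := exists_order a htr p hp hcard s
    have hst : ∀ z ∈ N, opS (a g) z ∈ N := by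
      intro z hz
      have h1 := hN g⁻¹ z hz
      rw [map_inv] at h1
      exact h1
    rcases triP_odd hcc hne hp hp2 hσ (fun s => hac g s) hcard N hst hodd with h | ⟨s, t, h1, h2⟩
    · exact Or.inl h
    · right
      refine ⟨t, s, -1, Or.inr rfl, ?_, fun h => ?_⟩
      · rw [neg_one_smul, ← sub_eq_add_neg]
        exact h2
      · have h3 := congrFun h s
        rw [Pi.add_apply, Pi.smul_apply, eV_self c hne, eV_dp c hcc (h1.symm' c hcc)] at h3
        norm_num at h3

end prime

end Pool.Agent.Helper8.T1
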