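import Pool.Agent.Helper8.T1.Glue

/-!
Grothendieck classes are Hodge classes, for products of factors of `GL_2`-type, of real type of
relative dimension two, and of CM type: if all CM fields are abelian, or if the class is in the
step of the Hodge filtration before the middle.
-/

open scoped ComplexConjugate

set_option linter.unusedSectionVars false

namespace Pool.Agent.Helper8.T1

open Module NumberField LieAlgebra Pool.Agent.Helper7 Pool.Agent.Helper7.HU Pool.Agent.Helper24
open Pool.Agent.GPC Matrix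
open Pool.Agent.Helper8.E Pool.Agent.Helper8.E.CP
open Pool.Agent.Helper8.D (hG hG_sym hG_idem)

attribute [local instance 100] LieRing.ofAssociativeRing

section fam

variable {I : Type} [Fintype I] [DecidableEq I] (A : I → AbVar) (n : I → ℕ) (K : I → Type)
  [∀ i, Field (K i)] [∀ i, NumberField (K i)]
  (S U T : Finset I)
  (hST : ∀ i, i ∈ S ∨ i ∈ U ∨ i ∈ T) (hS : ∀ i ∈ S, IsRMType (A i) (K i))
  (hU : ∀ i ∈ U, IsRelTwoType (A i) (K i)) (hC : ∀ i ∈ T, IsCMType (A i) (K i))
  (hc : U = ∅ ∨ RelTwoCond A n K S U)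
  (k : ℕ) (α : Form A n (2 * k)) (hα : IsGrothendieck A n k α)

include hST hS hU hC hc hα in
/-- the case of abelian CM fields -/
theorem hodge_abelian (hBal : GAM.St_Bal) (hExp : GAM.St_ExpAV)
    (hgal : ∀ i ∈ T, IsGalois ℚ (K i))
    (hab : ∀ i ∈ T, ∀ g g' : K i ≃ₐ[ℚ] K i, g * g' = g' * g) : IsHodge A n k α := by
  classical
  obtain ⟨F, hF⟩ := exists_sys A K S U T hST hS hU hC
  obtain ⟨N, hNT, ⟨C⟩⟩ := exists_CMSys A K F S U T hST hS hU hC hF
  have hper := fun i : {i // i ∈ N} => exists_per (C.G i)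
  choose p ε hp using hper
  let fi : ∀ i : {i // i ∈ N}, Fintype (CType (C.G i)) := fun i => Fintype.ofFinite _
  refine hodge_of_rel A n K S U T hST hS hU hC hc F hF k α hα fun z hz1 hz2 hzX => ?_
  have hz : OddV N z := ⟨hz1, fun t ht => hz2 t (by
    by_contra h
    exact ht ((C.nl t.1).mpr h))⟩
  rw [C.sum_hod hz]
  have hbal := hBal {i // i ∈ N} (fun i => K i.1) (fun i => ccH (C.G i)) (fun i => CType (C.G i))
    (fun i s => s.1) (fun δ i s => δ (p i s.1) / p i s.1) (fun t => z ⟨t.1.1, t.2⟩)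
    (fun i => hgal i.1 (hNT i.2)) (fun i => hab i.1 (hNT i.2))
    (fun i => cmf_ccH (C.G i) (C.cx i.1 i.2))
    (fun i => cmt (C.G i)) (fun δ i => isExp_per (C.G i) (hp i) hExp δ)
    (fun i σ => by
      show z ⟨i.1, σ.comp (ccH (C.G i))⟩ = - z ⟨i.1, σ⟩
      rw [comp_ccH]
      exact hz.odd ⟨i.1, σ⟩)
    (fun τ δ => C.sum_exp n k α hα p ε hp hz hzX τ δ)
  exact_mod_cast hbal

/-- the total weight of the Hodge element at a label -/
noncomputable def nu (F : ∀ i, FS (pData (A i)) (K i)) (b : Fin (2 * k) → At n K) : ℂ :=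
  ∑ r, chiC (fun i => pData (A i)) F (pl n (b r)) (hG A)

include hS hU hc hα in
/-- the total weight of the Hodge element for a class in a step of the Hodge filtration -/
lemma nu_ge (F : ∀ i, FS (pData (A i)) (K i)) (hF : IsSys A K S U F) {j : ℕ}
    (hfil : ∀ v : Fin (2 * k) → HW (fun i => Fin (A i).g ⊕ Fin (A i).g) n,
      (∃ s : Finset (Fin (2 * k)), j < s.card ∧ ∀ r ∈ s, ∀ i m, (A i).IsFil (v r i m)) → α v = 0)
    (b : Fin (2 * k) → At n K)
    (hb : ∃ v : Fin (2 * k) → HW (fun i => Fin (A i).g ⊕ Fin (A i).g) n,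
      (toM' n α) (fun r => EE n (fun i => pData (A i)) F (b r) (v r)) ≠ 0) :
    ∃ m : ℕ, nu A n K k F b = m ∧ 2 * k ≤ m + j := by
  classical
  obtain ⟨R, w, h1, h2, -, h4⟩ := count_of_weight
    ((toM' n α).compLinearMap (fun r => EE n (fun i => pData (A i)) F (b r)))
    (lift n (hG A).1) (fun w => by
      funext i m
      rw [lift_apply, lift_apply]
      exact hG_idem A i _) (nu A n K k F b) (fun v => by
      have h5 := act_label A n K S U hS hU hc F hF k α hα (isMT_hG A) b v _ rfl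
      refine Eq.trans ?_ h5
      refine Finset.sum_congr rfl fun r _ => ?_
      rw [MultilinearMap.compLinearMap_apply]
      show α _ = α _
      congr 1
      funext s
      by_cases hs : s = r
      · subst hs
        rw [Function.update_self, Function.update_self,
          EE_comm n (fun i => pData (A i)) F (hG A) (isMT_hG A)]
      · rw [Function.update_of_ne hs, Function.update_of_ne hs]) hb
  refine ⟨R.card, h2.symm, ?_⟩
  by_contra hcon
  push Not at hcon
  apply h1
  rw [MultilinearMap.compLinearMap_apply]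
  refine hfil _ ⟨Rᶜ, ?_, fun r hr i m => ?_⟩
  · rw [Finset.card_compl, Fintype.card_fin]
    omega
  · rw [Finset.mem_compl] at hr
    rw [hod_fil]
    have h6 : lift n (hG A).1 (EE n (fun i => pData (A i)) F (b r) (w r)) = 0 := by
      rw [← EE_comm n (fun i => pData (A i)) F (hG A) (isMT_hG A), h4 r hr, map_zero]
    have h7 := congrFun (congrFun h6 i) m
    rw [lift_apply] at h7
    exact h7

lemma nu_conj (F : ∀ i, FS (pData (A i)) (K i)) (b : Fin (2 * k) → At n K) :
    nu A n K k F (fun r => actA n starRingAut (b r)) = 2 * k - nu A n K k F b := by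
  classical
  unfold nu
  have h1 : ∀ r, chiC (fun i => pData (A i)) F (pl n (actA n starRingAut (b r))) (hG A) =
      1 - chiC (fun i => pData (A i)) F (pl n (b r)) (hG A) := by
    intro r
    have h2 := chiC_hG_conj A K F (pl n (b r))
    have h3 : pl n (actA n starRingAut (b r)) = conjT (pl n (b r)) := rfl
    rw [h3, ← h2]
    ring
  rw [Finset.sum_congr rfl fun r _ => h1 r, Finset.sum_sub_distrib]
  simp

include hST hS hU hC hc hα in
/-- the case of classes in the step of the Hodge filtration before the middle -/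
theorem hodge_T1 (hL : GAM.St_ExpL) (hP : GAM.St_PsiK) (hIso : GAM.St_Iso)
    (hExp : GAM.St_ExpAV)
    (hfil : ∀ v : Fin (2 * k) → HW (fun i => Fin (A i).g ⊕ Fin (A i).g) n,
      (∃ s : Finset (Fin (2 * k)), k + 1 < s.card ∧ ∀ r ∈ s, ∀ i m, (A i).IsFil (v r i m)) →
        α v = 0) : IsHodge A n k α := by
  classical
  obtain ⟨F, hF⟩ := exists_sys A K S U T hST hS hU hC
  obtain ⟨N, hNT, ⟨C⟩⟩ := exists_CMSys A K F S U T hST hS hU hC hF
  have hper := fun i : {i // i ∈ N} => exists_per (C.G i)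
  choose p ε hp using hper
  let fi : ∀ i : {i // i ∈ N}, Fintype (CType (C.G i)) := fun i => Fintype.ofFinite _
  have hB := hB_of A n hα
  -- the weights at all labels
  have hν : ∀ b : Fin (2 * k) → At n K,
      (∃ v : Fin (2 * k) → HW (fun i => Fin (A i).g ⊕ Fin (A i).g) n,
        (toM' n α) (fun r => EE n (fun i => pData (A i)) F (b r) (v r)) ≠ 0) →
      ∃ e : ℤ, (e = -2 ∨ e = 0 ∨ e = 2) ∧ 2 * nu A n K k F b = 2 * k + e := by
    intro b hb
    obtain ⟨m, hm, hm1⟩ := nu_ge A n K S U hS hU hc k α hα F hF hfil b hb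
    obtain ⟨m', hm', hm1'⟩ := nu_ge A n K S U hS hU hc k α hα F hF hfil
      (fun r => actA n starRingAut (b r))
      (gal_ne n (fun i => pData (A i)) F (toM' n α) Complex.two_pi_I_ne_zero hB starRingAut b hb)
    rw [nu_conj, hm] at hm'
    have h1 : ((m' + m : ℕ) : ℂ) = ((2 * k : ℕ) : ℂ) := by
      push_cast
      rw [← hm']
      ring
    have h2 : m' + m = 2 * k := by exact_mod_cast h1
    refine ⟨2 * m - 2 * k, by omega, ?_⟩
    rw [hm]
    push_cast
    ring
  refine hodge_of_lab A n K S U hS hU hc F hF k α hα fun b v hv => ?_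
  have hsp : ∀ (b : Fin (2 * k) → At n K), 2 * nu A n K k F b = 2 * k +
      ∑ t, (zd (fun i => i ∈ N) (fun r => pl n (b r)) t : ℂ) *
        chiC (fun i => pData (A i)) F t (hG A) := by
    intro b
    have h1 := split_sum (fun i => i ∈ N) (fun r => pl n (b r))
      (fun t => chiC (fun i => pData (A i)) F t (hG A)) 1 (fun t => chiC_hG_conj A K F t)
      (fun t ht => chiC_left (fun i => pData (A i)) F (hG A) t (by
        by_contra h
        exact ht ((C.nl t.1).mpr h)))
    unfold nu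
    rw [h1]
    push_cast
    ring
  obtain ⟨z, hzdef⟩ : ∃ z : Emb K → ℤ, z = zd (fun i => i ∈ N) (fun r => pl n (b r)) := ⟨_, rfl⟩
  have hz : OddV N z := by
    rw [hzdef]
    exact ⟨fun t => zd_conj _ _ t, fun t ht => zd_zero _ _ t ht⟩
  have hzX : ∀ X, IsInv n (fun i => pData (A i)) (toM' n α) X →
      ∑ t, (z t : ℂ) * chiC (fun i => pData (A i)) F t X = 0 := by
    intro X hX
    have h1 := split_sum (fun i => i ∈ N) (fun r => pl n (b r))
      (fun t => chiC (fun i => pData (A i)) F t X) X.2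
      (fun t => chiC_conj n (fun i => pData (A i)) F (toM' n α) t X hX)
      (fun t ht => chiC_left (fun i => pData (A i)) F X t (by
        by_contra h
        exact ht ((C.nl t.1).mpr h)))
    have h2 := weight_label A n K S U hS hU hc F hF k α hα hX b v hv
    rw [h2, ← hzdef] at h1
    push_cast at h1
    linear_combination -h1
  have hz2 : ∀ τ : ℂ ≃+* ℂ, ∑ i : {i // i ∈ N}, ∑ s : CType (C.G i),
      z ⟨i.1, (τ : ℂ →+* ℂ).comp s.1⟩ = -2 ∨
      ∑ i : {i // i ∈ N}, ∑ s : CType (C.G i), z ⟨i.1, (τ : ℂ →+* ℂ).comp s.1⟩ = 0 ∨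
      ∑ i : {i // i ∈ N}, ∑ s : CType (C.G i), z ⟨i.1, (τ : ℂ →+* ℂ).comp s.1⟩ = 2 := by
    intro τ
    obtain ⟨e, he, h1⟩ := hν (fun r => actA n τ.symm (b r))
      (gal_ne n (fun i => pData (A i)) F (toM' n α) Complex.two_pi_I_ne_zero hB τ.symm b ⟨v, hv⟩)
    have h2 := hsp (fun r => actA n τ.symm (b r))
    have h3 : ∀ t, zd (fun i => i ∈ N) (fun r => pl n (actA n τ.symm (b r))) t =
        z (actT τ t) := by
      intro t
      rw [hzdef]
      exact (zd_actT (fun i => i ∈ N) (fun r => pl n (b r)) τ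
        (fun t ht => C.conj_act τ t ht) t).symm
    simp only [h3] at h2
    rw [C.sum_hod (C.oddV_act hz τ), h1] at h2
    have h4 : e = ∑ i : {i // i ∈ N}, ∑ s : CType (C.G i),
        z (actT τ (⟨i.1, s.1⟩ : Emb K)) := by
      exact_mod_cast add_left_cancel h2
    have h5 : ∑ i : {i // i ∈ N}, ∑ s : CType (C.G i), z ⟨i.1, (τ : ℂ →+* ℂ).comp s.1⟩ = e := by
      rw [h4]
      rfl
    rw [h5]
    exact he
  have hbal := balF hL hP hIso {i // i ∈ N} (fun i => K i.1) (fun i => ccH (C.G i))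
    (fun i => CType (C.G i))
    (fun i s => s.1) (fun δ i s => δ (p i s.1) / p i s.1) (fun t => z ⟨t.1.1, t.2⟩)
    (fun i => cmf_ccH (C.G i) (C.cx i.1 i.2))
    (fun i => cmt (C.G i)) (fun δ i => isExp_per (C.G i) (hp i) hExp δ)
    (fun i σ => by
      show z ⟨i.1, σ.comp (ccH (C.G i))⟩ = - z ⟨i.1, σ⟩
      rw [comp_ccH]
      exact hz.odd ⟨i.1, σ⟩)
    (fun τ δ => C.sum_exp n k α hα p ε hp hz hzX τ δ) hz2
  have h1 := hsp b
  rw [← hzdef, C.sum_hod hz] at h1
  have h2 : ((∑ i : {i // i ∈ N}, ∑ s : CType (C.G i), z ⟨i.1, s.1⟩ : ℤ) : ℂ) = 0 := by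
    exact_mod_cast hbal
  rw [h2, add_zero] at h1
  exact mul_left_cancel₀ two_ne_zero h1

end fam

end Pool.Agent.Helper8.T1
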