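import Pool.Agent.Helper7.J4

/-!
The action of the automorphisms of `ℂ` on the labels of a rational form: if the part of the form
with labels `b` does not vanish, the part with the conjugate labels does not vanish. The number of
slots of the wrong type of a part of the form.
-/

set_option linter.unusedSectionVars false

namespace Pool.Agent.Helper8.T1

open Module NumberField Pool.Agent.Helper7
open Pool.Agent.GPC (Emb)

section gal

variable {I : Type} [Fintype I] [DecidableEq I] (n : I → ℕ)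
  {κ : I → Type} [∀ i, Fintype (κ i)] [∀ i, DecidableEq (κ i)] {ϖ : ℂ}
  (P : ∀ i, PData (κ i) ϖ)
  {K : I → Type} [∀ i, Field (K i)] [∀ i, NumberField (K i)]
  (F : ∀ i, FS (P i) (K i))
  {k : ℕ} (α : MultilinearMap ℂ (fun _ : Fin (2 * k) => HW κ n) ℂ)

/-- the action of an automorphism of `ℂ` on the labels -/
def actA (τ : ℂ ≃+* ℂ) (t : At n K) : At n K := ⟨t.1, t.2.1, (τ : ℂ →+* ℂ).comp t.2.2⟩

lemma pl_actA (τ : ℂ ≃+* ℂ) (t : At n K) : pl n (actA n τ t) = actT τ (pl n t) := rfl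

/-- a term of the projector to a label -/
noncomputable def tmE (t : At n K) (c : Fin (finrank ℚ (K t.1))) (v : HW κ n) : HW κ n :=
  slotL n t.1 t.2.1 ((F t.1).ρ (bas (K t.1) c) (v t.1 t.2.1))

lemma EE_sum (t : At n K) (v : HW κ n) :
    EE n P F t v = ∑ c, t.2.2 (dbas (K t.1) c) • tmE n P F t c v := by
  rw [EE_apply, proj_apply', map_sum]
  refine Finset.sum_congr rfl fun c _ => ?_
  rw [map_smul]
  rfl

lemma EE_actA_sum (τ : ℂ ≃+* ℂ) (t : At n K) (v : HW κ n) :
    EE n P F (actA n τ t) v = ∑ c, τ (t.2.2 (dbas (K t.1) c)) • tmE n P F t c v :=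
  EE_sum n P F (actA n τ t) v

lemma tmE_rat (t : At n K) (c : Fin (finrank ℚ (K t.1))) (v : HW κ n) (hv : IsRatP n P v) :
    IsRatP n P (tmE n P F t c v) :=
  slot_isRatP n P _ _ _ (((F t.1).hρ _).rat _ (hv _ _))

lemma form_EE (b : Fin (2 * k) → At n K) (v : Fin (2 * k) → HW κ n) :
    α (fun r => EE n P F (b r) (v r)) =
      ∑ c : (∀ r, Fin (finrank ℚ (K (b r).1))),
        (∏ r, (b r).2.2 (dbas (K (b r).1) (c r))) *
          α (fun r => tmE n P F (b r) (c r) (v r)) := by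
  classical
  simp only [EE_sum]
  rw [α.map_sum]
  refine Finset.sum_congr rfl fun c _ => ?_
  rw [α.map_smul_univ, smul_eq_mul]

variable (hϖ : ϖ ≠ 0)
  (hB : ∀ v : Fin (2 * k) → HW κ n, (∀ r, IsRatP n P (v r)) → ∃ q : ℚ, α v = ϖ ^ k * q)

include hϖ hB in
lemma gal_EE (τ : ℂ ≃+* ℂ) (b : Fin (2 * k) → At n K) (v : Fin (2 * k) → HW κ n)
    (hv : ∀ r, IsRatP n P (v r)) :
    α (fun r => EE n P F (actA n τ (b r)) (v r)) =
      ϖ ^ k * τ (α (fun r => EE n P F (b r) (v r)) / ϖ ^ k) := by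
  classical
  have hk : ϖ ^ k ≠ 0 := pow_ne_zero _ hϖ
  have h1 : ∀ c : (∀ r, Fin (finrank ℚ (K (b r).1))), ∃ q : ℚ,
      α (fun r => tmE n P F (b r) (c r) (v r)) = ϖ ^ k * q := fun c =>
    hB _ fun r => tmE_rat n P F (b r) (c r) (v r) (hv r)
  choose q hq using h1
  have h2 : α (fun r => EE n P F (b r) (v r)) / ϖ ^ k =
      ∑ c : (∀ r, Fin (finrank ℚ (K (b r).1))),
        (∏ r, (b r).2.2 (dbas (K (b r).1) (c r))) * (q c : ℂ) := by
    rw [form_EE, Finset.sum_div]
    refine Finset.sum_congr rfl fun c _ => ?_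
    rw [hq]
    field_simp
  have h3 : α (fun r => EE n P F (actA n τ (b r)) (v r)) =
      ∑ c : (∀ r, Fin (finrank ℚ (K (b r).1))),
        (∏ r, τ ((b r).2.2 (dbas (K (b r).1) (c r)))) *
          α (fun r => tmE n P F (b r) (c r) (v r)) :=
    form_EE n P F α (fun r => actA n τ (b r)) v
  rw [h3, h2, map_sum, Finset.mul_sum]
  refine Finset.sum_congr rfl fun c _ => ?_
  rw [hq, map_mul, map_prod, map_ratCast]
  ring

include hϖ hB in
/-- conjugate labels occur together -/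
theorem gal_ne (τ : ℂ ≃+* ℂ) (b : Fin (2 * k) → At n K)
    (h : ∃ v : Fin (2 * k) → HW κ n, α (fun r => EE n P F (b r) (v r)) ≠ 0) :
    ∃ v : Fin (2 * k) → HW κ n, α (fun r => EE n P F (actA n τ (b r)) (v r)) ≠ 0 := by
  classical
  have hk : ϖ ^ k ≠ 0 := pow_ne_zero _ hϖ
  obtain ⟨s, hs⟩ : ∃ s : Fin (2 * k) → (Σ i, Σ (_ : Fin (n i)), (P i).ι),
      α (fun r => EE n P F (b r) (FBP n P (s r))) ≠ 0 := by
    by_contra hcon
    push Not at hcon
    obtain ⟨v, hv⟩ := h
    have h1 : α.compLinearMap (fun r => EE n P F (b r)) = 0 := by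
      refine Basis.ext_multilinear (fun _ => FBP n P) fun s => ?_
      exact hcon s
    apply hv
    exact congrArg (fun g => g v) h1
  refine ⟨fun r => FBP n P (s r), ?_⟩
  rw [gal_EE n P F α hϖ hB τ b _ fun r => FBP_isRatP n P (s r)]
  refine mul_ne_zero hk ?_
  rw [ne_eq, map_eq_zero τ]
  exact div_ne_zero hs hk

end gal

section count

variable {W : Type*} [AddCommGroup W] [Module ℂ W] {N : ℕ}

/-- the number of eigenvectors for the eigenvalue `1` of a projector in the slots -/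
theorem count_of_weight (Φ : MultilinearMap ℂ (fun _ : Fin N => W) ℂ) (D : Module.End ℂ W)
    (hD : ∀ w, D (D w) = D w) (ν : ℂ)
    (hΦ : ∀ v, ∑ r, Φ (Function.update v r (D (v r))) = ν * Φ v) (hne : ∃ v, Φ v ≠ 0) :
    ∃ (T : Finset (Fin N)) (w : Fin N → W), Φ w ≠ 0 ∧ (T.card : ℂ) = ν ∧
      (∀ r ∈ T, D (w r) = w r) ∧ ∀ r, r ∉ T → D (w r) = 0 := by
  classical
  obtain ⟨v, hv⟩ := hne
  have e : v = (fun r => D (v r)) + (fun r => v r - D (v r)) := by
    funext r
    rw [Pi.add_apply]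
    abel
  obtain ⟨T, hT⟩ : ∃ T : Finset (Fin N),
      Φ (T.piecewise (fun r => D (v r)) (fun r => v r - D (v r))) ≠ 0 := by
    by_contra hcon
    push Not at hcon
    apply hv
    rw [e, Φ.map_add_univ]
    exact Finset.sum_eq_zero fun T _ => hcon T
  obtain ⟨w, hw⟩ : ∃ w, w = T.piecewise (fun r => D (v r)) (fun r => v r - D (v r)) := ⟨_, rfl⟩
  rw [← hw] at hT
  have hw1 : ∀ r ∈ T, D (w r) = w r := by
    intro r hr
    rw [hw, Finset.piecewise_eq_of_mem _ _ _ hr, hD]
  have hw0 : ∀ r, r ∉ T → D (w r) = 0 := by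
    intro r hr
    rw [hw, Finset.piecewise_eq_of_notMem _ _ _ hr, map_sub, hD, sub_self]
  refine ⟨T, w, hT, ?_, hw1, hw0⟩
  have e1 : ∑ r, Φ (Function.update w r (D (w r))) = (T.card : ℂ) * Φ w := by
    rw [← Finset.sum_filter_add_sum_filter_not Finset.univ (fun r => r ∈ T)]
    have e2 : ∑ r ∈ Finset.univ.filter (fun r => r ∉ T),
        Φ (Function.update w r (D (w r))) = 0 := by
      refine Finset.sum_eq_zero fun r hr => ?_
      rw [hw0 r (Finset.mem_filter.mp hr).2]
      exact Φ.map_update_zero _ _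
    have e3 : ∀ r ∈ Finset.univ.filter (fun r => r ∈ T),
        Φ (Function.update w r (D (w r))) = Φ w := by
      intro r hr
      rw [hw1 r (Finset.mem_filter.mp hr).2, Function.update_eq_self]
    rw [e2, add_zero, Finset.sum_congr rfl e3, Finset.sum_const, nsmul_eq_mul]
    congr 2
    simp
  have e2 := hΦ w
  rw [e1] at e2
  exact mul_right_cancel₀ hT e2

end count

end Pool.Agent.Helper8.T1
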