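import Pool.Agent.Helper7.J4

/-!
The vector of differences of a pattern of embeddings.
-/

set_option linter.unusedSectionVars false

namespace Pool.Agent.Helper8.T1

open Module NumberField Pool.Agent.Helper7
open Pool.Agent.GPC (Emb)

section split

variable {I : Type} [Fintype I] [DecidableEq I] {K : I → Type} [∀ i, Field (K i)]
  [∀ i, NumberField (K i)] (T : I → Prop) {N : ℕ} (q : Fin N → Emb K)

open Classical in
/-- the vector of differences of a pattern -/
noncomputable def zd (t : Emb K) : ℤ :=
  if T t.1 then ∑ r, ((if q r = t then 1 else 0) - (if q r = conjT t then 1 else 0)) else 0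

lemma zd_zero (t : Emb K) (h : ¬ T t.1) : zd T q t = 0 := if_neg h

lemma zd_conj (t : Emb K) : zd T q (conjT t) = - zd T q t := by
  classical
  unfold zd
  have h0 : T (conjT t).1 ↔ T t.1 := Iff.rfl
  by_cases h : T t.1
  · rw [if_pos h, if_pos (h0.mpr h), conjT_conjT, ← Finset.sum_neg_distrib]
    exact Finset.sum_congr rfl fun r _ => by ring
  · rw [if_neg h, if_neg (fun h1 => h (h0.mp h1)), neg_zero]

/-- any function with constant sums over conjugate places, half of it outside of `T` -/
theorem split_sum (f : Emb K → ℂ) (a : ℂ) (hf : ∀ t, f t + f (conjT t) = a)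
    (hf' : ∀ t, ¬ T t.1 → f t = a / 2) :
    2 * ∑ r, f (q r) = N * a + ∑ t, (zd T q t : ℂ) * f t := by
  classical
  have h1 : ∀ t, (zd T q t : ℂ) * f t = ∑ r, ((if q r = t then (if T t.1 then f t else 0) else 0) -
      (if conjT (q r) = t then (if T t.1 then f t else 0) else 0)) := by
    intro t
    unfold zd
    by_cases h : T t.1
    · rw [if_pos h]
      push_cast
      rw [Finset.sum_mul]
      refine Finset.sum_congr rfl fun r _ => ?_
      have h2 : q r = conjT t ↔ conjT (q r) = t := by
        constructor
        · intro h; rw [h, conjT_conjT]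
        · intro h; rw [← h, conjT_conjT]
      by_cases h3 : q r = t <;> by_cases h4 : conjT (q r) = t
      · rw [if_pos h3, if_pos (h2.mpr h4), if_pos h3, if_pos h4, if_pos h]; ring
      · rw [if_pos h3, if_neg (fun h5 => h4 (h2.mp h5)), if_pos h3, if_neg h4, if_pos h]; ring
      · rw [if_neg h3, if_pos (h2.mpr h4), if_neg h3, if_pos h4, if_pos h]; ring
      · rw [if_neg h3, if_neg (fun h5 => h4 (h2.mp h5)), if_neg h3, if_neg h4]; ring
    · rw [if_neg h]
      simp [if_neg h]
  have h2 : ∀ r, ∑ t : Emb K, ((if q r = t then (if T t.1 then f t else 0) else 0) -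
      (if conjT (q r) = t then (if T t.1 then f t else 0) else 0)) = 2 * f (q r) - a := by
    intro r
    rw [Finset.sum_sub_distrib, Finset.sum_ite_eq, Finset.sum_ite_eq,
      if_pos (Finset.mem_univ _), if_pos (Finset.mem_univ _)]
    have h0 : T (conjT (q r)).1 ↔ T (q r).1 := Iff.rfl
    by_cases h : T (q r).1
    · rw [if_pos h, if_pos (h0.mpr h), ← hf (q r)]; ring
    · rw [if_neg h, if_neg (fun h1 => h (h0.mp h1)), hf' _ h]; ring
  rw [Finset.sum_congr rfl fun t _ => h1 t, Finset.sum_comm, Finset.sum_congr rfl fun r _ => h2 r,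
    Finset.sum_sub_distrib, Finset.sum_const, Finset.card_univ, Fintype.card_fin, ← Finset.mul_sum,
    nsmul_eq_mul]
  ring

lemma zd_actT (τ : ℂ ≃+* ℂ)
    (hτ : ∀ t : Emb K, T t.1 → conjT (actT τ t) = actT τ (conjT t)) (t : Emb K) :
    zd T q (actT τ t) = zd T (fun r => actT τ.symm (q r)) t := by
  classical
  unfold zd
  have h0 : T (actT τ t).1 ↔ T t.1 := Iff.rfl
  by_cases h : T t.1
  · rw [if_pos h, if_pos (h0.mpr h), hτ t h]
    have h1 : ∀ (u t : Emb K), u = actT τ t ↔ actT τ.symm u = t := by
      intro u t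
      constructor
      · intro h2
        rw [h2]
        exact (actT τ).symm_apply_apply t
      · intro h2
        rw [← h2]
        exact ((actT τ).apply_symm_apply u).symm
    refine Finset.sum_congr rfl fun r _ => ?_
    have e1 : (if q r = actT τ t then (1 : ℤ) else 0) =
        if actT τ.symm (q r) = t then 1 else 0 := if_congr (h1 _ _) rfl rfl
    have e2 : (if q r = actT τ (conjT t) then (1 : ℤ) else 0) =
        if actT τ.symm (q r) = conjT t then 1 else 0 := if_congr (h1 _ _) rfl rfl
    rw [e1, e2]
  · rw [if_neg h, if_neg (fun h1 => h (h0.mp h1))]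

end split

end Pool.Agent.Helper8.T1
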