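import Pool.Agent.Helper7.HU.ToUF
import Pool.Agent.Helper7.HU.Family
import Pool.Agent.Helper7.CP.ST
import Pool.Agent.Helper8.T1.Gal
import Pool.Agent.Helper8.T1.BalF
import Pool.Agent.Helper8.T1.Split

/-!
Relations between the weights of the factors of CM type and the exponents of the CM types.
-/

open scoped ComplexConjugate

set_option linter.unusedSectionVars false

namespace Pool.Agent.Helper8.T1

open Module NumberField LieAlgebra Pool.Agent.Helper7 Pool.Agent.Helper7.HU Pool.Agent.Helper24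
open Pool.Agent.GPC Matrix
open Pool.Agent.Helper8.E Pool.Agent.Helper8.E.CP
open Pool.Agent.Helper8.D (hG hG_sym hG_idem)

attribute [local instance 100] LieRing.ofAssociativeRing

section main

variable {I : Type} [Fintype I] [DecidableEq I] (A : I → AbVar) (K : I → Type)
  [∀ i, Field (K i)] [∀ i, NumberField (K i)]
  (F : ∀ i, FS (pData (A i)) (K i))

/-- adapted data for the factors of CM type -/
structure CMSys (N : Finset I) where
  G : ∀ i : {i // i ∈ N}, UF (pData (A i.1)) (K i.1) 1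
  nl : ∀ i, i ∈ N ↔ ¬ (F i).isLeft
  chi : ∀ (i : {i // i ∈ N}) (σ : K i.1 →+* ℂ)
    (X : Module.End ℂ (Fin (A i.1).g ⊕ Fin (A i.1).g → ℂ)) (c : ℂ),
    (∀ x v, X ((F i.1).ρ x v) = (F i.1).ρ x (X v)) → (F i.1).chi σ X c = tw (G i) σ X
  cx : ∀ i ∈ N, ∀ σ : K i →+* ℂ, ComplexEmbedding.conjugate σ ≠ σ
  re : ∀ i, (F i).isLeft → ∀ σ : K i →+* ℂ, ComplexEmbedding.conjugate σ = σ

theorem exists_CMSys (S U T : Finset I)
    (hST : ∀ i, i ∈ S ∨ i ∈ U ∨ i ∈ T) (hS : ∀ i ∈ S, IsRMType (A i) (K i))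
    (hU : ∀ i ∈ U, IsRelTwoType (A i) (K i)) (hC : ∀ i ∈ T, IsCMType (A i) (K i))
    (hF : IsSys A K S U F) : ∃ N, N ⊆ T ∧ Nonempty (CMSys A K F N) := by
  classical
  have hT : ∀ i, ¬ (F i).isLeft → i ∈ T := by
    intro i hi
    rcases hST i with h1 | h1 | h1
    · exact absurd ((hF.left i).mpr (Or.inl h1)) hi
    · exact absurd ((hF.left i).mpr (Or.inr h1)) hi
    · exact h1
  have hR : ∀ i, i ∈ S ∨ i ∈ U → IsRealType (A i) (K i) := by
    rintro i (hi | hi)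
    · obtain ⟨h1, ⟨R⟩⟩ := hS i hi
      exact ⟨h1, ⟨⟨R.ρ, R.one, R.mul, R.add, R.endo, R.rosati, R.centralizer⟩⟩⟩
    · exact (hU i hi).1
  have hN : ∀ i, i ∈ Finset.univ.filter (fun i => ¬ (F i).isLeft) ↔ ¬ (F i).isLeft := by
    intro i
    rw [Finset.mem_filter]
    exact ⟨fun h => h.2, fun h => ⟨Finset.mem_univ _, h⟩⟩
  refine ⟨Finset.univ.filter (fun i => ¬ (F i).isLeft), fun i hi => hT i ((hN i).mp hi), ?_⟩
  have hG : ∀ i : {i // i ∈ Finset.univ.filter (fun i => ¬ (F i).isLeft)},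
      ∃ G : UF (pData (A i.1)) (K i.1) 1,
      ∀ (σ : K i.1 →+* ℂ) (X : Module.End ℂ (Fin (A i.1).g ⊕ Fin (A i.1).g → ℂ)) (c : ℂ),
        (∀ x v, X ((F i.1).ρ x v) = (F i.1).ρ x (X v)) → (F i.1).chi σ X c = tw G σ X := by
    rintro ⟨i, hi⟩
    have hi' := (hN i).mp hi
    obtain ⟨h1, ⟨C⟩⟩ := hC i (hT i hi')
    obtain ⟨G, -, h2⟩ := exists_UF_chi (A i) (K i) (F i) hi' C.degree
    exact ⟨G, h2⟩
  choose G hG using hG
  refine ⟨G, hN, hG, ?_, ?_⟩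
  · intro i hi σ hσ
    have := (hC i (hT i ((hN i).mp hi))).choose
    exact IsTotallyComplex.complexEmbedding_not_isReal σ (ComplexEmbedding.isReal_iff.mpr hσ)
  · intro i hi σ
    have := (hR i ((hF.left i).mp hi)).1
    exact ComplexEmbedding.isReal_iff.mp (IsTotallyReal.complexEmbedding_isReal σ)

variable {A K F} {N : Finset I} (C : CMSys A K F N)

include C in
lemma CMSys.conj_act (τ : ℂ ≃+* ℂ) (t : Emb K) (ht : t.1 ∈ N) :
    conjT (actT τ t) = actT τ (conjT t) := by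
  obtain ⟨i, σ⟩ := t
  have h3 : (τ : ℂ →+* ℂ).comp (ComplexEmbedding.conjugate σ) =
      ComplexEmbedding.conjugate ((τ : ℂ →+* ℂ).comp σ) := by
    rw [← comp_ccH (C.G ⟨i, ht⟩), ← comp_ccH (C.G ⟨i, ht⟩), RingHom.comp_assoc]
  show (⟨i, ComplexEmbedding.conjugate ((τ : ℂ →+* ℂ).comp σ)⟩ : Emb K) =
    ⟨i, (τ : ℂ →+* ℂ).comp (ComplexEmbedding.conjugate σ)⟩
  rw [h3]

/-- splitting a sum over the embeddings by the CM types -/
lemma CMSys.sum [∀ i, Fintype (CType (C.G i))] (f : Emb K → ℂ) (hf : ∀ t, t.1 ∉ N → f t = 0) :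
    ∑ t, f t = ∑ i : {i // i ∈ N}, ∑ s : CType (C.G i), (f ⟨i.1, s.1⟩ +
        f ⟨i.1, ComplexEmbedding.conjugate s.1⟩) := by
  rw [sum_N N f hf, Fintype.sum_sigma]
  exact Finset.sum_congr rfl fun i _ => sum_split (C.G i) (fun σ => f ⟨i.1, σ⟩)

/-- odd vectors -/
structure OddV (N : Finset I) (z : Emb K → ℤ) : Prop where
  odd : ∀ t, z (conjT t) = - z t
  zero : ∀ t, t.1 ∉ N → z t = 0

include C in
lemma CMSys.oddV_act {z : Emb K → ℤ} (hz : OddV N z) (τ : ℂ ≃+* ℂ) :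
    OddV N (fun t => z (actT τ t)) where
  odd t := by
    by_cases ht : t.1 ∈ N
    · show z (actT τ (conjT t)) = - z (actT τ t)
      rw [← C.conj_act τ t ht, hz.odd]
    · show z (actT τ (conjT t)) = - z (actT τ t)
      rw [hz.zero (actT τ (conjT t)) ht, hz.zero (actT τ t) ht, neg_zero]
  zero t ht := hz.zero (actT τ t) ht

/-- the value at the Hodge element -/
lemma CMSys.sum_hod [∀ i, Fintype (CType (C.G i))] {z : Emb K → ℤ} (hz : OddV N z) :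
    ∑ t, (z t : ℂ) * chiC (fun i => pData (A i)) F t (hG A) =
      ((∑ i : {i // i ∈ N}, ∑ s : CType (C.G i), z ⟨i.1, s.1⟩ : ℤ) : ℂ) := by
  classical
  rw [C.sum _ (fun t ht => by rw [hz.zero t ht]; simp)]
  push_cast
  refine Finset.sum_congr rfl fun i _ => Finset.sum_congr rfl fun s _ => ?_
  have h1 : ∀ σ : K i.1 →+* ℂ, chiC (fun i => pData (A i)) F ⟨i.1, σ⟩ (hG A) =
      tw (C.G i) σ (hod (A i.1)) := fun σ =>
    C.chi i σ _ _ (fun x v => (isMT_hG A).comm i.1 i.1 _ ((F i.1).hρ x) v)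
  have h2 : z ⟨i.1, ComplexEmbedding.conjugate s.1⟩ = - z ⟨i.1, s.1⟩ := hz.odd ⟨i.1, s.1⟩
  rw [h1, h1, tw_hod, tw_hod, if_neg s.2,
    if_pos (by
      by_contra hcon
      exact hcon ((fil_conj (C.G i) s.1).mpr s.2)), h2]
  ring

/-- a relation between the weights gives relations between the exponents -/
lemma CMSys.sum_exp [∀ i, Fintype (CType (C.G i))] (n : I → ℕ) (k : ℕ) (α : Form A n (2 * k))
    (hα : IsGrothendieck A n k α)
    (p : ∀ i : {i // i ∈ N}, (K i.1 →+* ℂ) → ℂ)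
    (ε : ∀ i : {i // i ∈ N}, (K i.1 →+* ℂ) → (Fin (A i.1).g ⊕ Fin (A i.1).g) → ℂ)
    (hp : ∀ i, Per (C.G i) (p i) (ε i))
    {z : Emb K → ℤ} (hz : OddV N z)
    (hzX : ∀ X, IsInv n (fun i => pData (A i)) (toM' n α) X →
        ∑ t, (z t : ℂ) * chiC (fun i => pData (A i)) F t X = 0)
    (τ : ℂ ≃+* ℂ) (δ : Derivation ℚ ℂ ℂ) :
    ∑ i : {i // i ∈ N}, ∑ s : CType (C.G i), (z ⟨i.1, (τ : ℂ →+* ℂ).comp s.1⟩ : ℂ) *
          (2 * (δ (p i s.1) / p i s.1) - δ Real.pi / Real.pi) = 0 := by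
  classical
  have hB := hB_of A n hα
  have h1 := rel_conj n (fun i => pData (A i)) F (toM' n α) Complex.two_pi_I_ne_zero hB C.re z
    hz.odd hzX τ _ (isInv_N n (fun i => pData (A i)) (toM' n α) Complex.two_pi_I_ne_zero hB
      hα.1 δ)
  rw [C.sum _ (fun t ht => by rw [hz.zero (actT τ t) ht]; simp)] at h1
  rw [← h1]
  refine Finset.sum_congr rfl fun i _ => Finset.sum_congr rfl fun s _ => ?_
  have h2 : z (actT τ (⟨i.1, ComplexEmbedding.conjugate s.1⟩ : Emb K)) =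
      - z (actT τ (⟨i.1, s.1⟩ : Emb K)) := (C.oddV_act hz τ).odd ⟨i.1, s.1⟩
  have h3 : ∀ (σ : K i.1 →+* ℂ) (c : ℂ), (F i.1).chi σ ((pData (A i.1)).N δ) c =
      tw (C.G i) σ ((pData (A i.1)).N δ) := fun σ c =>
    C.chi i σ _ _ (fun x v => ((F i.1).hρ x).comm_N δ v)
  show (z ⟨i.1, (τ : ℂ →+* ℂ).comp s.1⟩ : ℂ) *
      (2 * (δ (p i s.1) / p i s.1) - δ Real.pi / Real.pi) =
    (z (actT τ (⟨i.1, s.1⟩ : Emb K)) : ℂ) *
      (F i.1).chi s.1 ((pData (A i.1)).N δ) _ +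
    (z (actT τ (⟨i.1, ComplexEmbedding.conjugate s.1⟩ : Emb K)) : ℂ) *
      (F i.1).chi (ComplexEmbedding.conjugate s.1) ((pData (A i.1)).N δ) _
  rw [h2, h3, h3, tw_N (C.G i) (hp i), tw_N (C.G i) (hp i), per_conj (C.G i) (hp i)]
  have h5 : z (actT τ (⟨i.1, s.1⟩ : Emb K)) = z ⟨i.1, (τ : ℂ →+* ℂ).comp s.1⟩ := rfl
  rw [h5]
  push_cast
  ring

end main

end Pool.Agent.Helper8.T1
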