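import Pool.Agent.Helper8.T1.GoodDefs
import Pool.Agent.Helper8.T1.AlmThree
import Pool.Agent.Helper8.T1.Closure
import Pool.Agent.Helper8.T1.BalQ

/-!
The two properties of stable subspaces of odd functions, for CM fields of degree `2 p` and for
almost irreducible CM fields.
-/

set_option autoImplicit false
set_option linter.unusedSectionVars false

namespace Pool.Agent.Helper8.T1

open GAM Pool.Agent.GPC NumberField Module
open scoped ComplexConjugate

/-- The number field `K` has at least three pairs of complex conjugate embeddings, and the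
automorphisms of `ℂ` act three times transitively on these pairs. For a CM field `K` with maximal
totally real subfield `K₀`: the Galois group of `K₀` (that is, of its Galois closure) acts three
times transitively on the embeddings of `K₀`. -/
def IsThreeTransitive (K : Type) [Field K] [NumberField K] : Prop :=
  6 ≤ Module.finrank ℚ K ∧ ∀ s t : Fin 3 → (K →+* ℂ),
    (∀ i j, i ≠ j → s i ≠ s j ∧ s i ≠ ComplexEmbedding.conjugate (s j)) →
    (∀ i j, i ≠ j → t i ≠ t j ∧ t i ≠ ComplexEmbedding.conjugate (t j)) →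
    ∃ τ : ℂ ≃+* ℂ, ∀ i, (τ : ℂ →+* ℂ).comp (s i) = t i ∨
      (τ : ℂ →+* ℂ).comp (s i) = ComplexEmbedding.conjugate (t i)

section good

variable {K : Type} [Field K] [NumberField K] {c : K →+* K} (hc : CMF K c)

/-- complex conjugation on the embeddings -/
def cE (c : K →+* K) (s : K →+* ℂ) : K →+* ℂ := s.comp c

include hc in
lemma cE_eq (s : K →+* ℂ) : cE c s = ComplexEmbedding.conjugate s := by
  ext x
  rw [ComplexEmbedding.conjugate_coe_eq]
  exact (hc.cc s x).symm

include hc in
lemma cE_cE (s : K →+* ℂ) : cE c (cE c s) = s := by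
  ext x
  show s (c (c x)) = s x
  rw [← hc.cc, ← hc.cc, Complex.conj_conj]

include hc in
lemma cE_ne (s : K →+* ℂ) : cE c s ≠ s := by
  intro h
  apply hc.ne
  ext x
  exact s.injective (RingHom.congr_fun h x)

lemma aK_cE (c : K →+* K) (τ : ℂ ≃+* ℂ) (s : K →+* ℂ) :
    aK K τ (cE c s) = cE c (aK K τ s) := rfl

lemma aK_tr (s t : K →+* ℂ) : ∃ τ, aK K τ s = t := Helper84.exists_aut s t

include hc in
/-- the abstract condition -/
lemma almI_of (h : IsAlmostIrreducible K) : AlmI (cE c) (aK K) := by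
  classical
  intro N hN hodd
  rcases h N (fun z hz s => by rw [← cE_eq hc]; exact hodd z hz s) (fun τ z hz => hN τ z hz)
    with h1 | h1
  · exact Or.inl h1
  · right
    rw [NumberField.Embeddings.card]
    exact h1

include hc in
/-- the two properties -/
theorem good_props [DecidableEq (K →+* ℂ)]
    (h : (∃ p : ℕ, p.Prime ∧ finrank ℚ K = 2 * p) ∨ IsAlmostIrreducible K) :
    Spread (cE c) (aK K) ∧ ∀ N : Submodule ℚ ((K →+* ℂ) → ℚ), StabS (aK K) N →
      (∀ z ∈ N, ∀ s, z (cE c s) = - z s) → SmallOr (cE c) N := by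
  classical
  have s0 : K →+* ℂ := Classical.choice (inferInstance : Nonempty (K →+* ℂ))
  have hinv : ∀ g : ℂ ≃+* ℂ, ∃ g', ∀ t, aK K g' (aK K g t) = t := fun g =>
    ⟨g⁻¹, fun t => by rw [← Equiv.Perm.mul_apply, ← map_mul, inv_mul_cancel, map_one]; rfl⟩
  rcases h with ⟨p, hp, hd⟩ | h
  · have hcard : Fintype.card (K →+* ℂ) = 2 * p := by rw [NumberField.Embeddings.card, hd]
    exact triP (cE_cE hc) (cE_ne hc) (aK K) (aK_cE c) aK_tr hp hcard s0
  · have hAI := almI_of hc h
    exact ⟨almI_spread (cE_cE hc) (cE_ne hc) (aK K) hinv (aK_cE c) aK_tr hAI,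
      fun N hN hodd => almI_small (cE_cE hc) (cE_ne hc) (aK K) hinv (aK_cE c) aK_tr hAI N hN hodd⟩

include hc in
/-- fields with a three times transitive Galois action are almost irreducible -/
theorem almostIrreducible_of_three (h : IsThreeTransitive K) : IsAlmostIrreducible K := by
  classical
  obtain ⟨h6, h3⟩ := h
  have hinv : ∀ g : ℂ ≃+* ℂ, ∃ g', ∀ t, aK K g' (aK K g t) = t := fun g =>
    ⟨g⁻¹, fun t => by rw [← Equiv.Perm.mul_apply, ← map_mul, inv_mul_cancel, map_one]; rfl⟩
  have hcard : 6 ≤ Fintype.card (K →+* ℂ) := by rw [NumberField.Embeddings.card]; exact h6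
  have hout : ∀ T : Finset (K →+* ℂ), T.card ≤ 4 → ∃ u, u ∉ T := by
    intro T hT
    by_contra hcon
    push Not at hcon
    have h1 : T = Finset.univ := Finset.eq_univ_iff_forall.mpr hcon
    rw [h1, Finset.card_univ] at hT
    omega
  have hdp : ∀ {s u : K →+* ℂ}, u ≠ s → u ≠ cE c s → DP (cE c) s u := by
    intro s u h1 h2
    exact ⟨fun h => h1 h.symm, fun h => h2 (by rw [h, cE_cE hc])⟩
  have hthree : ∀ s t : K →+* ℂ, DP (cE c) s t → ∃ u, DP (cE c) s u ∧ DP (cE c) t u := by
    intro s t _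
    obtain ⟨u, hu⟩ := hout {s, cE c s, t, cE c t} (Finset.card_le_four)
    simp only [Finset.mem_insert, Finset.mem_singleton, not_or] at hu
    exact ⟨u, hdp hu.1 hu.2.1, hdp hu.2.2.1 hu.2.2.2⟩
  have htwo : ∀ s : K →+* ℂ, ∃ t, DP (cE c) s t := by
    intro s
    obtain ⟨u, hu⟩ := hout {s, cE c s} (Finset.card_le_two.trans (by norm_num))
    simp only [Finset.mem_insert, Finset.mem_singleton, not_or] at hu
    exact ⟨u, hdp hu.1 hu.2⟩
  have h3' : ∀ s1 s2 s3 t1 t2 t3 : K →+* ℂ, DP (cE c) s1 s2 → DP (cE c) s1 s3 →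
      DP (cE c) s2 s3 → DP (cE c) t1 t2 → DP (cE c) t1 t3 → DP (cE c) t2 t3 →
      ∃ g, (aK K g s1 = t1 ∨ aK K g s1 = cE c t1) ∧
      (aK K g s2 = t2 ∨ aK K g s2 = cE c t2) ∧ (aK K g s3 = t3 ∨ aK K g s3 = cE c t3) := by
    intro s1 s2 s3 t1 t2 t3 h12 h13 h23 k12 k13 k23
    have key : ∀ s1 s2 s3 : K →+* ℂ, DP (cE c) s1 s2 → DP (cE c) s1 s3 → DP (cE c) s2 s3 →
        ∀ i j : Fin 3, i ≠ j → (![s1, s2, s3] : Fin 3 → (K →+* ℂ)) i ≠ ![s1, s2, s3] j ∧
          (![s1, s2, s3] : Fin 3 → (K →+* ℂ)) i ≠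
            ComplexEmbedding.conjugate ((![s1, s2, s3] : Fin 3 → (K →+* ℂ)) j) := by
      intro s1 s2 s3 h12 h13 h23 i j hij
      rw [← cE_eq hc]
      have h21 := h12.symm' (cE c) (cE_cE hc)
      have h31 := h13.symm' (cE c) (cE_cE hc)
      have h32 := h23.symm' (cE c) (cE_cE hc)
      fin_cases i <;> fin_cases j
      · exact absurd rfl hij
      · exact h12
      · exact h13
      · exact h21
      · exact absurd rfl hij
      · exact h23
      · exact h31
      · exact h32
      · exact absurd rfl hij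
    obtain ⟨τ, hτ⟩ := h3 ![s1, s2, s3] ![t1, t2, t3] (key s1 s2 s3 h12 h13 h23)
      (key t1 t2 t3 k12 k13 k23)
    refine ⟨τ, ?_, ?_, ?_⟩
    · rw [cE_eq hc]; exact hτ 0
    · rw [cE_eq hc]; exact hτ 1
    · rw [cE_eq hc]; exact hτ 2
  have hAI := almI_three (cE_cE hc) (cE_ne hc) (aK K) hinv (aK_cE c) aK_tr h3' hthree htwo
  intro N hodd hN
  rcases hAI N (fun τ z hz => hN τ z hz) (fun z hz s => by
    rw [cE_eq hc]; exact hodd z hz s) with h1 | h1
  · exact Or.inl h1
  · right
    rw [NumberField.Embeddings.card] at h1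
    exact h1

end good

section type

variable {K : Type} [Field K] [NumberField K] {c : K →+* K} (hc : CMF K c)
  {S : Type} [Fintype S] {φ : S → K →+* ℂ} (hT : CMT K c φ)

include hc hT in
/-- the sum of the values of the difference of two conjugate places over a CM type -/
lemma sum_eV [DecidableEq (K →+* ℂ)] (u : K →+* ℂ) :
    ∑ s, eV (cE c) u (φ s) = 1 ∨ ∑ s, eV (cE c) u (φ s) = -1 := by
  classical
  have hinj : ∀ s s', φ s = φ s' → s = s' := fun s s' h => by
    have h1 : (Sum.inl s : S ⊕ S) = Sum.inl s' := hT.1 h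
    exact Sum.inl_injective h1
  have hne : ∀ s s', φ s ≠ cE c (φ s') := fun s s' h => by
    have h1 : (Sum.inl s : S ⊕ S) = Sum.inr s' := hT.1 h
    exact absurd h1 (by simp)
  have hcc : ∀ s s', φ s = φ s' → s = s' := hinj
  obtain ⟨x, hx⟩ := hT.2 u
  rcases x with s | s
  · left
    have hu : u = φ s := hx.symm
    rw [Finset.sum_eq_single s]
    · rw [hu, eV_self (cE c) (cE_ne hc)]
    · intro s' _ hs'
      rw [hu, eV, if_neg (fun h => hs' (hinj _ _ h)), if_neg (hne s' s), sub_zero]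
    · intro h; exact absurd (Finset.mem_univ _) h
  · right
    have hu : u = cE c (φ s) := hx.symm
    rw [Finset.sum_eq_single s]
    · rw [hu, eV, if_neg (hne s s), cE_cE hc, if_pos rfl, zero_sub]
    · intro s' _ hs'
      rw [hu, eV, if_neg (hne s' s), cE_cE hc, if_neg (fun h => hs' (hinj _ _ h)), sub_zero]
    · intro h; exact absurd (Finset.mem_univ _) h

/-- the difference of two conjugate places under automorphisms -/
lemma eV_aK [DecidableEq (K →+* ℂ)] (τ : ℂ ≃+* ℂ) (u s : K →+* ℂ) :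
    eV (cE c) u (aK K τ s) = eV (cE c) (aK K τ⁻¹ u) s := by
  have h1 : ∀ v, (aK K τ s = v ↔ s = aK K τ⁻¹ v) := by
    intro v
    constructor
    · intro h
      rw [← h, ← Equiv.Perm.mul_apply, ← map_mul, inv_mul_cancel, map_one]
      rfl
    · intro h
      rw [h, ← Equiv.Perm.mul_apply, ← map_mul, mul_inv_cancel, map_one]
      rfl
  unfold eV
  congr 1
  · exact if_congr (h1 u) rfl rfl
  · exact if_congr (h1 (cE c u)) rfl rfl

end type

end Pool.Agent.Helper8.T1
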