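import Mathlib

/-!
Minimal stable subspaces of a permutation module, representing vectors.
-/

set_option autoImplicit false
set_option linter.unusedSectionVars false

namespace Pool.Agent.Helper8.T1

section perp

variable {E : Type} [Fintype E]

/-- linear forms on a subspace are represented by vectors of the subspace -/
lemma rep_exists (N : Submodule ℚ (E → ℚ)) (l : (E → ℚ) →ₗ[ℚ] ℚ) :
    ∃ k ∈ N, ∀ z ∈ N, ∑ t, k t * z t = l z := by
  classical
  let B : N →ₗ[ℚ] Module.Dual ℚ N := LinearMap.mk₂ ℚ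
    (fun k z => ∑ t, (k : E → ℚ) t * (z : E → ℚ) t)
    (fun x y z => by
      rw [← Finset.sum_add_distrib]
      refine Finset.sum_congr rfl fun t _ => ?_
      rw [Submodule.coe_add, Pi.add_apply, add_mul])
    (fun c x z => by
      rw [smul_eq_mul, Finset.mul_sum]
      refine Finset.sum_congr rfl fun t _ => ?_
      rw [Submodule.coe_smul, Pi.smul_apply, smul_eq_mul, mul_assoc])
    (fun x y z => by
      rw [← Finset.sum_add_distrib]
      refine Finset.sum_congr rfl fun t _ => ?_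
      rw [Submodule.coe_add, Pi.add_apply, mul_add])
    (fun c x z => by
      rw [smul_eq_mul, Finset.mul_sum]
      refine Finset.sum_congr rfl fun t _ => ?_
      rw [Submodule.coe_smul, Pi.smul_apply, smul_eq_mul]
      ring)
  have hinj : Function.Injective B := by
    rw [← LinearMap.ker_eq_bot, LinearMap.ker_eq_bot']
    intro k hk
    have h1 : ∑ t, (k : E → ℚ) t * (k : E → ℚ) t = 0 := congrArg (fun g => g k) hk
    have h2 := (Finset.sum_eq_zero_iff_of_nonneg (fun t _ => mul_self_nonneg _)).mp h1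
    apply Subtype.ext
    funext t
    exact mul_self_eq_zero.mp (h2 t (Finset.mem_univ _))
  have hsurj : Function.Surjective B :=
    (LinearMap.injective_iff_surjective_of_finrank_eq_finrank
      (Subspace.dual_finrank_eq).symm).mp hinj
  obtain ⟨k, hk⟩ := hsurj (l ∘ₗ N.subtype)
  exact ⟨k, k.2, fun z hz => congrArg (fun g => g ⟨z, hz⟩) hk⟩

variable {Γ : Type*} (a : Γ → E ≃ E)

/-- a subspace which is stable under the permutations -/
def StabS (N : Submodule ℚ (E → ℚ)) : Prop := ∀ g, ∀ z ∈ N, (fun t => z (a g t)) ∈ N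

variable {a}

/-- a minimal stable subspace outside of a stable subspace -/
theorem exists_min (ha : ∀ g, ∃ g', ∀ t, a g' (a g t) = t) (R R0 : Submodule ℚ (E → ℚ))
    (hR : StabS a R) (hR0 : StabS a R0) (hle : R0 ≤ R) (hlt : ¬ R ≤ R0) :
    ∃ W : Submodule ℚ (E → ℚ), StabS a W ∧ W ≤ R ∧ W ≠ ⊥ ∧ W ⊓ R0 = ⊥ ∧
      ∀ N, StabS a N → N ≤ W → N = ⊥ ∨ N = W := by
  classical
  have ha' : ∀ g, ∃ g', ∀ t, a g (a g' t) = t := by
    intro g
    obtain ⟨g', hg'⟩ := ha g
    refine ⟨g', fun t => ?_⟩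
    obtain ⟨s, rfl⟩ := (a g).surjective t
    rw [hg']
  let Q : Submodule ℚ (E → ℚ) :=
    { carrier := {z | z ∈ R ∧ ∀ w ∈ R0, ∑ t, z t * w t = 0}
      zero_mem' := ⟨R.zero_mem, fun w _ => by simp⟩
      add_mem' := by
        rintro x y ⟨h1, h2⟩ ⟨h3, h4⟩
        refine ⟨R.add_mem h1 h3, fun w hw => ?_⟩
        simp only [Pi.add_apply, add_mul, Finset.sum_add_distrib]
        rw [h2 w hw, h4 w hw, add_zero]
      smul_mem' := by
        rintro c x ⟨h1, h2⟩
        refine ⟨R.smul_mem c h1, fun w hw => ?_⟩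
        simp only [Pi.smul_apply, smul_eq_mul, mul_assoc]
        rw [← Finset.mul_sum, h2 w hw, mul_zero] }
  have hQmem : ∀ z, z ∈ Q ↔ z ∈ R ∧ ∀ w ∈ R0, ∑ t, z t * w t = 0 := fun z => Iff.rfl
  have hQs : StabS a Q := by
    intro g z hz
    refine ⟨hR g z hz.1, fun w hw => ?_⟩
    obtain ⟨g', hg'⟩ := ha' g
    have h1 := hz.2 _ (hR0 g' w hw)
    rw [← h1, ← (a g).sum_comp (fun t => z t * w (a g' t))]
    refine Finset.sum_congr rfl fun t _ => ?_
    have h2 : a g' (a g t) = t := by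
      apply (a g).injective
      rw [hg']
    beta_reduce
    rw [h2]
  have hQ0 : Q ≠ ⊥ := by
    intro h0
    apply hlt
    intro z hz
    let l : (E → ℚ) →ₗ[ℚ] ℚ := ∑ t, z t • LinearMap.proj t
    have hl : ∀ w, l w = ∑ t, z t * w t := by
      intro w
      simp only [l, LinearMap.sum_apply, LinearMap.smul_apply, LinearMap.proj_apply, smul_eq_mul]
    obtain ⟨k, hk, hk2⟩ := rep_exists R0 l
    have h1 : z - k ∈ Q := by
      refine ⟨R.sub_mem hz (hle hk), fun w hw => ?_⟩
      simp only [Pi.sub_apply, sub_mul, Finset.sum_sub_distrib]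
      rw [hk2 w hw, hl, sub_self]
    rw [h0, Submodule.mem_bot, sub_eq_zero] at h1
    rw [h1]
    exact hk
  -- minimal
  obtain ⟨W, hW, hmin⟩ := WellFounded.has_min
    (wellFounded_lt (α := Submodule ℚ (E → ℚ))) {N | StabS a N ∧ N ≤ Q ∧ N ≠ ⊥}
    ⟨Q, hQs, le_rfl, hQ0⟩
  refine ⟨W, hW.1, fun z hz => (hW.2.1 hz).1, hW.2.2, ?_, fun N hN hle => ?_⟩
  · rw [eq_bot_iff]
    rintro z ⟨hz1, hz2⟩
    have h1 := (hW.2.1 hz1).2 z hz2
    have h2 := (Finset.sum_eq_zero_iff_of_nonneg (fun t _ => mul_self_nonneg _)).mp h1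
    rw [Submodule.mem_bot]
    funext t
    exact mul_self_eq_zero.mp (h2 t (Finset.mem_univ _))
  · by_cases h : N = ⊥
    · exact Or.inl h
    · right
      by_contra hne
      exact hmin N ⟨hN, hle.trans hW.2.1, h⟩ (lt_of_le_of_ne hle hne)

end perp

end Pool.Agent.Helper8.T1
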