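import Pool.Agent.Helper8.T1.Perp

/-!
Stable subspaces of the space of odd functions, for a group which acts three times transitively on
the pairs of conjugate places.
-/

set_option autoImplicit false
set_option linter.unusedSectionVars false

namespace Pool.Agent.Helper8.T1

section tri

variable {E : Type} [Fintype E] [DecidableEq E] (c : E → E)

/-- the difference of two conjugate places -/
def eV (s : E) : E → ℚ := fun t => (if t = s then 1 else 0) - (if t = c s then 1 else 0)

/-- a subspace of dimension at most one, or with a vector with at most two pairs of values -/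
def SmallOr (N : Submodule ℚ (E → ℚ)) : Prop :=
  (∃ w ∈ N, ∀ z ∈ N, ∃ q : ℚ, z = q • w) ∨
    ∃ (s t : E) (ε : ℚ), (ε = 1 ∨ ε = -1) ∧ eV c s + ε • eV c t ∈ N ∧ eV c s + ε • eV c t ≠ 0

lemma uniq_rep {N : Submodule ℚ (E → ℚ)} {k k' : E → ℚ} (hk : k ∈ N) (hk' : k' ∈ N)
    (h : ∀ z ∈ N, ∑ t, k t * z t = ∑ t, k' t * z t) : k = k' := by
  have h1 : ∑ t, (k - k') t * (k - k') t = 0 := by
    have h2 := h (k - k') (N.sub_mem hk hk')
    have h3 : ∑ t, (k - k') t * (k - k') t = ∑ t, k t * (k - k') t - ∑ t, k' t * (k - k') t := by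
      rw [← Finset.sum_sub_distrib]
      refine Finset.sum_congr rfl fun t _ => ?_
      simp only [Pi.sub_apply]
      ring
    rw [h3, h2, sub_self]
  have h2 := (Finset.sum_eq_zero_iff_of_nonneg (fun t _ => mul_self_nonneg _)).mp h1
  funext t
  exact sub_eq_zero.mp (mul_self_eq_zero.mp (h2 t (Finset.mem_univ _)))

variable (hcc : ∀ s, c (c s) = s) (hne : ∀ s, c s ≠ s) {Γ : Type*} (a : Γ → E ≃ E)
  (ha : ∀ g, ∃ g', ∀ t, a g' (a g t) = t) (hac : ∀ g s, a g (c s) = c (a g s))

/-- the pairs of the places are different -/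
def DP (s t : E) : Prop := s ≠ t ∧ s ≠ c t

include hcc in
lemma DP.symm' {s t : E} (h : DP c s t) : DP c t s :=
  ⟨fun h1 => h.1 h1.symm, fun h1 => h.2 (by rw [h1, hcc])⟩

include hcc hne ha hac in
theorem tri3 (h3 : ∀ s1 s2 s3 t1 t2 t3 : E, DP c s1 s2 → DP c s1 s3 → DP c s2 s3 →
      DP c t1 t2 → DP c t1 t3 → DP c t2 t3 → ∃ g, (a g s1 = t1 ∨ a g s1 = c t1) ∧
        (a g s2 = t2 ∨ a g s2 = c t2) ∧ (a g s3 = t3 ∨ a g s3 = c t3))
    (hthree : ∀ s t : E, DP c s t → ∃ u, DP c s u ∧ DP c t u) (htwo : ∀ s : E, ∃ t, DP c s t)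
    (N : Submodule ℚ (E → ℚ)) (hN : StabS a N)
    (hodd : ∀ z ∈ N, ∀ s, z (c s) = - z s) : SmallOr c N := by
  classical
  by_cases hN0 : ∀ z ∈ N, z = 0
  · left
    exact ⟨0, N.zero_mem, fun z hz => ⟨0, by rw [hN0 z hz, smul_zero]⟩⟩
  push Not at hN0
  have hk : ∀ s : E, ∃ k ∈ N, ∀ z ∈ N, ∑ t, k t * z t = z s := fun s =>
    rep_exists N (LinearMap.proj s)
  choose k hkN hk using hk
  have hsym : ∀ s t, k s t = k t s := by
    intro s t
    rw [← hk s (k t) (hkN t), ← hk t (k s) (hkN s)]
    exact Finset.sum_congr rfl fun u _ => mul_comm _ _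
  have ha' : ∀ g, ∃ g', ∀ t, a g (a g' t) = t := by
    intro g
    obtain ⟨g', hg'⟩ := ha g
    refine ⟨g', fun t => ?_⟩
    obtain ⟨s, rfl⟩ := (a g).surjective t
    rw [hg']
  have hequ : ∀ g s t, k (a g s) (a g t) = k s t := by
    intro g s t
    have h1 : (fun t => k (a g s) (a g t)) = k s := by
      refine uniq_rep (hN g _ (hkN _)) (hkN s) fun z hz => ?_
      rw [hk s z hz]
      obtain ⟨g', hg'⟩ := ha g
      have h2 := hk (a g s) _ (hN g' z hz)
      rw [hg'] at h2
      rw [← h2, ← (a g).sum_comp (fun u => k (a g s) u * z (a g' u))]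
      refine Finset.sum_congr rfl fun u _ => ?_
      rw [hg']
    exact congrFun h1 t
  have hodd1 : ∀ s t, k (c s) t = - k s t := by
    intro s t
    have h1 : k (c s) = - k s := by
      refine uniq_rep (hkN _) (N.neg_mem (hkN s)) fun z hz => ?_
      rw [hk (c s) z hz, hodd z hz s, ← hk s z hz, ← Finset.sum_neg_distrib]
      refine Finset.sum_congr rfl fun u _ => ?_
      rw [Pi.neg_apply, neg_mul]
    rw [h1, Pi.neg_apply]
  have hodd2 : ∀ s t, k s (c t) = - k s t := fun s t => hodd _ (hkN s) t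
  -- values of `k` under the group, up to sign
  have hsg : ∀ (g : Γ) (s t s' t' : E), (a g s = s' ∨ a g s = c s') → (a g t = t' ∨ a g t = c t') →
      k s t = k s' t' ∨ k s t = - k s' t' := by
    intro g s t s' t' h1 h2
    rw [← hequ g s t]
    rcases h1 with h1 | h1 <;> rcases h2 with h2 | h2 <;> rw [h1, h2]
    · exact Or.inl rfl
    · right; rw [hodd2]
    · right; rw [hodd1]
    · left; rw [hodd1, hodd2, neg_neg]
  -- two pairs
  have hsq : ∀ s t s' t', DP c s t → DP c s' t' → k s t ^ 2 = k s' t' ^ 2 := by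
    intro s t s' t' h1 h2
    obtain ⟨u, h3u, h4u⟩ := hthree s t h1
    obtain ⟨u', h3u', h4u'⟩ := hthree s' t' h2
    obtain ⟨g, hg1, hg2, -⟩ := h3 s t u s' t' u' h1 h3u h4u h2 h3u' h4u'
    rcases hsg g s t s' t' hg1 hg2 with h | h <;> rw [h]
    ring
  have hdiag : ∀ s s', k s s = k s' s' := by
    intro s s'
    obtain ⟨t, ht⟩ := htwo s
    obtain ⟨t', ht'⟩ := htwo s'
    obtain ⟨u, h3u, h4u⟩ := hthree s t ht
    obtain ⟨u', h3u', h4u'⟩ := hthree s' t' ht'
    obtain ⟨g, hg1, -, -⟩ := h3 s t u s' t' u' ht h3u h4u ht' h3u' h4u'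
    rw [← hequ g s s]
    rcases hg1 with h | h <;> rw [h]
    rw [hodd1, hodd2, neg_neg]
  have htri : ∀ s t u s' t' u', DP c s t → DP c s u → DP c t u → DP c s' t' → DP c s' u' →
      DP c t' u' → k s t * k t u * k u s = k s' t' * k t' u' * k u' s' := by
    intro s t u s' t' u' h1 h2 h4 h5 h6 h7
    obtain ⟨g, hg1, hg2, hg3⟩ := h3 s t u s' t' u' h1 h2 h4 h5 h6 h7
    rw [← hequ g s t, ← hequ g t u, ← hequ g u s]
    rcases hg1 with h | h <;> rcases hg2 with h' | h' <;> rcases hg3 with h'' | h'' <;>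
      rw [h, h', h''] <;> simp only [hodd1, hodd2] <;> ring
  obtain ⟨z0, hz0, hz0'⟩ := hN0
  obtain ⟨s0, hs0⟩ : ∃ s, z0 s ≠ 0 := by
    by_contra hcon
    push Not at hcon
    exact hz0' (funext hcon)
  have hdne : ∀ s, k s s ≠ 0 := by
    intro s hs
    apply hs0
    have h1 : k s0 = 0 := by
      have h2 := hk s0 (k s0) (hkN s0)
      rw [hdiag s0 s, hs] at h2
      have h3 := (Finset.sum_eq_zero_iff_of_nonneg (fun t _ => mul_self_nonneg _)).mp h2
      funext t
      exact mul_self_eq_zero.mp (h3 t (Finset.mem_univ _))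
    rw [← hk s0 z0 hz0, h1]
    simp
  have hcase : ∀ s t : E, t = s ∨ t = c s ∨ DP c s t := by
    intro s t
    by_cases h1 : t = s
    · exact Or.inl h1
    by_cases h2 : t = c s
    · exact Or.inr (Or.inl h2)
    · exact Or.inr (Or.inr ⟨fun h => h1 h.symm, fun h => h2 (by rw [h, hcc])⟩)
  obtain ⟨t0, ht0⟩ := htwo s0
  by_cases hb : k s0 t0 = 0
  · -- the diagonal case
    right
    have hb' : ∀ s t, DP c s t → k s t = 0 := by
      intro s t hst
      have h1 := hsq s t s0 t0 hst ht0
      rw [hb] at h1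
      have h2 : k s t ^ 2 = 0 := by rw [h1]; ring
      exact pow_eq_zero_iff (two_ne_zero) |>.mp h2
    have h1 : k s0 = k s0 s0 • eV c s0 := by
      funext t
      rw [Pi.smul_apply, smul_eq_mul, eV]
      rcases hcase s0 t with h | h | h
      · rw [h, if_pos rfl, if_neg (fun h => hne s0 h.symm)]; ring
      · rw [h, if_neg (hne s0), if_pos rfl, hodd2]; ring
      · rw [hb' s0 t h, if_neg (fun h' => h.1 h'.symm), if_neg (fun h' => h.2 (by rw [h', hcc]))]
        ring
    have h2 : eV c s0 ∈ N := by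
      have h3 : eV c s0 = (k s0 s0)⁻¹ • k s0 := by
        rw [h1, smul_smul]
        have : (k s0 s0 • eV c s0) s0 = k s0 s0 := by rw [← h1]
        rw [this, inv_mul_cancel₀ (hdne s0), one_smul]
      rw [h3]
      exact N.smul_mem _ (hkN s0)
    refine ⟨s0, s0, 1, Or.inl rfl, N.add_mem h2 (N.smul_mem _ h2), fun h => ?_⟩
    have h3 := congrFun h s0
    rw [Pi.add_apply, Pi.smul_apply, eV, if_pos rfl, if_neg (fun h => hne s0 h.symm)] at h3
    norm_num at h3
  · -- the case of a two-graph
    have hb' : ∀ s t, DP c s t → k s t ≠ 0 := by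
      intro s t hst h0
      have h1 := hsq s t s0 t0 hst ht0
      rw [h0] at h1
      have h2 : k s0 t0 ^ 2 = 0 := by rw [← h1]; ring
      exact hb (pow_eq_zero_iff (two_ne_zero) |>.mp h2)
    -- for different pairs
    have hε : ∀ s t, DP c s t → ∃ ε : ℚ, (ε = 1 ∨ ε = -1) ∧
        k t - ε • k s = (k t t - ε * k s t) • (eV c t - ε • eV c s) := by
      intro s t hst
      obtain ⟨u, hsu, htu⟩ := hthree s t hst
      obtain ⟨κ, hκ⟩ : ∃ κ, κ = k s t * k t u * k u s := ⟨_, rfl⟩
      obtain ⟨b, hb2⟩ : ∃ b, b = k s t ^ 2 := ⟨_, rfl⟩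
      have hb0 : b ≠ 0 := by rw [hb2]; exact pow_ne_zero _ (hb' s t hst)
      have h1 : κ ^ 2 = b ^ 3 := by
        have e1 : k t u ^ 2 = b := by rw [hb2]; exact hsq t u s t htu hst
        have e2 : k u s ^ 2 = b := by rw [hb2]; exact hsq u s s t (hsu.symm' c hcc) hst
        have e3 : κ ^ 2 = k s t ^ 2 * k t u ^ 2 * k u s ^ 2 := by rw [hκ]; ring
        rw [e3, e1, e2, ← hb2]; ring
      have hst0 := hb' s t hst
      obtain ⟨ε, hε⟩ : ∃ ε : ℚ, ε = κ / (b * k s t) := ⟨_, rfl⟩
      have h2 : ε * ε = 1 := by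
        have : ε * ε = κ ^ 2 / (b ^ 2 * k s t ^ 2) := by
          rw [hε]; field_simp
        rw [this, h1, ← hb2]
        field_simp
      have h3 : ∀ v, DP c s v → DP c t v → k t v = ε * k s v := by
        intro v hsv htv
        have e1 : k s t * k t v * k v s = κ := by
          rw [hκ]; exact htri s t v s t u hst hsv htv hst hsu htu
        have e2 : k s v ^ 2 = b := by rw [hb2]; exact hsq s v s t hsv hst
        rw [hsym v s] at e1
        rw [hε, div_mul_eq_mul_div, eq_div_iff (mul_ne_zero hb0 hst0), ← e1, ← e2]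
        ring
      refine ⟨ε, mul_self_eq_one_iff.mp h2, ?_⟩
      funext v
      simp only [Pi.sub_apply, Pi.smul_apply, smul_eq_mul, eV]
      rcases hcase s v with h | h | h
      · rw [h, if_neg hst.1, if_neg hst.2, if_pos rfl, if_neg (fun h => hne s h.symm), hsym t s,
          hdiag s t]
        linear_combination (-(k s t)) * h2
      · have e1 : c s ≠ t := fun h => hst.2 (by rw [← h, hcc])
        have e2 : c s ≠ c t := fun h => hst.1 (by rw [← hcc s, h, hcc])
        rw [h, if_neg e1, if_neg e2, if_neg (hne s), if_pos rfl, hodd2, hodd2, hsym t s,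
          hdiag s t]
        linear_combination (k s t) * h2
      · rcases hcase t v with h' | h' | h'
        · rw [h', if_pos rfl, if_neg (fun h => hne t h.symm), if_neg (fun h => hst.1 h.symm),
            if_neg (fun h => hst.2 (by rw [h, hcc]))]
          ring
        · have e1 : c t ≠ s := fun h => hst.2 h.symm
          have e2 : c t ≠ c s := fun h => hst.1 (by rw [← hcc s, ← h, hcc])
          rw [h', if_neg (hne t), if_pos rfl, if_neg e1, if_neg e2, hodd2, hodd2]
          ring
        · rw [h3 v h h', if_neg (fun h0 => h'.1 h0.symm), if_neg (fun h0 => h'.2 (by rw [h0, hcc])),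
            if_neg (fun h0 => h.1 h0.symm), if_neg (fun h0 => h.2 (by rw [h0, hcc]))]
          ring
    by_cases hl : ∀ t, ∃ ε : ℚ, k t = ε • k s0
    · left
      refine ⟨k s0, hkN s0, fun z hz => ⟨z s0 / k s0 s0, ?_⟩⟩
      funext t
      obtain ⟨ε, hε⟩ := hl t
      have h1 : z t = ε * z s0 := by
        rw [← hk t z hz, ← hk s0 z hz, Finset.mul_sum, hε]
        refine Finset.sum_congr rfl fun u _ => ?_
        rw [Pi.smul_apply, smul_eq_mul, mul_assoc]
      have h2 : k s0 t = ε * k s0 s0 := by rw [hsym, hε, Pi.smul_apply, smul_eq_mul]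
      rw [Pi.smul_apply, smul_eq_mul, h1, h2]
      have h3 := hdne s0
      field_simp
    · right
      push Not at hl
      obtain ⟨t, ht⟩ := hl
      rcases hcase s0 t with h | h | h
      · exact absurd (by rw [h, one_smul]) (ht 1)
      · refine absurd ?_ (ht (-1))
        funext u
        rw [h, hodd1, Pi.smul_apply, smul_eq_mul, neg_one_mul]
      · obtain ⟨ε, hε1, hε2⟩ := hε s0 t h
        have hl0 : k t t - ε * k s0 t ≠ 0 := by
          intro h0
          rw [h0, zero_smul, sub_eq_zero] at hε2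
          exact ht ε hε2
        have h1 : eV c t - ε • eV c s0 ∈ N := by
          have h2 : eV c t - ε • eV c s0 = (k t t - ε * k s0 t)⁻¹ • (k t - ε • k s0) := by
            rw [hε2, smul_smul, inv_mul_cancel₀ hl0, one_smul]
          rw [h2]
          exact N.smul_mem _ (N.sub_mem (hkN t) (N.smul_mem _ (hkN s0)))
        refine ⟨t, s0, -ε, ?_, ?_, fun h0 => ?_⟩
        · rcases hε1 with h2 | h2 <;> rw [h2]
          · right; rfl
          · left; ring
        · rw [neg_smul, ← sub_eq_add_neg]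
          exact h1
        · have h2 := congrFun h0 t
          rw [Pi.add_apply, Pi.smul_apply, eV, eV, if_pos rfl, if_neg (fun h => hne t h.symm),
            if_neg (fun h' => h.1 h'.symm), if_neg (fun h' => h.2 (by rw [h', hcc]))] at h2
          norm_num at h2

end tri

end Pool.Agent.Helper8.T1
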