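import Pool.Agent.Helper8.T1.Tri3

/-!
Stable subspaces of the space of odd functions, for a group which acts transitively on `2 p`
places, `p` a prime.
-/

set_option autoImplicit false
set_option linter.unusedSectionVars false

namespace Pool.Agent.Helper8.T1

open Polynomial

section one

variable {E : Type} [Fintype E] [DecidableEq E] (c : E → E)

/-- a subspace of dimension at most one -/
def OneD (N : Submodule ℚ (E → ℚ)) : Prop := ∃ w ∈ N, ∀ z ∈ N, ∃ q : ℚ, z = q • w

/-- if all values are determined by one value, the dimension is at most one -/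
lemma oneD_of (N : Submodule ℚ (E → ℚ)) (s : E)
    (h : ∀ t, ∃ ε : ℚ, ∀ z ∈ N, z t = ε * z s) : OneD N := by
  classical
  by_cases h0 : ∀ z ∈ N, z s = 0
  · refine ⟨0, N.zero_mem, fun z hz => ⟨0, ?_⟩⟩
    rw [smul_zero]
    funext t
    obtain ⟨ε, hε⟩ := h t
    rw [hε z hz, h0 z hz, mul_zero]
    rfl
  · push Not at h0
    obtain ⟨w, hw, hw0⟩ := h0
    refine ⟨w, hw, fun z hz => ⟨z s / w s, ?_⟩⟩
    funext t
    obtain ⟨ε, hε⟩ := h t
    rw [Pi.smul_apply, smul_eq_mul, hε z hz, hε w hw]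
    field_simp

lemma eV_self (hne : ∀ s, c s ≠ s) (s : E) : eV c s s = 1 := by
  rw [eV, if_pos rfl, if_neg (fun h => hne s h.symm), sub_zero]

lemma eV_c (hne : ∀ s, c s ≠ s) (s : E) : eV c s (c s) = -1 := by
  rw [eV, if_neg (hne s), if_pos rfl, zero_sub]

lemma eV_dp (hcc : ∀ s, c (c s) = s) {s t : E} (h : DP c s t) : eV c s t = 0 := by
  rw [eV, if_neg (fun h1 => h.1 h1.symm), if_neg (fun h1 => h.2 (by rw [h1, hcc])), sub_zero]

lemma dp_cases (hcc : ∀ s, c (c s) = s) (s t : E) : t = s ∨ t = c s ∨ DP c s t := by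
  by_cases h1 : t = s
  · exact Or.inl h1
  by_cases h2 : t = c s
  · exact Or.inr (Or.inl h2)
  · exact Or.inr (Or.inr ⟨fun h => h1 h.symm, fun h => h2 (by rw [h, hcc])⟩)

end one

section prime

variable {E : Type} [Fintype E] [DecidableEq E] {c : E → E}
  (hcc : ∀ s, c (c s) = s) (hne : ∀ s, c s ≠ s) {Γ : Type*} [Group Γ] (a : Γ →* Equiv.Perm E)
  (hac : ∀ g s, a g (c s) = c (a g s)) (htr : ∀ s t, ∃ g, a g s = t)

include htr in
/-- an element of order `p` -/
lemma exists_order (p : ℕ) (hp : p.Prime) (hcard : Fintype.card E = 2 * p) (s : E) :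
    ∃ g : Γ, orderOf (a g) = p := by
  classical
  have : Fact p.Prime := ⟨hp⟩
  let G := a.range
  have h1 : (MulAction.orbit G s) = Set.univ := by
    rw [Set.eq_univ_iff_forall]
    intro t
    obtain ⟨g, hg⟩ := htr s t
    exact ⟨⟨a g, ⟨g, rfl⟩⟩, hg⟩
  have h2 : Nat.card (MulAction.orbit G s) * Nat.card (MulAction.stabilizer G s) = Nat.card G := by
    have h3 := Nat.card_congr (MulAction.orbitEquivQuotientStabilizer G s)
    rw [h3]
    exact (Subgroup.card_eq_card_quotient_mul_card_subgroup _).symm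
  have h3 : Nat.card (MulAction.orbit G s) = 2 * p := by
    rw [h1, Nat.card_univ, Nat.card_eq_fintype_card, hcard]
  have h4 : p ∣ Nat.card G := by
    rw [← h2, h3]
    exact Dvd.intro (2 * Nat.card (MulAction.stabilizer G s)) (by ring)
  obtain ⟨x, hx⟩ := exists_prime_orderOf_dvd_card' p h4
  obtain ⟨g, hg⟩ := x.2
  exact ⟨g, by rw [hg, Subgroup.orderOf_coe, hx]⟩

variable {p : ℕ} (hp : p.Prime) (hp2 : p ≠ 2) {σ : Equiv.Perm E} (hσ : orderOf σ = p)
  (hσc : ∀ s, σ (c s) = c (σ s))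

include hσc in
lemma pow_c (k : ℕ) (s : E) : (σ ^ k) (c s) = c ((σ ^ k) s) := by
  induction k with
  | zero => rfl
  | succ k ih => rw [pow_succ', Equiv.Perm.mul_apply, ih, hσc, Equiv.Perm.mul_apply]

include hp hσ in
lemma period (s : E) (hs : σ s ≠ s) (k : ℕ) (hk : (σ ^ k) s = s) : p ∣ k := by
  have h1 : Function.IsPeriodicPt σ p s := by
    rw [Function.IsPeriodicPt, Function.IsFixedPt, Equiv.Perm.iterate_eq_pow, ← hσ,
      pow_orderOf_eq_one]
    rfl
  have h2 : Function.IsPeriodicPt σ k s := by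
    rw [Function.IsPeriodicPt, Function.IsFixedPt, Equiv.Perm.iterate_eq_pow]
    exact hk
  have h3 := h1.minimalPeriod_dvd
  rcases (Nat.dvd_prime hp).mp h3 with h4 | h4
  · exfalso
    apply hs
    exact Function.minimalPeriod_eq_one_iff_isFixedPt.mp h4
  · rw [← h4]
    exact h2.minimalPeriod_dvd

include hp hσ in
lemma orbit_inj (s : E) (hs : σ s ≠ s) (k l : ℕ) (hk : k < p) (hl : l < p)
    (h : (σ ^ k) s = (σ ^ l) s) : k = l := by
  have key : ∀ k l : ℕ, k ≤ l → l < p → (σ ^ k) s = (σ ^ l) s → k = l := by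
    intro k l hkl hl h
    have h2 : (σ ^ (l - k)) s = s := by
      apply (σ ^ k).injective
      rw [← Equiv.Perm.mul_apply, ← pow_add, Nat.add_sub_cancel' hkl, h]
    have h3 := period hp hσ s hs _ h2
    have h5 := Nat.eq_zero_of_dvd_of_lt h3 (lt_of_le_of_lt (Nat.sub_le _ _) hl)
    omega
  rcases le_total k l with h2 | h2
  · exact key k l h2 hl h
  · exact (key l k h2 hk h.symm).symm

include hp hp2 hσ hσc hne hcc in
lemma orbit_disj (s : E) (hs : σ s ≠ s) (k l : ℕ) (hl : l < p) :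
    (σ ^ k) s ≠ c ((σ ^ l) s) := by
  intro h
  -- `c s = σ^j s`
  have h3 : c s = (σ ^ (k + (p - l) : ℕ)) s := by
    have e1 : (σ ^ (p - l + l)) s = s := by
      rw [Nat.sub_add_cancel hl.le, ← hσ, pow_orderOf_eq_one]
      rfl
    have e2 : (σ ^ (p - l)) ((σ ^ k) s) = c s := by
      rw [h, pow_c hσc, ← Equiv.Perm.mul_apply, ← pow_add, e1]
    rw [← e2, ← Equiv.Perm.mul_apply, ← pow_add, add_comm]
  obtain ⟨j, hj⟩ : ∃ j : ℕ, j = k + (p - l) := ⟨_, rfl⟩
  rw [← hj] at h3
  have h4 : (σ ^ (j + j)) s = s := by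
    rw [pow_add, Equiv.Perm.mul_apply, ← h3, pow_c hσc, ← h3, hcc]
  have h5 := period hp hσ s hs _ h4
  have h6 : p ∣ j := by
    have h7 : p ∣ 2 * j := by rwa [two_mul]
    rcases (Nat.Prime.dvd_mul hp).mp h7 with h8 | h8
    · exact absurd ((Nat.prime_dvd_prime_iff_eq hp Nat.prime_two).mp h8) hp2
    · exact h8
  obtain ⟨m, hm⟩ := h6
  have h7 : (σ ^ j) s = s := by
    rw [hm, pow_mul, ← hσ, pow_orderOf_eq_one, one_pow]
    rfl
  rw [h7] at h3
  exact hne s h3

include hp hp2 hσ hσc hne hcc in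
/-- all points are in the orbits of `s` and `c s` -/
lemma orbit_cover (hcard : Fintype.card E = 2 * p) (s : E) (hs : σ s ≠ s) (t : E) :
    ∃ k < p, t = (σ ^ k) s ∨ t = c ((σ ^ k) s) := by
  classical
  let f : Fin p ⊕ Fin p → E := Sum.elim (fun k => (σ ^ (k : ℕ)) s) (fun k => c ((σ ^ (k : ℕ)) s))
  have hcinj : Function.Injective c := fun x y h => by rw [← hcc x, h, hcc]
  have hinj : Function.Injective f := by
    rintro (k | k) (l | l) h
    · rw [Fin.ext (orbit_inj hp hσ s hs k l k.2 l.2 h)]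
    · exact absurd h (orbit_disj hcc hne hp hp2 hσ hσc s hs k l l.2)
    · exact absurd h.symm (orbit_disj hcc hne hp hp2 hσ hσc s hs l k k.2)
    · rw [Fin.ext (orbit_inj hp hσ s hs k l k.2 l.2 (hcinj h))]
  have hbij : Function.Bijective f := by
    rw [Fintype.bijective_iff_injective_and_card]
    refine ⟨hinj, ?_⟩
    rw [Fintype.card_sum, Fintype.card_fin, hcard, two_mul]
  obtain ⟨x, hx⟩ := hbij.2 t
  rcases x with k | k
  · exact ⟨k, k.2, Or.inl hx.symm⟩
  · exact ⟨k, k.2, Or.inr hx.symm⟩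

/-- the operator of a permutation -/
def opS (σ : Equiv.Perm E) : (E → ℚ) →ₗ[ℚ] (E → ℚ) where
  toFun z := fun t => z (σ⁻¹ t)
  map_add' _ _ := rfl
  map_smul' _ _ := rfl

lemma opS_pow (σ : Equiv.Perm E) (k : ℕ) (z : E → ℚ) (t : E) :
    ((opS σ) ^ k) z t = z ((σ ^ k)⁻¹ t) := by
  induction k generalizing z t with
  | zero => simp
  | succ k ih =>
    rw [pow_succ, Module.End.mul_apply, ih]
    show z (σ⁻¹ ((σ ^ k)⁻¹ t)) = _
    rw [pow_succ, mul_inv_rev, Equiv.Perm.mul_apply]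

include hσc in
lemma opS_eV (s : E) : opS σ (eV c s) = eV c (σ s) := by
  funext t
  show eV c s (σ⁻¹ t) = eV c (σ s) t
  have h1 : ∀ u, (σ⁻¹ t = u ↔ t = σ u) := fun u => by
    rw [Equiv.Perm.inv_eq_iff_eq, eq_comm]
  unfold eV
  rw [← hσc]
  congr 1
  · exact if_congr (h1 s) rfl rfl
  · exact if_congr (h1 (c s)) rfl rfl

include hσc in
lemma opS_pow_eV (k : ℕ) (s : E) : ((opS σ) ^ k) (eV c s) = eV c ((σ ^ k) s) := by
  induction k with
  | zero => rfl
  | succ k ih =>
    rw [pow_succ', Module.End.mul_apply, ih, opS_eV hσc, ← Equiv.Perm.mul_apply, ← pow_succ']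

lemma aeval_mem {N : Submodule ℚ (E → ℚ)} (T : (E → ℚ) →ₗ[ℚ] (E → ℚ)) (hT : ∀ z ∈ N, T z ∈ N)
    (r : ℚ[X]) {z : E → ℚ} (hz : z ∈ N) : (aeval T r) z ∈ N := by
  have h1 : ∀ k : ℕ, (T ^ k) z ∈ N := by
    intro k
    induction k with
    | zero => exact hz
    | succ k ih => rw [pow_succ', Module.End.mul_apply]; exact hT _ ih
  rw [aeval_eq_sum_range, LinearMap.sum_apply]
  exact N.sum_mem fun k _ => by
    rw [LinearMap.smul_apply]
    exact N.smul_mem _ (h1 k)

include hp hp2 hσ hσc hne hcc in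
/-- odd prime degree -/
theorem triP_odd (hcard : Fintype.card E = 2 * p) (N : Submodule ℚ (E → ℚ))
    (hN : ∀ z ∈ N, opS σ z ∈ N) (hodd : ∀ z ∈ N, ∀ s, z (c s) = - z s) :
    OneD N ∨ ∃ s t : E, DP c s t ∧ eV c t - eV c s ∈ N := by
  classical
  have hσ1 : σ ≠ 1 := by
    intro h
    rw [h, orderOf_one] at hσ
    exact hp.one_lt.ne hσ
  obtain ⟨s, hs⟩ : ∃ s, σ s ≠ s := by
    by_contra hcon
    push Not at hcon
    exact hσ1 (Equiv.ext hcon)
  have hcov := orbit_cover hcc hne hp hp2 hσ hσc hcard s hs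
  by_cases hfix : ∀ z ∈ N, opS σ z = z
  · -- dimension one
    left
    refine oneD_of N s fun t => ?_
    have h1 : ∀ z ∈ N, ∀ k, z ((σ ^ k) s) = z s := by
      intro z hz k
      have h2 : ∀ k : ℕ, ((opS σ) ^ k) z = z := by
        intro k
        induction k with
        | zero => rfl
        | succ k ih => rw [pow_succ', Module.End.mul_apply, ih, hfix z hz]
      have h3 := congrFun (h2 k) ((σ ^ k) s)
      rw [opS_pow, show (σ ^ k)⁻¹ ((σ ^ k) s) = s from (σ ^ k).symm_apply_apply s] at h3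
      exact h3.symm
    obtain ⟨k, -, hk | hk⟩ := hcov t
    · exact ⟨1, fun z hz => by rw [hk, h1 z hz, one_mul]⟩
    · exact ⟨-1, fun z hz => by rw [hk, hodd z hz, h1 z hz, neg_one_mul]⟩
  · right
    push Not at hfix
    obtain ⟨z, hz, hz1⟩ := hfix
    have hcσ : σ s ≠ c s := by
      intro h
      have h2 : (σ ^ 2) s = s := by
        rw [pow_two, Equiv.Perm.mul_apply, h, hσc, h, hcc]
      have h3 := period hp hσ s hs 2 h2
      exact hp2 ((Nat.prime_dvd_prime_iff_eq hp Nat.prime_two).mp h3)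
    refine ⟨s, σ s, ⟨fun h => hs h.symm, fun h => hcσ (by rw [h, hcc, ← h])⟩, ?_⟩
    -- the polynomial of `z`
    obtain ⟨q, hq⟩ : ∃ q : ℚ[X], q = ∑ k ∈ Finset.range p, C (z ((σ ^ k) s)) * X ^ k := ⟨_, rfl⟩
    have hqz : (aeval (opS σ) q) (eV c s) = z := by
      rw [hq, map_sum, LinearMap.sum_apply]
      have h1 : ∀ k, (aeval (opS σ) (C (z ((σ ^ k) s)) * X ^ k)) (eV c s) =
          z ((σ ^ k) s) • eV c ((σ ^ k) s) := by
        intro k
        rw [map_mul, aeval_C, map_pow, aeval_X, Module.End.mul_apply, opS_pow_eV hσc]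
        rfl
      rw [Finset.sum_congr rfl fun k _ => h1 k]
      funext t
      rw [Finset.sum_apply]
      obtain ⟨k, hk, hkt⟩ := hcov t
      have hkey : ∀ l < p, l ≠ k → DP c ((σ ^ l) s) t := by
        intro l hl hlk
        have e1 : (σ ^ l) s ≠ (σ ^ k) s := fun h => hlk (orbit_inj hp hσ s hs l k hl hk h)
        have e2 := orbit_disj hcc hne hp hp2 hσ hσc s hs l k hk
        rcases hkt with h | h
        · rw [h]; exact ⟨e1, e2⟩
        · rw [h]; exact ⟨e2, by rw [hcc]; exact e1⟩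
      rw [Finset.sum_eq_single k]
      · rw [Pi.smul_apply, smul_eq_mul]
        rcases hkt with h | h
        · rw [h, eV_self c hne, mul_one]
        · rw [h, eV_c c hne, hodd z hz]; ring
      · intro l hl hlk
        rw [Pi.smul_apply, eV_dp c hcc (hkey l (Finset.mem_range.mp hl) hlk), smul_zero]
      · intro h; exact absurd (Finset.mem_range.mpr hk) h
    have : Fact p.Prime := ⟨hp⟩
    have hcyc : (cyclotomic p ℚ) * (X - 1) = X ^ p - 1 := cyclotomic_prime_mul_X_sub_one ℚ p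
    have hSp : ∀ y : E → ℚ, (aeval (opS σ) (X ^ p - 1 : ℚ[X])) y = 0 := by
      intro y
      rw [map_sub, map_pow, aeval_X, map_one, LinearMap.sub_apply, Module.End.one_apply]
      rw [sub_eq_zero]
      funext t
      rw [opS_pow, ← hσ, pow_orderOf_eq_one]
      rfl
    have hS1 : ∀ y : E → ℚ, (aeval (opS σ) (X - 1 : ℚ[X])) y = opS σ y - y := by
      intro y
      rw [map_sub, aeval_X, map_one, LinearMap.sub_apply, Module.End.one_apply]
    have hirr : Irreducible (cyclotomic p ℚ) := cyclotomic.irreducible_rat hp.pos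
    by_cases hdvd : cyclotomic p ℚ ∣ q
    · exfalso
      obtain ⟨r, hr⟩ := hdvd
      apply hz1
      rw [← sub_eq_zero, ← hS1, ← hqz, ← Module.End.mul_apply, ← map_mul]
      have h1 : (X - 1) * q = r * (X ^ p - 1) := by rw [hr, ← hcyc]; ring
      rw [h1, map_mul, Module.End.mul_apply, hSp, map_zero]
    · obtain ⟨u, v, huv⟩ := (Irreducible.coprime_iff_not_dvd hirr).mpr hdvd
      have h1 : (X - 1 : ℚ[X]) = u * (X ^ p - 1) + ((X - 1) * v) * q := by
        rw [← hcyc]
        calc (X - 1 : ℚ[X]) = (X - 1) * (u * cyclotomic p ℚ + v * q) := by rw [huv, mul_one]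
          _ = _ := by ring
      have h2 : eV c (σ s) - eV c s = (aeval (opS σ) ((X - 1) * v)) z := by
        rw [← opS_eV hσc, ← hS1, h1, map_add, LinearMap.add_apply, map_mul, Module.End.mul_apply,
          hSp, map_zero, zero_add, map_mul, Module.End.mul_apply, hqz]
        rw [← h1]
      rw [h2]
      exact aeval_mem (opS σ) hN _ hz

end prime

end Pool.Agent.Helper8.T1
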