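import Pool.Agent.Helper7.CP.Types

/-!
Complex multiplication by a number field, steps of the Hodge filtration.
-/

namespace Pool.Agent.GPC

/-- `B` has complex multiplication by the number field `K`: `K` acts on `H_1(B)` through
endomorphisms of `B` (tensor `ℚ`) and `[K : ℚ] = 2 dim B`. -/
structure AbVar.HasCM (B : AbVar) (K : Type) [Field K] [NumberField K]
    (ρ : K → B.H1 → B.H1) : Prop where
  degree : Module.finrank ℚ K = 2 * B.g
  one : ∀ v, ρ 1 v = v
  mul : ∀ x y v, ρ (x * y) v = ρ x (ρ y v)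
  add : ∀ x y v, ρ (x + y) v = ρ x v + ρ y v
  endo : ∀ x, B.IsEnd (ρ x)

/-- the class `α` in `H^{2k}(X, ℂ)` lies in `F^{k-1}`: it vanishes if more than `k + 1` of its
arguments are in `F^0`. -/
def AbVar.IsInFilPred (X : AbVar) (k : ℕ) (α : X.Class (2 * k)) : Prop :=
  ∀ v : Fin (2 * k) → X.H1,
    (∃ s : Finset (Fin (2 * k)), k + 1 < s.card ∧ ∀ r ∈ s, X.IsFil (v r)) → α v = 0

end Pool.Agent.GPC
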